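import Pool.Agent.SN22.Geo

/-! SN22 module ADV (MP_1888e6_gt): going up without events. -/

set_option autoImplicit false

namespace Pool.Agent.SN22.Cfg

/-- An arc with a point above `Y` is a strand. -/
private theorem Pre.exists_strand {C : Cfg} {Y : ℝ} (h : C.Pre Y) {i : ℕ} (hi : i < C.A) {y : ℝ}
    (hy : Y < y) (ho : C.On i y) : ∃ k < C.n, C.r k = i := by
  apply h.r_surj i hi
  cases hc : C.hi i with
  | none => rfl
  | some t =>
    exfalso
    have h1 := ho.2 t hc
    have h2 := (h.hi_le i hi t hc).2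
    linarith

/-- Going up from `Y` to `Y₂`, the strands being pairwise disjoint there. Proof: all fields except `disj` are trivial.
`disj` for `y ≤ Y` is the old one; for `Y < y ≤ Y₂` an arc with a point of level `y` is open (a closed one has
`hi ≤ Y`), hence a strand (`r_surj`), and two different strands have different points at level `y` by `hne`. -/
theorem Pre.adv {C : Cfg} {Y Y₂ : ℝ} (h : C.Pre Y) (hY : Y ≤ Y₂)
    (hne : ∀ j k, j < k → k < C.n → ∀ y, Y < y → y ≤ Y₂ → (C.l (C.r j)).pt y ≠ (C.l (C.r k)).pt y) :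
    C.Pre Y₂ where
  lo_le := fun i hi => (h.lo_le i hi).trans hY
  hi_le := fun i hi t ht => ⟨(h.hi_le i hi t ht).1, (h.hi_le i hi t ht).2.trans hY⟩
  r_lt := h.r_lt
  r_open := h.r_open
  r_inj := h.r_inj
  r_surj := h.r_surj
  disj := by
    intro i hi j hj hij y hy oi oj hp
    rcases le_or_gt y Y with hyY | hyY
    · exact h.disj i hi j hj hij y hyY oi oj hp
    · exfalso
      obtain ⟨k, hk, hki⟩ := h.exists_strand hi hyY oi
      obtain ⟨k', hk', hkj⟩ := h.exists_strand hj hyY oj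
      rcases lt_trichotomy k k' with hlt | heq | hgt
      · refine hne k k' hlt hk' y hyY hy ?_
        rw [hki, hkj]
        exact hp
      · apply hij
        rw [← hki, ← hkj, heq]
      · refine hne k' k hgt hk y hyY hy ?_
        rw [hki, hkj]
        exact hp.symm
  deg := h.deg

/-- Renumbering of strands. Proof: `Equiv.swap p (p + 1)` permutes the numbers `< C.n`. -/
theorem Pre.swp {C : Cfg} {Y : ℝ} (h : C.Pre Y) {p : ℕ} (hp : p + 1 < C.n) : (C.swp p).Pre Y := by
  have hsw : ∀ k, k < C.n → Equiv.swap p (p + 1) k < C.n := by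
    intro k hk
    rw [Equiv.swap_apply_def]
    split_ifs <;> omega
  exact {
    lo_le := h.lo_le
    hi_le := h.hi_le
    r_lt := fun k hk => h.r_lt _ (hsw k hk)
    r_open := fun k hk => h.r_open _ (hsw k hk)
    r_inj := fun j hj k hk e =>
      (Equiv.swap p (p + 1)).injective (h.r_inj _ (hsw j hj) _ (hsw k hk) e)
    r_surj := by
      intro i hi ho
      obtain ⟨k, hk, hki⟩ := h.r_surj i hi ho
      refine ⟨Equiv.swap p (p + 1) k, hsw k hk, ?_⟩
      show C.r (Equiv.swap p (p + 1) (Equiv.swap p (p + 1) k)) = i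
      rw [Equiv.swap_apply_self]
      exact hki
    disj := h.disj
    deg := h.deg }

/-- The new part of the link when going up from `Y` to `Y₂`. Proof: double inclusion with `seg_line`; a point of
level in `(Y, Y₂]` lies on an open arc, i.e. on a strand; points of strands have `lo ≤ Y`. -/
theorem Pre.pts_adv {C : Cfg} {Y Y₂ : ℝ} (h : C.Pre Y) (hY : Y < Y₂) :
    C.pts Y₂ = C.pts Y ∪ ⋃ k ∈ Set.Iio C.n, seg Y Y₂ (C.xz k Y) (C.xz k Y₂) := by
  have hseg : ∀ k, seg Y Y₂ (C.xz k Y) (C.xz k Y₂)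
      = {p | ∃ y, Y ≤ y ∧ y ≤ Y₂ ∧ p = (C.l (C.r k)).pt y} := fun k => seg_line _ hY
  ext q
  constructor
  · rintro ⟨i, hi, y, hy, ho, rfl⟩
    rcases le_or_gt y Y with hyY | hyY
    · exact Or.inl ⟨i, hi, y, hyY, ho, rfl⟩
    · obtain ⟨k, hk, hki⟩ := h.exists_strand hi hyY ho
      right
      refine Set.mem_iUnion₂.mpr ⟨k, hk, ?_⟩
      rw [hseg, hki]
      exact ⟨y, hyY.le, hy, rfl⟩
  · rintro (⟨i, hi, y, hy, ho, rfl⟩ | hq)
    · exact ⟨i, hi, y, hy.trans hY.le, ho, rfl⟩
    · obtain ⟨k, hk, hq⟩ := Set.mem_iUnion₂.mp hq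
      rw [hseg] at hq
      obtain ⟨y, h1, h2, rfl⟩ := hq
      refine ⟨C.r k, h.r_lt k hk, y, h2, ⟨(h.lo_le _ (h.r_lt k hk)).trans h1, ?_⟩, rfl⟩
      intro t ht
      rw [h.r_open k hk] at ht
      exact absurd ht (by simp)

/-- Idle slab. Proof: `Pre.adv` (strands stay sorted in between by `lt_mid`, so their points differ),
`Pre.pts_adv` and `Morse.idle`. -/
theorem Inv.idle {C : Cfg} {w : List Ev} {Y Y₂ : ℝ} (h : C.Inv w Y) (hY : Y < Y₂) (hs : C.SortedAt Y₂) :
    C.Inv w Y₂ where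
  pre := by
    refine h.pre.adv hY.le ?_
    intro j k hjk hk y h1 h2 hp
    have h3 : (C.l (C.r j)).X y < (C.l (C.r k)).X y :=
      lt_mid (h.sorted j k hjk hk) (hs j k hjk hk) h1.le h2
    have h4 : (C.l (C.r j)).X y = (C.l (C.r k)).X y := congrArg Prod.fst hp
    linarith
  sorted := hs
  morse := by
    rw [h.pre.pts_adv hY]
    exact h.morse.idle Y₂ (fun k => C.xz k Y₂) hY ((C.sortedAt_iff Y₂).mp hs)

end Pool.Agent.SN22.Cfg
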