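import Pool.Agent.SN22.Adv

/-! SN22 module CAP (MP_1888e6_gt): a local maximum. -/

set_option autoImplicit false

namespace Pool.Agent.SN22.Cfg

private theorem tri' {i n k : ℕ} (hk : k < n + 2) (hi : i ≤ n) :
    k = i ∨ k = i + 1 ∨ ∃ m < n, k = sh i m := by
  by_cases h1 : k < i
  · exact Or.inr (Or.inr ⟨k, by omega, by simp [sh, h1]⟩)
  · by_cases h2 : k = i
    · exact Or.inl h2
    · by_cases h3 : k = i + 1
      · exact Or.inr (Or.inl h3)
      · refine Or.inr (Or.inr ⟨k - 2, by omega, ?_⟩)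
        rw [sh, if_neg (by omega)]
        omega

private theorem sh_lt' {i n m : ℕ} (hm : m < n) : sh i m < n + 2 := by
  unfold sh
  split_ifs <;> omega

private theorem sh_inj' {i k m : ℕ} (h : sh i k = sh i m) : k = m := by
  unfold sh at h
  split_ifs at h <;> omega

private theorem sh_ne' (i k : ℕ) : sh i k ≠ i ∧ sh i k ≠ i + 1 := by
  unfold sh
  split_ifs <;> omega

/-- A local maximum at the level `Y₂`: the strands `i` and `i + 1` meet there and end.

Proof. Let `C' = C.capc i Y₂`. `disj`: for `y ≤ Y` as in `C` (`On` is the same for `y ≤ Y`, `End` weaker). For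
`Y < y ≤ Y₂` both arcs are open in `C`, i.e. strands `j < k` of `C`; all strands are strictly sorted at level `Y`, and
at level `Y₂` they are sorted except that `i`, `i + 1` coincide (`hX`, `hl`, `hr`, and `hs` with `capc_X` for the
other pairs), so by `lt_mid`, `lt_mid_right` they can only meet for `{j, k} = {i, i + 1}` and `y = Y₂`, where both
arcs end. `deg`: the old ends have levels `≤ Y`, the new ends are those of the arcs `C.r i`, `C.r (i + 1)` at level
`Y₂`, they are partners of each other (at level `Y₂ > Y` there are no other ends). `r_surj`: an open arc of `C'` is a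
strand `k ≠ i, i + 1` of `C`, and `k = sh i k'`. The set: a point of `C'` of level in `(Y, Y₂]` is on a strand of
`C`; use `seg_line`; `Morse.cap` (with `C.n = m + 2`), `v = C.xz i Y₂`, `Q k = C'.xz k Y₂ = C.xz (sh i k) Y₂`. -/
theorem Inv.cap {C : Cfg} {w : List Ev} {Y Y₂ : ℝ} (h : C.Inv w Y) {i : ℕ} (hi : i + 1 < C.n) (hY : Y < Y₂)
    (hX : C.X i Y₂ = C.X (i + 1) Y₂) (hZ : C.Z i Y₂ = C.Z (i + 1) Y₂)
    (hl : ∀ k, k < i → C.X k Y₂ < C.X i Y₂) (hr : ∀ k, i + 1 < k → k < C.n → C.X i Y₂ < C.X k Y₂)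
    (hs : (C.capc i Y₂).SortedAt Y₂) :
    (C.capc i Y₂).Inv (w ++ [Ev.cap i]) Y₂ := by
  have hp := h.pre
  obtain ⟨m, hm⟩ : ∃ m, C.n = m + 2 := ⟨C.n - 2, by omega⟩
  have him : i ≤ m := by omega
  have hDn : (C.capc i Y₂).n = m := by rw [capc_n, hm]; rfl
  have ha : C.r i < C.A := hp.r_lt i (by omega)
  have hb : C.r (i + 1) < C.A := hp.r_lt (i + 1) hi
  have hab : C.r i ≠ C.r (i + 1) := fun e => by
    have := hp.r_inj i (by omega) (i + 1) hi e
    omega
  have hao : C.hi (C.r i) = none := hp.r_open i (by omega)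
  have hbo : C.hi (C.r (i + 1)) = none := hp.r_open (i + 1) hi
  have hv : (C.l (C.r i)).pt Y₂ = (C.l (C.r (i + 1))).pt Y₂ := by
    have h1 : (C.l (C.r i)).X Y₂ = (C.l (C.r (i + 1))).X Y₂ := hX
    have h2 : (C.l (C.r i)).Z Y₂ = (C.l (C.r (i + 1))).Z Y₂ := hZ
    simp only [Ln.pt, h1, h2]
  have hon : ∀ j, ∀ y ≤ Y₂, ((C.capc i Y₂).On j y ↔ C.On j y) := by
    intro j y hy
    unfold On
    rw [capc_lo]
    by_cases h1 : j = C.r i
    · rw [h1, capc_hi_i, hao]
      constructor
      · rintro ⟨h2, _⟩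
        exact ⟨h2, fun t ht => absurd ht (by simp)⟩
      · rintro ⟨h2, _⟩
        refine ⟨h2, fun t ht => ?_⟩
        rw [Option.some.injEq] at ht
        rw [← ht]
        exact hy
    · by_cases h2 : j = C.r (i + 1)
      · rw [h2, capc_hi_i1, hbo]
        constructor
        · rintro ⟨h2, _⟩
          exact ⟨h2, fun t ht => absurd ht (by simp)⟩
        · rintro ⟨h2, _⟩
          refine ⟨h2, fun t ht => ?_⟩
          rw [Option.some.injEq] at ht
          rw [← ht]
          exact hy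
      · rw [capc_hi C i Y₂ h1 h2]
  have hend : ∀ j, ∀ y, ((C.capc i Y₂).End j y ↔ C.End j y ∨ ((j = C.r i ∨ j = C.r (i + 1)) ∧ y = Y₂)) := by
    intro j y
    unfold End
    rw [capc_lo]
    by_cases h1 : j = C.r i
    · rw [h1, capc_hi_i, hao]
      simp only [Option.some.injEq, reduceCtorEq, or_false, true_or, true_and]
      exact or_congr_right eq_comm
    · by_cases h2 : j = C.r (i + 1)
      · rw [h2, capc_hi_i1, hbo]
        simp only [Option.some.injEq, reduceCtorEq, or_false, or_true, true_and]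
        exact or_congr_right eq_comm
      · rw [capc_hi C i Y₂ h1 h2]
        simp only [h1, h2, or_self, false_and, or_false]
  have hendle : ∀ j < C.A, ∀ y, C.End j y → y ≤ Y := by
    rintro j hj y (rfl | he)
    · exact hp.lo_le j hj
    · exact (hp.hi_le j hj y he).2
  have hlt : ∀ p q, p < q → q < C.n → ¬ (p = i ∧ q = i + 1) → C.X p Y₂ < C.X q Y₂ := by
    intro p q hpq hq hne
    rcases tri' (n := m) (k := p) (by omega) him with rfl | rfl | ⟨p', hp', rfl⟩
    · exact hr q (by omega) hq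
    · rw [← hX]
      exact hr q (by omega) hq
    · rcases tri' (n := m) (k := q) (by omega) him with rfl | rfl | ⟨q', hq', rfl⟩
      · exact hl _ hpq
      · rw [← hX]
        refine hl _ ?_
        have := sh_ne' i p'
        omega
      · have h1 : p' < q' := by
          unfold sh at hpq
          split_ifs at hpq <;> omega
        exact hs p' q' h1 (by rw [hDn]; exact hq')
  have key : ∀ p q, p < q → q < C.n → ∀ y, Y < y → y ≤ Y₂ → C.X p y = C.X q y →
      p = i ∧ q = i + 1 ∧ y = Y₂ := by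
    intro p q hpq hq y h1 h2 e
    by_cases hc : p = i ∧ q = i + 1
    · obtain ⟨rfl, rfl⟩ := hc
      refine ⟨rfl, rfl, ?_⟩
      by_contra hne
      exact (lt_mid_right (h.sorted p (p + 1) hpq hq) hX.le h1.le (lt_of_le_of_ne h2 hne)).ne e
    · exact absurd e (lt_mid (h.sorted p q hpq hq) (hlt p q hpq hq hc) h1.le h2).ne
  have hstr : ∀ j < C.A, ∀ y, Y < y → C.On j y → ∃ p < C.n, C.r p = j := by
    intro j hj y hy oj
    refine hp.r_surj j hj ?_
    rcases hh : C.hi j with _ | t
    · rfl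
    · have h1 := oj.2 t hh
      have h2 := (hp.hi_le j hj t hh).2
      linarith
  have hpre : (C.capc i Y₂).Pre Y₂ := by
    refine ⟨?_, ?_, ?_, ?_, ?_, ?_, ?_, ?_⟩
    · intro j hj
      rw [capc_lo]
      exact (hp.lo_le j hj).trans hY.le
    · intro j hj t ht
      rw [capc_lo]
      by_cases h1 : j = C.r i
      · rw [h1, capc_hi_i, Option.some.injEq] at ht
        rw [← ht]
        exact ⟨(hp.lo_le j hj).trans_lt hY, le_rfl⟩
      · by_cases h2 : j = C.r (i + 1)
        · rw [h2, capc_hi_i1, Option.some.injEq] at ht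
          rw [← ht]
          exact ⟨(hp.lo_le j hj).trans_lt hY, le_rfl⟩
        · rw [capc_hi C i Y₂ h1 h2] at ht
          have := hp.hi_le j hj t ht
          exact ⟨this.1, this.2.trans hY.le⟩
    · intro k hk
      rw [hDn] at hk
      exact hp.r_lt (sh i k) (by rw [hm]; exact sh_lt' hk)
    · intro k hk
      rw [hDn] at hk
      have hk' : sh i k < C.n := by rw [hm]; exact sh_lt' hk
      have hne := sh_ne' i k
      show (C.capc i Y₂).hi (C.r (sh i k)) = none
      rw [capc_hi C i Y₂ (fun e => hne.1 (hp.r_inj _ hk' i (by omega) e))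
        (fun e => hne.2 (hp.r_inj _ hk' (i + 1) hi e))]
      exact hp.r_open _ hk'
    · intro j hj k hk e
      rw [hDn] at hj hk
      exact sh_inj' (hp.r_inj (sh i j) (by rw [hm]; exact sh_lt' hj) (sh i k) (by rw [hm]; exact sh_lt' hk) e)
    · intro j hj hnone
      have h1 : j ≠ C.r i := by
        rintro rfl
        rw [capc_hi_i] at hnone
        exact absurd hnone (by simp)
      have h2 : j ≠ C.r (i + 1) := by
        rintro rfl
        rw [capc_hi_i1] at hnone
        exact absurd hnone (by simp)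
      rw [capc_hi C i Y₂ h1 h2] at hnone
      obtain ⟨k, hk, rfl⟩ := hp.r_surj j hj hnone
      rcases tri' (n := m) (k := k) (by omega) him with rfl | rfl | ⟨k', hk', rfl⟩
      · exact absurd rfl h1
      · exact absurd rfl h2
      · exact ⟨k', by rw [hDn]; exact hk', rfl⟩
    · intro j hj k hk hjk y hy oj ok e
      rw [capc_l] at e
      have oj' := (hon j y hy).1 oj
      have ok' := (hon k y hy).1 ok
      rcases le_or_gt y Y with hyY | hyY
      · have := hp.disj j hj k hk hjk y hyY oj' ok' e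
        exact ⟨(hend j y).2 (Or.inl this.1), (hend k y).2 (Or.inl this.2)⟩
      · obtain ⟨p, hpn, rfl⟩ := hstr j hj y hyY oj'
        obtain ⟨q, hqn, rfl⟩ := hstr k hk y hyY ok'
        have hX' : C.X p y = C.X q y := congrArg Prod.fst e
        rcases Nat.lt_trichotomy p q with hpq | rfl | hpq
        · obtain ⟨rfl, rfl, rfl⟩ := key p q hpq hqn y hyY hy hX'
          exact ⟨(hend _ _).2 (Or.inr ⟨Or.inl rfl, rfl⟩), (hend _ _).2 (Or.inr ⟨Or.inr rfl, rfl⟩)⟩
        · exact absurd rfl hjk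
        · obtain ⟨rfl, rfl, rfl⟩ := key q p hpq hpn y hyY hy hX'.symm
          exact ⟨(hend _ _).2 (Or.inr ⟨Or.inr rfl, rfl⟩), (hend _ _).2 (Or.inr ⟨Or.inl rfl, rfl⟩)⟩
    · intro j hj y he
      rcases (hend j y).1 he with he' | ⟨hj', rfl⟩
      · have hyY := hendle j hj y he'
        obtain ⟨k, ⟨⟨hk, hkj⟩, hke, hkp⟩, huniq⟩ := hp.deg j hj y he'
        refine ⟨k, ⟨⟨hk, hkj⟩, (hend k y).2 (Or.inl hke), hkp⟩, ?_⟩
        rintro k' ⟨⟨hk', hk'j⟩, hk'e, hk'p⟩
        refine huniq k' ⟨⟨hk', hk'j⟩, ?_, hk'p⟩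
        rcases (hend k' y).1 hk'e with h1 | ⟨_, h1⟩
        · exact h1
        · linarith
      · have huniq : ∀ k' < C.A, (C.capc i y).End k' y → k' = C.r i ∨ k' = C.r (i + 1) := by
          intro k' hk' hk'e
          rcases (hend k' y).1 hk'e with h1 | ⟨h1, _⟩
          · have := hendle k' hk' y h1
            linarith
          · exact h1
        rcases hj' with rfl | rfl
        · refine ⟨C.r (i + 1), ⟨⟨hb, hab.symm⟩, (hend _ _).2 (Or.inr ⟨Or.inr rfl, rfl⟩), hv.symm⟩, ?_⟩
          rintro k' ⟨⟨hk', hk'j⟩, hk'e, _⟩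
          rcases huniq k' hk' hk'e with h1 | h1
          · exact absurd h1 hk'j
          · exact h1
        · refine ⟨C.r i, ⟨⟨ha, hab⟩, (hend _ _).2 (Or.inr ⟨Or.inl rfl, rfl⟩), hv⟩, ?_⟩
          rintro k' ⟨⟨hk', hk'j⟩, hk'e, _⟩
          rcases huniq k' hk' hk'e with h1 | h1
          · exact h1
          · exact absurd h1 hk'j
  refine ⟨hpre, hs, ?_⟩
  have hpts : (C.capc i Y₂).pts Y₂ = C.pts Y₂ := by
    ext p
    constructor
    · rintro ⟨j, hj, y, hy, oj, rfl⟩
      exact ⟨j, hj, y, hy, (hon j y hy).1 oj, rfl⟩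
    · rintro ⟨j, hj, y, hy, oj, rfl⟩
      exact ⟨j, hj, y, hy, (hon j y hy).2 oj, rfl⟩
  have hxz : C.xz (i + 1) Y₂ = C.xz i Y₂ := Prod.ext hX.symm hZ.symm
  have hset : (C.capc i Y₂).pts Y₂ = C.pts Y ∪
      ((⋃ k ∈ Set.Iio m, seg Y Y₂ (C.xz (sh i k) Y) (C.xz (sh i k) Y₂)) ∪
        (seg Y Y₂ (C.xz i Y) (C.xz i Y₂) ∪ seg Y Y₂ (C.xz (i + 1) Y) (C.xz i Y₂))) := by
    rw [hpts, hp.pts_adv hY]
    congr 1
    ext p
    simp only [Set.mem_union, Set.mem_iUnion, Set.mem_Iio, exists_prop]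
    constructor
    · rintro ⟨k, hk, hk2⟩
      rcases tri' (n := m) (k := k) (by omega) him with rfl | rfl | ⟨k', hk', rfl⟩
      · exact Or.inr (Or.inl hk2)
      · rw [hxz] at hk2
        exact Or.inr (Or.inr hk2)
      · exact Or.inl ⟨k', hk', hk2⟩
    · rintro (⟨k, hk, hk2⟩ | hk2 | hk2)
      · exact ⟨sh i k, by rw [hm]; exact sh_lt' hk, hk2⟩
      · exact ⟨i, by omega, hk2⟩
      · exact ⟨i + 1, hi, by rw [hxz]; exact hk2⟩
  have hM := h.morse
  rw [hm] at hM
  rw [hset, hDn]
  refine Morse.cap hM i (C.xz i Y₂) Y₂ (fun k => (C.capc i Y₂).xz k Y₂) hY ?_ him (fun k hk => ?_)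
    (fun k h1 h2 => ?_)
  · have := (sortedAt_iff _ _).1 hs
    rwa [hDn] at this
  · show C.X (sh i k) Y₂ < C.X i Y₂
    refine hl _ ?_
    unfold sh
    rw [if_pos hk]
    exact hk
  · show C.X i Y₂ < C.X (sh i k) Y₂
    have : sh i k = k + 2 := by
      unfold sh
      rw [if_neg (by omega)]
    rw [this]
    exact hr _ (by omega) (by omega)

end Pool.Agent.SN22.Cfg
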