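import Pool.Agent.SN22.Bend
import Pool.Agent.SN22.Cap

/-! SN22 module BCAP (MP_1888e6_gt): the piece `cap i` from a standard state. -/

set_option autoImplicit false

namespace Pool.Agent.SN22.Cfg

private theorem sh_ne (i j : ℕ) : sh i j ≠ i ∧ sh i j ≠ i + 1 := by
  unfold sh
  split_ifs <;> omega

private theorem sh_lt_sh (i : ℕ) {j k : ℕ} (h : j < k) : sh i j < sh i k := by
  unfold sh
  split_ifs <;> omega

private theorem sh_lt (i : ℕ) {k n : ℕ} (hi : i + 1 < n) (h : k < n - 2) : sh i k < n := by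
  unfold sh
  split_ifs <;> omega

/-- Proof. Bend the strand `i + 1` at the level `Y` (`Inv.bend`, `h.lo_lt`) into the line `l'` through its point of
level `Y` and through the point of level `Y + 1` of the strand `i`: `l' = thr Y (C.X (i+1) Y) (C.Z (i+1) Y) b' d'`
with `b' = C.X i (Y+1) - C.X (i+1) Y`, `d' = C.Z i (Y+1) - C.Z (i+1) Y`. Let `C₁ = C.bend (i+1) Y l'`. At level
`Y + 1` the strands `i`, `i + 1` of `C₁` meet; the other ones are those of `C`, sorted (increasing slopes), and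
`C₁.X i (Y+1) = C.X i (Y+1) < C.X (i+1) (Y+1) < C.X k (Y+1)` for `k > i + 1`. `Inv.cap` gives
`C₂ = C₁.capc i (Y+1)` at level `Y + 1`; its slopes are increasing (they are slopes of strands `≠ i, i+1` of `C`).
Then `Inv.idle` up to the level `Y' = Y + 2` (increasing slopes, so still sorted), so that `hi < Y'` for all closed
arcs. `C₂.A = C.A + 1`, `C₂.n = C.n - 2`. -/
theorem block_cap {C : Cfg} {w : List Ev} {Y : ℝ} (h : C.Std w Y) {i : ℕ} (hi : i + 1 < C.n) :
    ∃ (C' : Cfg) (Y' : ℝ), C'.Std (w ++ (Piece.cap i).word) Y' ∧ C'.n = C.n - 2 ∧ C'.A = C.A + 1 := by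
  have hr : ∀ k < C.n, C.r k < C.A := h.inv.pre.r_lt
  have hsort : ∀ t : ℝ, 0 ≤ t → ∀ j k, j < k → k < C.n → C.X j (Y + t) < C.X k (Y + t) := by
    intro t ht j k hjk hk
    have h1 := h.inv.sorted j k hjk hk
    have h2 := mul_le_mul_of_nonneg_right (h.slopes j k hjk hk).le ht
    rw [X_eq, X_eq] at h1 ⊢
    linarith
  obtain ⟨l', hl'⟩ : ∃ l', l' = thr Y (C.X (i + 1) Y) (C.Z (i + 1) Y) (C.X i (Y + 1) - C.X (i + 1) Y)
    (C.Z i (Y + 1) - C.Z (i + 1) Y) := ⟨_, rfl⟩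
  have hb : (C.bend (i + 1) Y l').Inv w Y := h.inv.bend hi (h.lo_lt _ (hr _ hi)) l'
    (by rw [hl', thr_X]; ring) (by rw [hl', thr_Z]; ring)
  have hX1 : (C.bend (i + 1) Y l').X (i + 1) (Y + 1) = C.X i (Y + 1) := by
    rw [bend_X_self, hl', thr_X]; ring
  have hZ1 : (C.bend (i + 1) Y l').Z (i + 1) (Y + 1) = C.Z i (Y + 1) := by
    rw [bend_Z_self, hl', thr_Z]; ring
  have hX : ∀ j < C.n, j ≠ i + 1 → ∀ y, (C.bend (i + 1) Y l').X j y = C.X j y :=
    fun j hj hne y => bend_X C (i + 1) Y l' hne (hr j hj) y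
  have hXi := hX i (by omega) (by omega) (Y + 1)
  have hZi : (C.bend (i + 1) Y l').Z i (Y + 1) = C.Z i (Y + 1) :=
    bend_Z C (i + 1) Y l' (by omega) (hr i (by omega)) (Y + 1)
  have hcs : ∀ t : ℝ, 0 ≤ t → ((C.bend (i + 1) Y l').capc i (Y + 1)).SortedAt (Y + t) := by
    intro t ht j k hjk hk
    rw [capc_n, bend_n] at hk
    have h1 := sh_lt i hi hk
    have h2 := sh_lt_sh i hjk
    rw [capc_X, capc_X, hX _ (by omega) (sh_ne i j).2, hX _ h1 (sh_ne i k).2]
    exact hsort t ht _ _ h2 h1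
  have hc : ((C.bend (i + 1) Y l').capc i (Y + 1)).Inv (w ++ [Ev.cap i]) (Y + 1) := by
    refine hb.cap (by simpa using hi) (by linarith) ?_ ?_ ?_ ?_ (hcs 1 zero_le_one)
    · rw [hXi, hX1]
    · rw [hZi, hZ1]
    · intro k hk
      rw [hXi, hX k (by omega) (by omega)]
      exact hsort 1 zero_le_one _ _ hk (by omega)
    · intro k hk hkn
      rw [bend_n] at hkn
      rw [hXi, hX k hkn (by omega)]
      exact hsort 1 zero_le_one _ _ (by omega) hkn
  have hd : ((C.bend (i + 1) Y l').capc i (Y + 1)).Inv (w ++ [Ev.cap i]) (Y + 2) :=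
    hc.idle (by linarith) (hcs 2 zero_le_two)
  refine ⟨(C.bend (i + 1) Y l').capc i (Y + 1), Y + 2, ⟨hd, ?_, ?_, ?_⟩, rfl, rfl⟩
  · intro j hj
    have := hc.pre.lo_le j hj
    linarith
  · intro j hj t ht
    have := (hc.pre.hi_le j hj t ht).2
    linarith
  · intro j k hjk hk
    rw [capc_n, bend_n] at hk
    have h1 := sh_lt i hi hk
    have h2 := sh_lt_sh i hjk
    rw [capc_b, capc_b, bend_b C (i + 1) Y l' (sh_ne i j).2 (hr _ (by omega)),
      bend_b C (i + 1) Y l' (sh_ne i k).2 (hr _ h1)]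
    exact h.slopes _ _ h2 h1

end Pool.Agent.SN22.Cfg
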