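import Pool.Agent.SN22.Cup

/-! SN22 module BCUP (MP_1888e6_gt): the piece `cup i` from a standard state. -/

set_option autoImplicit false

namespace Pool.Agent.SN22.Cfg

/-- Proof. `gap` for the slopes (`f k = C.b k`, `q = i`) gives `u < v` between the slopes of the strands `i - 1` and
`i`; `gap` for the `x`-coordinates (`f k = C.X k Y`, `q = i`, sorted by `h.inv.sorted`) gives an `x₀` strictly between
those of the strands `i - 1` and `i`. Take `l1 = thr Y x₀ 0 u 0`, `l2 = thr Y x₀ 0 v 0`, `C' = C.cupc i Y l1 l2`,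
`Y' = Y + 1`. At the level `Y'` the strands of `C'` are strictly sorted: at level `Y` they are weakly sorted and the
slopes are strictly increasing (`X (Y + 1) = X Y + b`). `Inv.cup` (its `hf` is `h.hi_lt`). The rest of `Std`:
`lo` of the new arcs is `Y < Y'`. Facts on `cupc` in `Cfg.lean` (`cupc_X_lt`, `cupc_b_gt` ...; `C.r k < C.A` is
`h.inv.pre.r_lt`). -/
theorem block_cup {C : Cfg} {w : List Ev} {Y : ℝ} (h : C.Std w Y) {i : ℕ} (hi : i ≤ C.n) :
    ∃ (C' : Cfg) (Y' : ℝ), C'.Std (w ++ (Piece.cup i).word) Y' ∧ C'.n = C.n + 2 ∧ C'.A = C.A + 2 := by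
  obtain ⟨u, v, huv, hu, hv⟩ := gap (n := C.n) (fun k => C.b k) (fun j k hjk hk => h.slopes j k hjk hk) i
  obtain ⟨x1, x2, hx12, hx1, hx2⟩ := gap (n := C.n) (fun k => C.X k Y) (fun j k hjk hk => h.inv.sorted j k hjk hk) i
  obtain ⟨x₀, hx₀⟩ : ∃ x₀ : ℝ, x₀ = (x1 + x2) / 2 := ⟨_, rfl⟩
  obtain ⟨l1, hl1⟩ : ∃ l1 : Ln, l1 = thr Y x₀ 0 u 0 := ⟨_, rfl⟩
  obtain ⟨l2, hl2⟩ : ∃ l2 : Ln, l2 = thr Y x₀ 0 v 0 := ⟨_, rfl⟩
  have hX1 : l1.X Y = x₀ := by rw [hl1, thr_X]; ring
  have hX2 : l2.X Y = x₀ := by rw [hl2, thr_X]; ring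
  have hb1 : l1.b = u := by rw [hl1, thr_b]
  have hb2 : l2.b = v := by rw [hl2, thr_b]
  have hZ : l1.Z Y = l2.Z Y := by rw [hl1, hl2, thr_Z, thr_Z]
  obtain ⟨C', hC'⟩ : ∃ C' : Cfg, C' = C.cupc i Y l1 l2 := ⟨_, rfl⟩
  have hr : ∀ k, k < C.n → C.r k < C.A := h.inv.pre.r_lt
  -- the strands of the new configuration at level `Y`, and their slopes
  have hb : ∀ j k, j < k → k < C.n + 2 → C'.b j < C'.b k ∧ C'.X j Y ≤ C'.X k Y := by
    have a1 : ∀ k, k < i → C'.b k = C.b k ∧ C'.X k Y = C.X k Y := fun k hk => by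
      rw [hC']
      exact ⟨cupc_b_lt C i Y l1 l2 hk (hr k (by omega)), cupc_X_lt C i Y l1 l2 hk (hr k (by omega)) Y⟩
    have a2 : C'.b i = u ∧ C'.X i Y = x₀ := by
      rw [hC', cupc_b_i, cupc_X_i, hb1, hX1]
      exact ⟨rfl, rfl⟩
    have a3 : C'.b (i + 1) = v ∧ C'.X (i + 1) Y = x₀ := by
      rw [hC', cupc_b_i1, cupc_X_i1, hb2, hX2]
      exact ⟨rfl, rfl⟩
    have a4 : ∀ k, i + 1 < k → k < C.n + 2 → C'.b k = C.b (k - 2) ∧ C'.X k Y = C.X (k - 2) Y := fun k hk hk' => by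
      rw [hC']
      exact ⟨cupc_b_gt C i Y l1 l2 hk (hr _ (by omega)), cupc_X_gt C i Y l1 l2 hk (hr _ (by omega)) Y⟩
    have c1 : ∀ k, k < i → C.b k < u ∧ C.X k Y < x₀ := fun k hk => by
      have e1 := hu k hk (by omega)
      have e2 := hx1 k hk (by omega)
      exact ⟨e1, by rw [hx₀]; linarith⟩
    have c2 : ∀ k, i ≤ k → k < C.n → v < C.b k ∧ x₀ < C.X k Y := fun k hk hk' => by
      have e1 := hv k hk hk'
      have e2 := hx2 k hk hk'
      exact ⟨e1, by rw [hx₀]; linarith⟩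
    have c3 : ∀ j k, j < k → k < C.n → C.b j < C.b k ∧ C.X j Y < C.X k Y := fun j k hjk hk =>
      ⟨h.slopes j k hjk hk, h.inv.sorted j k hjk hk⟩
    intro j k hjk hk
    rcases lt_trichotomy j i with hj | hj | hj
    · rw [(a1 j hj).1, (a1 j hj).2]
      have d1 := c1 j hj
      rcases lt_trichotomy k i with hk1 | hk1 | hk1
      · rw [(a1 k hk1).1, (a1 k hk1).2]
        have d2 := c3 j k hjk (by omega)
        exact ⟨d2.1, d2.2.le⟩
      · rw [hk1, a2.1, a2.2]
        exact ⟨d1.1, d1.2.le⟩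
      · rcases eq_or_ne k (i + 1) with hk2 | hk2
        · rw [hk2, a3.1, a3.2]
          exact ⟨d1.1.trans huv, d1.2.le⟩
        · rw [(a4 k (by omega) hk).1, (a4 k (by omega) hk).2]
          have d2 := c2 (k - 2) (by omega) (by omega)
          exact ⟨by linarith [d1.1, d2.1], by linarith [d1.2, d2.2]⟩
    · rw [hj, a2.1, a2.2]
      rcases eq_or_ne k (i + 1) with hk2 | hk2
      · rw [hk2, a3.1, a3.2]
        exact ⟨huv, le_rfl⟩
      · rw [(a4 k (by omega) hk).1, (a4 k (by omega) hk).2]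
        have d2 := c2 (k - 2) (by omega) (by omega)
        exact ⟨by linarith [d2.1], by linarith [d2.2]⟩
    · rcases eq_or_ne j (i + 1) with hj2 | hj2
      · rw [hj2, a3.1, a3.2, (a4 k (by omega) hk).1, (a4 k (by omega) hk).2]
        have d2 := c2 (k - 2) (by omega) (by omega)
        exact ⟨d2.1, d2.2.le⟩
      · rw [(a4 k (by omega) hk).1, (a4 k (by omega) hk).2, (a4 j (by omega) (by omega)).1,
          (a4 j (by omega) (by omega)).2]
        have d2 := c3 (j - 2) (k - 2) (by omega) (by omega)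
        exact ⟨d2.1, d2.2.le⟩
  have hC'n : C'.n = C.n + 2 := by rw [hC', cupc_n]
  have hs : C'.SortedAt (Y + 1) := by
    intro j k hjk hk
    rw [hC'n] at hk
    have e := hb j k hjk hk
    have f : ∀ m, C'.X m (Y + 1) = C'.X m Y + C'.b m := fun m => by
      rw [X_eq, X_eq]; ring
    rw [f, f]
    linarith [e.1, e.2]
  refine ⟨C', Y + 1, ⟨?_, ?_, ?_, ?_⟩, hC'n, by rw [hC', cupc_A]⟩
  · rw [hC'] at hs ⊢
    refine Inv.cup h.inv h.hi_lt hi l1 l2 (by rw [hX1, hX2]) hZ ?_ ?_ (by linarith) hs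
    · intro k hk
      have e2 := hx1 k hk (by omega)
      rw [hX1, hx₀]; linarith
    · intro k hk hk'
      have e2 := hx2 k hk hk'
      rw [hX1, hx₀]; linarith
  · intro j hj
    rw [hC'] at hj ⊢
    rw [cupc_A] at hj
    rcases lt_or_ge j C.A with hj1 | hj1
    · rw [cupc_lo C i Y l1 l2 hj1]
      linarith [h.lo_lt j hj1]
    · rcases eq_or_ne j C.A with hj2 | hj2
      · rw [hj2, cupc_lo_A]; linarith
      · have hj3 : j = C.A + 1 := by omega
        rw [hj3, cupc_lo_A1]; linarith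
  · intro j hj t ht
    rw [hC'] at hj ht
    rw [cupc_A] at hj
    rcases lt_or_ge j C.A with hj1 | hj1
    · rw [cupc_hi C i Y l1 l2 hj1] at ht
      linarith [h.hi_lt j hj1 t ht]
    · rcases eq_or_ne j C.A with hj2 | hj2
      · rw [hj2, cupc_hi_A] at ht
        exact absurd ht (by simp)
      · have hj3 : j = C.A + 1 := by omega
        rw [hj3, cupc_hi_A1] at ht
        exact absurd ht (by simp)
  · intro j k hjk hk
    rw [hC'n] at hk
    exact (hb j k hjk hk).1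

end Pool.Agent.SN22.Cfg
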