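import Pool.Agent.SN22.Cross

/-! SN22 module RUNL (MP_1888e6_gt): a strand runs to the left over (or under) `d` strands. -/

set_option autoImplicit false

namespace Pool.Agent.SN22.Cfg

/-- The strand `q + d` (the runner) runs to the left across the strands `q + d - 1, ..., q`; `o = true`: it passes
under them.

Proof: induction on `d`, generalizing `C w Y`. `d = 0`: take `C' = C`, `Y' = Y` (the slopes increase by `h1`, `h2`,
`h4`). `d + 1`: let `p = q + d + 1` be the runner; it meets the strand `p - 1 = q + d` at the level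
`T = Y + (C.X p Y - C.X (p-1) Y) / (C.b (p-1) - C.b p) > Y`. At level `T` the other pairs are strictly sorted: pairs
without `p` have increasing slopes (`h1`) and are sorted at `Y`; `k > p`: slopes increase (`h2`); `j < p - 1`:
`C.X j T < C.X (p-1) T = C.X p T`. So `Inv.step` (at the position `q + d`) gives `C₁ = C.swp (q + d)` at some level
`Y₁ > T`, whose strand `q + d` is the runner. Apply the induction hypothesis to `C₁`, `d`: the conditions
`h1 ... h5` for `C₁` follow from those for `C` through `swp_b`, `swp_X`, `swp_Z` (`Equiv.swap_apply_left`,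
`Equiv.swap_apply_right`, `Equiv.swap_apply_of_ne_of_ne`). The word: `List.range_succ_eq_map`, and
`d - (j + 1) = d - 1 - j`. -/
theorem run_left (d : ℕ) (o : Bool) (q : ℕ) : ∀ {C : Cfg} {w : List Ev} {Y : ℝ}, C.Inv w Y → q + d < C.n →
    (∀ j k, j < k → k < C.n → j ≠ q + d → k ≠ q + d → C.b j < C.b k) →
    (∀ k, q + d < k → k < C.n → C.b (q + d) < C.b k) →
    (∀ j, q ≤ j → j < q + d → C.b (q + d) < C.b j) →
    (∀ j, j < q → C.b j < C.b (q + d)) →
    (∀ j, q ≤ j → j < q + d → ∀ y, C.X j y = C.X (q + d) y →
      if o = true then C.Z (q + d) y < C.Z j y else C.Z j y < C.Z (q + d) y) →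
    ∃ (C' : Cfg) (Y' : ℝ), C'.Inv (w ++ (List.range d).map fun j => Ev.cross (q + (d - 1 - j)) o) Y' ∧ Y ≤ Y' ∧
      (0 < d → Y < Y') ∧ C'.n = C.n ∧ C'.A = C.A ∧ C'.lo = C.lo ∧ C'.hi = C.hi ∧
      ∀ j k, j < k → k < C.n → C'.b j < C'.b k := by
  induction d with
  | zero =>
    intro C w Y h hn h1 h2 h3 h4 h5
    refine ⟨C, Y, ?_, le_rfl, fun h0 => absurd h0 (lt_irrefl 0), rfl, rfl, rfl, rfl, ?_⟩
    · simpa using h
    · intro j k hjk hk
      by_cases hj : j = q
      · rw [hj]
        exact h2 k (by omega) hk
      · by_cases hk' : k = q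
        · rw [hk']
          exact h4 j (by omega)
        · exact h1 j k hjk hk hj hk'
  | succ d ih =>
    intro C w Y h hn h1 h2 h3 h4 h5
    have hpn : (q + d) + 1 < C.n := by omega
    have hbp : C.b (q + d + 1) < C.b (q + d) := h3 (q + d) (by omega) (by omega)
    have hXY : C.X (q + d) Y < C.X (q + d + 1) Y := h.sorted (q + d) (q + d + 1) (by omega) hpn
    have hbpos : 0 < C.b (q + d) - C.b (q + d + 1) := by linarith
    -- the level of the crossing
    obtain ⟨T, hT, hXT⟩ : ∃ T, Y < T ∧ C.X (q + d) T = C.X (q + d + 1) T := by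
      refine ⟨Y + (C.X (q + d + 1) Y - C.X (q + d) Y) / (C.b (q + d) - C.b (q + d + 1)), ?_, ?_⟩
      · have := div_pos (sub_pos.2 hXY) hbpos
        linarith
      · have e1 := C.X_eq (q + d) (Y + (C.X (q + d + 1) Y - C.X (q + d) Y) /
          (C.b (q + d) - C.b (q + d + 1)))
        have e2 := C.X_eq (q + d + 1) (Y + (C.X (q + d + 1) Y - C.X (q + d) Y) /
          (C.b (q + d) - C.b (q + d + 1)))
        have e3 := C.X_eq (q + d) Y
        have e4 := C.X_eq (q + d + 1) Y
        have e5 : (C.b (q + d) - C.b (q + d + 1)) * ((C.X (q + d + 1) Y - C.X (q + d) Y) /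
          (C.b (q + d) - C.b (q + d + 1))) = C.X (q + d + 1) Y - C.X (q + d) Y := by
          field_simp
        rw [e1, e2]
        linear_combination e5 - e3 + e4
    -- the order is kept for pairs with increasing slopes
    have hinc : ∀ j k, C.X j Y < C.X k Y → C.b j < C.b k → C.X j T < C.X k T := by
      intro j k hX hb
      rw [C.X_eq j T, C.X_eq k T]
      rw [C.X_eq j Y, C.X_eq k Y] at hX
      nlinarith
    have hs : ∀ j k, j < k → k < C.n → ¬ (j = q + d ∧ k = q + d + 1) → C.X j T < C.X k T := by
      intro j k hjk hk hne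
      by_cases hj : j = q + d + 1
      · rw [hj]
        rw [hj] at hjk
        exact hinc _ _ (h.sorted _ _ hjk hk) (h2 k hjk hk)
      · by_cases hk' : k = q + d + 1
        · have hj2 : j < q + d := by omega
          rw [hk', ← hXT]
          exact hinc _ _ (h.sorted _ _ hj2 (by omega)) (h1 j (q + d) hj2 (by omega) hj (by omega))
        · exact hinc _ _ (h.sorted _ _ hjk hk) (h1 j k hjk hk hj hk')
    obtain ⟨Y₂, hTY, hInv⟩ := h.step hpn o hT hXT (h5 (q + d) (by omega) (by omega) T hXT) hbp hs
    -- values of the exchanged configuration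
    have hsl : Equiv.swap (q + d) (q + d + 1) (q + d) = q + d + 1 := Equiv.swap_apply_left _ _
    have hsr : Equiv.swap (q + d) (q + d + 1) (q + d + 1) = q + d := Equiv.swap_apply_right _ _
    have hso : ∀ j, j ≠ q + d → j ≠ q + d + 1 → Equiv.swap (q + d) (q + d + 1) j = j :=
      fun j h6 h7 => Equiv.swap_apply_of_ne_of_ne h6 h7
    obtain ⟨C', Y', hC', hY', hY'', hn', hA', hlo', hhi', hb'⟩ := ih hInv (by show q + d < C.n; omega)
      (by
        intro j k hjk hk hj hk'
        change k < C.n at hk
        rw [swp_b, swp_b]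
        by_cases hj2 : j = q + d + 1
        · rw [hj2, hsr, hso k (by omega) (by omega)]
          exact h1 (q + d) k (by omega) hk (by omega) (by omega)
        · rw [hso j hj hj2]
          by_cases hk2 : k = q + d + 1
          · rw [hk2, hsr]
            exact h1 j (q + d) (by omega) (by omega) (by omega) (by omega)
          · rw [hso k hk' hk2]
            exact h1 j k hjk hk (by omega) (by omega))
      (by
        intro k hk hkn
        change k < C.n at hkn
        rw [swp_b, swp_b, hsl]
        by_cases hk2 : k = q + d + 1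
        · rw [hk2, hsr]
          exact hbp
        · rw [hso k (by omega) hk2]
          exact h2 k (by omega) hkn)
      (by
        intro j hj hj2
        rw [swp_b, swp_b, hsl, hso j (by omega) (by omega)]
        exact h3 j hj (by omega))
      (by
        intro j hj
        rw [swp_b, swp_b, hsl, hso j (by omega) (by omega)]
        exact h4 j hj)
      (by
        intro j hj hj2 y
        rw [swp_X, swp_X, swp_Z, swp_Z, hsl, hso j (by omega) (by omega)]
        exact h5 j hj (by omega) y)
    refine ⟨C', Y', ?_, by linarith, fun _ => by linarith, hn', hA', hlo', hhi', hb'⟩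
    have hw : (w ++ [Ev.cross (q + d) o]) ++ ((List.range d).map fun j => Ev.cross (q + (d - 1 - j)) o)
        = w ++ (List.range (d + 1)).map fun j => Ev.cross (q + (d + 1 - 1 - j)) o := by
      rw [List.append_assoc, List.range_succ_eq_map, List.map_cons, List.map_map]
      congr 1
      rw [List.singleton_append]
      congr 1
      apply List.map_congr_left
      intro j _
      show Ev.cross (q + (d - 1 - j)) o = Ev.cross (q + (d + 1 - 1 - (j + 1))) o
      congr 2
      omega
    rw [← hw]
    exact hC'

end Pool.Agent.SN22.Cfg
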