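import Pool.Agent.SN22.Cup
import Pool.Agent.SN22.RunL

/-! SN22 module BCUPL (MP_1888e6_gt): the piece `cupL i k o` from a standard state. -/

set_option autoImplicit false

namespace Pool.Agent.SN22.Cfg

/-- A local minimum is born between the strands `i + k` and `i + k + 1`, its left branch goes directly to the left
across the strands `i + k, ..., i`.

Proof. `gap` for the slopes with `q = i` gives `b'` (between the slopes of `i - 1` and `i`), with `q = i + k + 1` it
gives `b''` (between those of `i + k` and `i + k + 1`); `b' < b''` since `b' < C.b i ≤ C.b (i+k) < b''`. `gap` for the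
`x`-coordinates at level `Y` with `q = i + k + 1` gives `x₀`. `exists_d` (with `F m = C.l (C.r m)`,
`s = Finset.Icc i (i+k)`, `x = x₀`, `z = 0`, `b = b'` and the Boolean `!o`; both factors in its hypothesis are
negative) gives `d'`. Take `l1 = thr Y x₀ 0 b' d'`, `l2 = thr Y x₀ 0 b'' 0`, `C₁ = C.cupc (i+k+1) Y l1 l2`.
`exists_sorted_after` for the lines of the strands of `C₁` at the level `Y` gives a level `Y₁ > Y` where they are
sorted, `Inv.cup` gives `C₁.Inv` at `Y₁`; then `run_left` with `q = i`, `d = k + 1` (the runner is the strand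
`i + k + 1` of `C₁`, the left branch). Facts on `cupc` in `Cfg.lean`. `lo` of the new arcs is `Y < Y₁ ≤ Y'`. -/
theorem block_cupL {C : Cfg} {w : List Ev} {Y : ℝ} (h : C.Std w Y) {i k : ℕ} (o : Bool) (hi : i + k + 1 ≤ C.n) :
    ∃ (C' : Cfg) (Y' : ℝ), C'.Std (w ++ (Piece.cupL i k o).word) Y' ∧ C'.n = C.n + 2 ∧ C'.A = C.A + 2 := by
  obtain ⟨u1, v1, huv1, hu1, hv1⟩ := gap C.b h.slopes i
  obtain ⟨u2, v2, huv2, hu2, hv2⟩ := gap C.b h.slopes (i + k + 1)
  obtain ⟨x₀, x₁, hx01, hx0, hx1⟩ := gap (fun m => C.X m Y) h.inv.sorted (i + k + 1)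
  have hd := exists_d (fun m => C.l (C.r m)) (Finset.Icc i (i + k)) Y x₀ 0 u1 (!o) (by
    intro m hm
    rw [Finset.mem_Icc] at hm
    have a1 : C.X m Y < x₀ := hx0 m (by omega) (by omega)
    have a2 : v1 < C.b m := hv1 m hm.1 (by omega)
    have a3 : (C.l (C.r m)).X Y - x₀ < 0 := by
      have a4 : (C.l (C.r m)).X Y < x₀ := a1
      linarith
    have a5 : u1 - (C.l (C.r m)).b < 0 := by
      have a6 : v1 < (C.l (C.r m)).b := a2
      linarith
    exact mul_pos_of_neg_of_neg a3 a5)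
  obtain ⟨d', hd'⟩ := hd
  obtain ⟨l1, hl1⟩ : ∃ l1, l1 = thr Y x₀ 0 u1 d' := ⟨_, rfl⟩
  obtain ⟨l2, hl2⟩ : ∃ l2, l2 = thr Y x₀ 0 u2 0 := ⟨_, rfl⟩
  obtain ⟨q, hq⟩ : ∃ q, q = i + k + 1 := ⟨_, rfl⟩
  have hl1X : l1.X Y = x₀ := by rw [hl1, thr_X]; ring
  have hl2X : l2.X Y = x₀ := by rw [hl2, thr_X]; ring
  have hl1Z : l1.Z Y = 0 := by rw [hl1, thr_Z]; ring
  have hl2Z : l2.Z Y = 0 := by rw [hl2, thr_Z]; ring
  have hl1b : l1.b = u1 := by rw [hl1, thr_b]
  have hl2b : l2.b = u2 := by rw [hl2, thr_b]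
  have hu12 : u1 < u2 := by
    have a1 := hv1 i le_rfl (by omega)
    have a2 := hu2 i (by omega) (by omega)
    linarith
  have r_lt := h.inv.pre.r_lt
  have hb_lt : ∀ m, m < q → (C.cupc q Y l1 l2).b m = C.b m := fun m hm =>
    C.cupc_b_lt q Y l1 l2 hm (r_lt m (by omega))
  have hb_q : (C.cupc q Y l1 l2).b q = u1 := by rw [C.cupc_b_i, hl1b]
  have hb_q1 : (C.cupc q Y l1 l2).b (q + 1) = u2 := by rw [C.cupc_b_i1, hl2b]
  have hb_gt : ∀ m, q + 1 < m → m < C.n + 2 → (C.cupc q Y l1 l2).b m = C.b (m - 2) := fun m hm hm2 =>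
    C.cupc_b_gt q Y l1 l2 hm (r_lt (m - 2) (by omega))
  have hX_lt : ∀ m, m < q → ∀ y, (C.cupc q Y l1 l2).X m y = C.X m y := fun m hm y =>
    C.cupc_X_lt q Y l1 l2 hm (r_lt m (by omega)) y
  have hX_gt : ∀ m, q + 1 < m → m < C.n + 2 → ∀ y, (C.cupc q Y l1 l2).X m y = C.X (m - 2) y :=
    fun m hm hm2 y => C.cupc_X_gt q Y l1 l2 hm (r_lt (m - 2) (by omega)) y
  have hX_q : (C.cupc q Y l1 l2).X q Y = x₀ := by rw [C.cupc_X_i, hl1X]
  have hX_q1 : (C.cupc q Y l1 l2).X (q + 1) Y = x₀ := by rw [C.cupc_X_i1, hl2X]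
  have hcases : ∀ m : ℕ, m < q ∨ m = q ∨ m = q + 1 ∨ q + 1 < m := fun m => by omega
  have hx0' : ∀ m, m < q → C.X m Y < x₀ := fun m hm => hx0 m (by omega) (by omega)
  have hx1' : ∀ m, q ≤ m → m < C.n → x₀ < C.X m Y := fun m hm hm2 =>
    lt_trans hx01 (hx1 m (by omega) hm2)
  -- sorted after the level `Y`
  obtain ⟨Y₁, hY1, -, hY1s⟩ := exists_sorted_after (n := C.n + 2)
    (fun m => (C.cupc q Y l1 l2).l ((C.cupc q Y l1 l2).r m)) Y (Y + 1) (by linarith) (by
    intro j m hjm hm
    change (C.cupc q Y l1 l2).X j Y < (C.cupc q Y l1 l2).X m Y ∨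
      ((C.cupc q Y l1 l2).X j Y = (C.cupc q Y l1 l2).X m Y ∧
        (C.cupc q Y l1 l2).b j < (C.cupc q Y l1 l2).b m)
    rcases hcases j with hj | rfl | rfl | hj
    · left
      rw [hX_lt j hj]
      rcases hcases m with hm' | rfl | rfl | hm'
      · rw [hX_lt m hm']
        exact h.inv.sorted j m hjm (by omega)
      · rw [hX_q]
        exact hx0' j hj
      · rw [hX_q1]
        exact hx0' j hj
      · rw [hX_gt m hm' hm]
        exact h.inv.sorted j (m - 2) (by omega) (by omega)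
    · rcases hcases m with hm' | hm' | rfl | hm'
      · omega
      · omega
      · right
        rw [hX_q, hX_q1, hb_q, hb_q1]
        exact ⟨rfl, hu12⟩
      · left
        rw [hX_q, hX_gt m hm' hm]
        exact hx1' (m - 2) (by omega) (by omega)
    · left
      rw [hX_q1, hX_gt m (by omega) hm]
      exact hx1' (m - 2) (by omega) (by omega)
    · left
      rw [hX_gt j hj (by omega), hX_gt m (by omega) hm]
      exact h.inv.sorted (j - 2) (m - 2) (by omega) (by omega))
  have hinv1 : (C.cupc q Y l1 l2).Inv (w ++ [Ev.cup q]) Y₁ :=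
    Inv.cup h.inv h.hi_lt (i := q) (by omega) l1 l2 (by rw [hl1X, hl2X]) (by rw [hl1Z, hl2Z])
      (fun m hm => by rw [hl1X]; exact hx0' m hm)
      (fun m hm hm2 => by rw [hl1X]; exact hx1' m hm hm2) hY1 hY1s
  have hrun := run_left (k + 1) o i hinv1 (by rw [cupc_n]; omega)
  have hqe : i + (k + 1) = q := by omega
  rw [hqe] at hrun
  obtain ⟨C', Y', hI, hYY, -, hn, hA, hlo, hhi, hsl⟩ := hrun
    (by
      intro j m hjm hm hj hmq
      rw [cupc_n] at hm
      rcases hcases j with hj' | hj' | rfl | hj'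
      · rw [hb_lt j hj']
        rcases hcases m with hm' | hm' | rfl | hm'
        · rw [hb_lt m hm']
          exact h.slopes j m hjm (by omega)
        · exact absurd hm' hmq
        · rw [hb_q1]
          exact hu2 j (by omega) (by omega)
        · rw [hb_gt m hm' hm]
          exact h.slopes j (m - 2) (by omega) (by omega)
      · exact absurd hj' hj
      · rw [hb_q1, hb_gt m (by omega) hm]
        exact lt_trans huv2 (hv2 (m - 2) (by omega) (by omega))
      · rw [hb_gt j hj' (by omega), hb_gt m (by omega) hm]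
        exact h.slopes (j - 2) (m - 2) (by omega) (by omega))
    (by
      intro m hm hm2
      rw [cupc_n] at hm2
      rw [hb_q]
      rcases hcases m with hm' | hm' | rfl | hm'
      · omega
      · omega
      · rw [hb_q1]
        exact hu12
      · rw [hb_gt m hm' hm2]
        exact lt_trans huv1 (hv1 (m - 2) (by omega) (by omega)))
    (by
      intro j hj1 hj2
      rw [hb_q, hb_lt j hj2]
      exact lt_trans huv1 (hv1 j hj1 (by omega)))
    (by
      intro j hj
      rw [hb_q, hb_lt j (by omega)]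
      exact hu1 j hj (by omega))
    (by
      intro j hj1 hj2 y hy
      have e1 : (C.cupc q Y l1 l2).X j y = (C.l (C.r j)).X y := hX_lt j hj2 y
      have e2 : (C.cupc q Y l1 l2).X q y = (thr Y x₀ 0 u1 d').X y := by rw [C.cupc_X_i, hl1]
      have e3 : (C.cupc q Y l1 l2).Z j y = (C.l (C.r j)).Z y :=
        C.cupc_Z_lt q Y l1 l2 hj2 (r_lt j (by omega)) y
      have e4 : (C.cupc q Y l1 l2).Z q y = (thr Y x₀ 0 u1 d').Z y := by rw [C.cupc_Z_i, hl1]
      rw [e3, e4]
      rw [e1, e2] at hy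
      have e5 := hd' j (Finset.mem_Icc.2 ⟨hj1, by omega⟩) y hy.symm
      cases o <;> simpa using e5)
  refine ⟨C', Y', ⟨?_, ?_, ?_, ?_⟩, ?_, ?_⟩
  · have e : w ++ (Piece.cupL i k o).word =
        (w ++ [Ev.cup q]) ++ (List.range (k + 1)).map fun j => Ev.cross (i + (k + 1 - 1 - j)) o := by
      rw [List.append_assoc, hq]
      rfl
    rw [e]
    exact hI
  · intro a ha
    rw [hA, cupc_A] at ha
    rw [hlo]
    rcases lt_or_ge a C.A with ha' | ha'
    · rw [C.cupc_lo q Y l1 l2 ha']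
      linarith [h.lo_lt a ha']
    · have ha2 : a = C.A ∨ a = C.A + 1 := by omega
      rcases ha2 with rfl | rfl
      · rw [cupc_lo_A]
        linarith
      · rw [cupc_lo_A1]
        linarith
  · intro a ha t ht
    rw [hA, cupc_A] at ha
    rw [hhi] at ht
    rcases lt_or_ge a C.A with ha' | ha'
    · rw [C.cupc_hi q Y l1 l2 ha'] at ht
      linarith [h.hi_lt a ha' t ht]
    · have ha2 : a = C.A ∨ a = C.A + 1 := by omega
      rcases ha2 with rfl | rfl
      · rw [cupc_hi_A] at ht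
        exact absurd ht (by simp)
      · rw [cupc_hi_A1] at ht
        exact absurd ht (by simp)
  · intro j m hjm hm
    rw [hn] at hm
    exact hsl j m hjm hm
  · rw [hn, cupc_n]
  · rw [hA, cupc_A]

end Pool.Agent.SN22.Cfg
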