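import Pool.Agent.SN22.Cross

/-! SN22 module RUNR (MP_1888e6_gt): a strand runs to the right over (or under) `d` strands. -/

set_option autoImplicit false

namespace Pool.Agent.SN22.Cfg

/-- The strand `p` (the runner) runs to the right across the strands `p + 1, ..., p + d`.

Proof: induction on `d`, generalizing `C w Y p`. `d = 0`: take `C' = C`, `Y' = Y` (the slopes increase by `h1`, `h2`,
`h4`). `d + 1`: the runner meets the strand `p + 1` at the level
`T = Y + (C.X (p+1) Y - C.X p Y) / (C.b p - C.b (p+1)) > Y`. At level `T` the other pairs are strictly sorted: pairs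
without `p` have increasing slopes (`h1`) and are sorted at `Y`; `j < p`: slopes increase (`h2`); `k > p + 1`:
`C.X p T = C.X (p+1) T < C.X k T`. So `Inv.step` gives `C₁ = C.swp p` at some level `Y₁ > T`, whose strand `p + 1` is
the runner. Apply the induction hypothesis to `C₁`, `p + 1`, `d`: the conditions `h1 ... h5` for `C₁` follow from
those for `C` through `swp_b`, `swp_X`, `swp_Z` (`Equiv.swap_apply_left`, `Equiv.swap_apply_right`,
`Equiv.swap_apply_of_ne_of_ne`). The word: `List.range_succ_eq_map`, `p + (j + 1) = (p + 1) + j`. -/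
theorem run_right (d : ℕ) (o : Bool) : ∀ {C : Cfg} {w : List Ev} {Y : ℝ} (p : ℕ), C.Inv w Y → p + d < C.n →
    (∀ j k, j < k → k < C.n → j ≠ p → k ≠ p → C.b j < C.b k) →
    (∀ j, j < p → C.b j < C.b p) →
    (∀ k, p < k → k ≤ p + d → C.b k < C.b p) →
    (∀ k, p + d < k → k < C.n → C.b p < C.b k) →
    (∀ k, p < k → k ≤ p + d → ∀ y, C.X p y = C.X k y →
      if o = true then C.Z k y < C.Z p y else C.Z p y < C.Z k y) →
    ∃ (C' : Cfg) (Y' : ℝ), C'.Inv (w ++ (List.range d).map fun j => Ev.cross (p + j) o) Y' ∧ Y ≤ Y' ∧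
      (0 < d → Y < Y') ∧ C'.n = C.n ∧ C'.A = C.A ∧ C'.lo = C.lo ∧ C'.hi = C.hi ∧
      ∀ j k, j < k → k < C.n → C'.b j < C'.b k := by
  induction d with
  | zero =>
    intro C w Y p h hp h1 h2 h3 h4 h5
    refine ⟨C, Y, by simpa using h, le_refl Y, fun hd => absurd hd (lt_irrefl 0), rfl, rfl, rfl, rfl, ?_⟩
    intro j k hjk hk
    by_cases hkp : k = p
    · subst hkp
      exact h2 j hjk
    · by_cases hjp : j = p
      · subst hjp
        exact h4 k (by omega) hk
      · exact h1 j k hjk hk hjp hkp
  | succ d ih =>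
    intro C w Y p h hp h1 h2 h3 h4 h5
    have hlt : C.b (p + 1) < C.b p := h3 (p + 1) (by omega) (by omega)
    have hs : C.X p Y < C.X (p + 1) Y := h.sorted p (p + 1) (by omega) (by omega)
    have hlin : ∀ k y, C.X k y = C.X k Y + C.b k * (y - Y) := by
      intro k y
      rw [X_eq, X_eq]
      ring
    have hden : 0 < C.b p - C.b (p + 1) := by linarith
    set T := Y + (C.X (p + 1) Y - C.X p Y) / (C.b p - C.b (p + 1)) with hTdef
    have hT : Y < T := by
      have : 0 < (C.X (p + 1) Y - C.X p Y) / (C.b p - C.b (p + 1)) := div_pos (by linarith) hden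
      linarith
    have hTY : (C.b p - C.b (p + 1)) * (T - Y) = C.X (p + 1) Y - C.X p Y := by
      rw [hTdef, add_sub_cancel_left, mul_div_cancel₀ _ hden.ne']
    have hX : C.X p T = C.X (p + 1) T := by
      rw [hlin p T, hlin (p + 1) T]
      linarith
    have hkeep : ∀ j k, C.X j Y < C.X k Y → C.b j < C.b k → C.X j T < C.X k T := by
      intro j k ha hb
      rw [hlin j T, hlin k T]
      have : C.b j * (T - Y) < C.b k * (T - Y) := mul_lt_mul_of_pos_right hb (by linarith)
      linarith
    have hsT : ∀ j k, j < k → k < C.n → ¬ (j = p ∧ k = p + 1) → C.X j T < C.X k T := by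
      intro j k hjk hk hne
      have hY := h.sorted j k hjk hk
      by_cases hjp : j = p
      · subst hjp
        have hk1 : j + 1 < k := by
          rcases Nat.lt_or_ge (j + 1) k with h' | h'
          · exact h'
          · exact absurd ⟨rfl, by omega⟩ hne
        rw [hX]
        exact hkeep (j + 1) k (h.sorted (j + 1) k hk1 hk) (h1 (j + 1) k hk1 hk (by omega) (by omega))
      · by_cases hkp : k = p
        · subst hkp
          exact hkeep j k hY (h2 j hjk)
        · exact hkeep j k hY (h1 j k hjk hk hjp hkp)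
    obtain ⟨Y₁, hY₁, hI⟩ := h.step (by omega : p + 1 < C.n) o hT hX (h5 (p + 1) (by omega) (by omega) T hX) hlt hsT
    have e0 : Equiv.swap p (p + 1) p = p + 1 := Equiv.swap_apply_left p (p + 1)
    have e1 : Equiv.swap p (p + 1) (p + 1) = p := Equiv.swap_apply_right p (p + 1)
    have e2 : ∀ k, k ≠ p → k ≠ p + 1 → Equiv.swap p (p + 1) k = k := fun k ha hb =>
      Equiv.swap_apply_of_ne_of_ne ha hb
    have g1 : ∀ j k, j < k → k < (C.swp p).n → j ≠ p + 1 → k ≠ p + 1 → (C.swp p).b j < (C.swp p).b k := by
      intro j k hjk hk hj hk'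
      rw [swp_n] at hk
      rw [swp_b, swp_b]
      by_cases hjp : j = p
      · subst hjp
        rw [e0, e2 k (by omega) hk']
        exact h1 (j + 1) k (by omega) hk (by omega) (by omega)
      · by_cases hkp : k = p
        · subst hkp
          rw [e0, e2 j hjp hj]
          exact h1 j (k + 1) (by omega) (by omega) hjp (by omega)
        · rw [e2 j hjp hj, e2 k hkp hk']
          exact h1 j k hjk hk hjp hkp
    have g2 : ∀ j, j < p + 1 → (C.swp p).b j < (C.swp p).b (p + 1) := by
      intro j hj
      rw [swp_b, swp_b, e1]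
      by_cases hjp : j = p
      · subst hjp
        rw [e0]
        exact hlt
      · rw [e2 j hjp (by omega)]
        exact h2 j (by omega)
    have g3 : ∀ k, p + 1 < k → k ≤ p + 1 + d → (C.swp p).b k < (C.swp p).b (p + 1) := by
      intro k hk hk'
      rw [swp_b, swp_b, e1, e2 k (by omega) (by omega)]
      exact h3 k (by omega) (by omega)
    have g4 : ∀ k, p + 1 + d < k → k < (C.swp p).n → (C.swp p).b (p + 1) < (C.swp p).b k := by
      intro k hk hk'
      rw [swp_n] at hk'
      rw [swp_b, swp_b, e1, e2 k (by omega) (by omega)]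
      exact h4 k (by omega) hk'
    have g5 : ∀ k, p + 1 < k → k ≤ p + 1 + d → ∀ y, (C.swp p).X (p + 1) y = (C.swp p).X k y →
        if o = true then (C.swp p).Z k y < (C.swp p).Z (p + 1) y else (C.swp p).Z (p + 1) y < (C.swp p).Z k y := by
      intro k hk hk' y hy
      rw [swp_X, swp_X, e1, e2 k (by omega) (by omega)] at hy
      rw [swp_Z, swp_Z, e1, e2 k (by omega) (by omega)]
      exact h5 k (by omega) (by omega) y hy
    obtain ⟨C', Y', hI', hY', -, hn, hA, hlo, hhi, hsl⟩ :=
      ih (p + 1) hI (by rw [swp_n]; omega) g1 g2 g3 g4 g5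
    refine ⟨C', Y', ?_, by linarith, fun _ => by linarith, hn, hA, hlo, hhi, hsl⟩
    have hw : w ++ (List.range (d + 1)).map (fun j => Ev.cross (p + j) o) =
        w ++ [Ev.cross p o] ++ (List.range d).map (fun j => Ev.cross (p + 1 + j) o) := by
      rw [List.range_succ_eq_map, List.map_cons, List.map_map, List.append_assoc]
      congr 1
      show Ev.cross (p + 0) o :: _ = Ev.cross p o :: _
      congr 1
      apply List.map_congr_left
      intro j _
      show Ev.cross (p + (j + 1)) o = Ev.cross (p + 1 + j) o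
      congr 1
      omega
    rw [hw]
    exact hI'

end Pool.Agent.SN22.Cfg
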