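import Pool.Agent.SN22.Cup
import Pool.Agent.SN22.RunR

/-! SN22 module BCUPLR (MP_1888e6_gt): the piece `cupLR i o o'` from a standard state. -/

set_option autoImplicit false

namespace Pool.Agent.SN22.Cfg

/-- A local minimum is born between the strands `i` and `i + 1`; its left branch crosses the strand `i`, then its
right branch crosses the (old) strand `i + 1`.

Proof. `gap` for the slopes with `q = i` gives `b'` (between the slopes of `i - 1` and `i`), with `q = i + 2` it
gives `b''` (between those of `i + 1` and `i + 2`). Let `D = C.X (i+1) Y - C.X i Y > 0`,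
`δ = D (C.b i - b') / (2 (b'' - C.b (i+1) + C.b i - b'))`, so `0 < δ < D`, and `x₀ = C.X i Y + δ`. `exists_d` twice
(`s = {i}`, Boolean `!o`, slope `b'`; `s = {i+1}`, Boolean `o'`, slope `b''`) gives `d'`, `d''`. Take
`l1 = thr Y x₀ 0 b' d'`, `l2 = thr Y x₀ 0 b'' d''`, `C₁ = C.cupc (i+1) Y l1 l2`. The line `l1` meets the line of the
old strand `i` at the level `T = Y + δ / (C.b i - b')`. By `exists_sorted_after` (with `ub = T`) there is
`Y < Y₁ < T` with the strands of `C₁` sorted at `Y₁`; `Inv.cup` gives `C₁.Inv` at `Y₁`. At the level `T` all pairs of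
strands of `C₁` except `(i, i+1)` are strictly sorted; the only pair for which this is not a consequence of weak
order at `Y` and increasing slopes is (right branch, old strand `i + 1`) (and its consequences for the pairs (right
branch, old strand `k > i+1`)): `x₀ + b'' τ < C.X (i+1) Y + C.b (i+1) τ` for `τ = T - Y = δ / (C.b i - b')`, i.e.
`δ (b'' - C.b (i+1)) < (D - δ) (C.b i - b')`, true by the choice of `δ`. So `Inv.step` (at the position `i`,
Boolean `o`: the strand `i` of `C₁`, the old strand `i`, goes from left to right) gives `C₂ = C₁.swp i` at some level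
`Y₂ > T`. Then `run_right` with `p = i + 2`, `d = 1`, Boolean `o'` (the strand `i + 2` of `C₂` is the right branch,
the strand `i + 3` the old strand `i + 1`). Slopes of `C₂`: old ones of `0..i-1`, `b'`, `C.b i`, `b''`,
`C.b (i+1)`, .... -/
theorem block_cupLR {C : Cfg} {w : List Ev} {Y : ℝ} (h : C.Std w Y) {i : ℕ} (o o' : Bool) (hi : i + 1 < C.n) :
    ∃ (C' : Cfg) (Y' : ℝ), C'.Std (w ++ (Piece.cupLR i o o').word) Y' ∧ C'.n = C.n + 2 ∧ C'.A = C.A + 2 := by
  obtain ⟨b', v1, hv1, hlow1, hup1'⟩ := gap C.b h.slopes i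
  obtain ⟨b'', v2, hv2, hlow2, hup2'⟩ := gap C.b h.slopes (i + 2)
  have hup1 : ∀ k, i ≤ k → k < C.n → b' < C.b k := fun k h1 h2 => hv1.trans (hup1' k h1 h2)
  have hup2 : ∀ k, i + 2 ≤ k → k < C.n → b'' < C.b k := fun k h1 h2 => hv2.trans (hup2' k h1 h2)
  clear hup1' hup2'
  have hb1 : b' < C.b i := hup1 i le_rfl (by omega)
  have hb2 : C.b (i + 1) < b'' := hlow2 (i + 1) (by omega) hi
  have hb12 : b' < b'' := (hup1 (i + 1) (by omega) hi).trans hb2
  have hD : C.X i Y < C.X (i + 1) Y := h.inv.sorted i (i + 1) (by omega) hi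
  have hrl : ∀ k, k < C.n → C.r k < C.A := h.inv.pre.r_lt
  -- the time of the first crossing
  obtain ⟨τ, hτ, hτ2⟩ : ∃ τ : ℝ, 0 < τ ∧
      τ * (C.b i - b') + τ * (b'' - C.b (i + 1)) < C.X (i + 1) Y - C.X i Y := by
    have hab : 0 < (C.b i - b') + (b'' - C.b (i + 1)) := by linarith
    refine ⟨(C.X (i + 1) Y - C.X i Y) / (2 * ((C.b i - b') + (b'' - C.b (i + 1)))), by
      apply div_pos (by linarith) (by linarith), ?_⟩
    rw [← mul_add, div_mul_eq_mul_div, div_lt_iff₀ (by linarith)]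
    nlinarith [mul_pos (sub_pos.2 hD) hab]
  have hτa : 0 < τ * (C.b i - b') := mul_pos hτ (sub_pos.2 hb1)
  have hτb : 0 < τ * (b'' - C.b (i + 1)) := mul_pos hτ (sub_pos.2 hb2)
  set x₀ : ℝ := C.X i Y + τ * (C.b i - b') with hx₀
  have hx1 : C.X i Y < x₀ := by linarith
  have hx2 : x₀ < C.X (i + 1) Y := by linarith
  have hXs : ∀ j k, j < k → k < C.n → C.X j Y < C.X k Y := h.inv.sorted
  have hxl : ∀ k, k < i + 1 → C.X k Y < x₀ := by
    intro k hk
    rcases Nat.lt_succ_iff_lt_or_eq.1 hk with hk | rfl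
    · exact (hXs k i hk (by omega)).trans hx1
    · exact hx1
  have hxr : ∀ k, i + 1 ≤ k → k < C.n → x₀ < C.X k Y := by
    intro k hk hkn
    rcases Nat.eq_or_lt_of_le hk with rfl | hk
    · exact hx2
    · exact hx2.trans (hXs (i + 1) k hk hkn)
  -- the slopes in the direction of z
  obtain ⟨d', hd'⟩ := exists_d (fun m => C.l (C.r m)) {i} Y x₀ 0 b' (!o) (by
    intro m hm
    rw [Finset.mem_singleton.1 hm]
    exact mul_pos_of_neg_of_neg (sub_neg.2 hx1) (sub_neg.2 hb1))
  obtain ⟨d'', hd''⟩ := exists_d (fun m => C.l (C.r m)) {i + 1} Y x₀ 0 b'' o' (by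
    intro m hm
    rw [Finset.mem_singleton.1 hm]
    exact mul_pos (sub_pos.2 hx2) (sub_pos.2 hb2))
  have hd1 := hd' i (Finset.mem_singleton_self i)
  have hd2 := hd'' (i + 1) (Finset.mem_singleton_self (i + 1))
  clear hd' hd''
  set l1 : Ln := thr Y x₀ 0 b' d' with hl1
  set l2 : Ln := thr Y x₀ 0 b'' d'' with hl2
  have hl1X : ∀ y, l1.X y = x₀ + b' * (y - Y) := fun y => thr_X Y x₀ 0 b' d' y
  have hl2X : ∀ y, l2.X y = x₀ + b'' * (y - Y) := fun y => thr_X Y x₀ 0 b'' d'' y
  have hl1Y : l1.X Y = x₀ := by rw [hl1X]; ring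
  have hl2Y : l2.X Y = x₀ := by rw [hl2X]; ring
  set C₁ : Cfg := C.cupc (i + 1) Y l1 l2 with hC₁
  -- the strands of the new configuration
  have X0 : ∀ k, k < i + 1 → ∀ y, C₁.X k y = C.X k y := fun k hk y =>
    cupc_X_lt C (i + 1) Y l1 l2 hk (hrl k (by omega)) y
  have X1 : ∀ y, C₁.X (i + 1) y = l1.X y := fun y => cupc_X_i C (i + 1) Y l1 l2 y
  have X2 : ∀ y, C₁.X (i + 2) y = l2.X y := fun y => cupc_X_i1 C (i + 1) Y l1 l2 y
  have X3 : ∀ k, i + 1 ≤ k → k < C.n → ∀ y, C₁.X (k + 2) y = C.X k y := fun k hk hkn y => by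
    have := cupc_X_gt C (i + 1) Y l1 l2 (k := k + 2) (by omega) (by simpa using hrl k hkn) y
    simpa using this
  have B0 : ∀ k, k < i + 1 → C₁.b k = C.b k := fun k hk =>
    cupc_b_lt C (i + 1) Y l1 l2 hk (hrl k (by omega))
  have B1 : C₁.b (i + 1) = b' := cupc_b_i C (i + 1) Y l1 l2
  have B2 : C₁.b (i + 2) = b'' := cupc_b_i1 C (i + 1) Y l1 l2
  have B3 : ∀ k, i + 1 ≤ k → k < C.n → C₁.b (k + 2) = C.b k := fun k hk hkn => by
    have := cupc_b_gt C (i + 1) Y l1 l2 (k := k + 2) (by omega) (by simpa using hrl k hkn)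
    simpa using this
  have Z0 : ∀ y, C₁.Z i y = C.Z i y := fun y =>
    cupc_Z_lt C (i + 1) Y l1 l2 (by omega) (hrl i (by omega)) y
  have Z1 : ∀ y, C₁.Z (i + 1) y = l1.Z y := fun y => cupc_Z_i C (i + 1) Y l1 l2 y
  have Z2 : ∀ y, C₁.Z (i + 2) y = l2.Z y := fun y => cupc_Z_i1 C (i + 1) Y l1 l2 y
  have Z3 : ∀ y, C₁.Z (i + 3) y = C.Z (i + 1) y := fun y => by
    have := cupc_Z_gt C (i + 1) Y l1 l2 (k := i + 3) (by omega) (by simpa using hrl (i + 1) hi) y
    simpa using this
  have hcases : ∀ k, k < C.n + 2 → k < i + 1 ∨ k = i + 1 ∨ k = i + 2 ∨ ∃ m, i + 1 ≤ m ∧ m < C.n ∧ k = m + 2 := by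
    intro k hk
    by_cases h1 : k < i + 1
    · exact Or.inl h1
    by_cases h2 : k = i + 1
    · exact Or.inr (Or.inl h2)
    by_cases h3 : k = i + 2
    · exact Or.inr (Or.inr (Or.inl h3))
    · exact Or.inr (Or.inr (Or.inr ⟨k - 2, by omega, by omega, by omega⟩))
  -- order at level Y
  have hsY : ∀ j k, j < k → k < C.n + 2 → (C₁.X j Y < C₁.X k Y) ∨ (C₁.X j Y = C₁.X k Y ∧ C₁.b j < C₁.b k) := by
    intro j k hjk hk
    rcases hcases k hk with hk' | hk' | hk' | ⟨m, hm1, hm2, hk'⟩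
    · left
      rw [X0 k hk', X0 j (by omega)]
      exact hXs j k hjk (by omega)
    · left
      subst hk'
      rw [X1, X0 j hjk, hl1Y]
      exact hxl j hjk
    · subst hk'
      rcases Nat.lt_succ_iff_lt_or_eq.1 hjk with hj | rfl
      · left
        rw [X2, X0 j hj, hl2Y]
        exact hxl j hj
      · right
        rw [X1, X2, hl1Y, hl2Y, B1, B2]
        exact ⟨rfl, hb12⟩
    · left
      subst hk'
      rw [X3 m hm1 hm2]
      rcases hcases j (by omega) with hj | hj | hj | ⟨m', h1, h2, hj⟩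
      · rw [X0 j hj]
        exact hXs j m (by omega) hm2
      · rw [hj, X1, hl1Y]
        exact hxr m hm1 hm2
      · rw [hj, X2, hl2Y]
        exact hxr m hm1 hm2
      · rw [hj, X3 m' h1 h2]
        exact hXs m' m (by omega) hm2
  have hCn : C₁.n = C.n + 2 := rfl
  obtain ⟨Y₁, hY₁, hY₁T, hsort⟩ := exists_sorted_after (n := C₁.n) (fun k => C₁.l (C₁.r k)) Y (Y + τ)
    (by linarith) (fun j k hjk hk => hsY j k hjk hk)
  have inv1 : C₁.Inv (w ++ [Ev.cup (i + 1)]) Y₁ := by
    refine Inv.cup h.inv h.hi_lt (by omega) l1 l2 (hl1Y.trans hl2Y.symm) ?_ ?_ ?_ hY₁ hsort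
    · rw [hl1, hl2, thr_Z, thr_Z]; ring
    · intro k hk
      rw [hl1Y]
      exact hxl k hk
    · intro k hk hkn
      rw [hl1Y]
      exact hxr k hk hkn
  -- order at the level Y + τ
  have hXT : ∀ k, C.X k (Y + τ) = C.X k Y + C.b k * τ := by
    intro k
    rw [X_eq, X_eq]
    ring
  have h1T : l1.X (Y + τ) = x₀ + b' * τ := by rw [hl1X]; ring
  have h2T : l2.X (Y + τ) = x₀ + b'' * τ := by rw [hl2X]; ring
  have hadd : ∀ x x' s s' : ℝ, x < x' → s < s' → x + s * τ < x' + s' * τ := by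
    intro x x' s s' h1 h2
    have := mul_lt_mul_of_pos_right h2 hτ
    linarith
  have hoo : ∀ j k, j < k → k < C.n → C.X j (Y + τ) < C.X k (Y + τ) := by
    intro j k hjk hk
    rw [hXT, hXT]
    exact hadd _ _ _ _ (hXs j k hjk hk) (h.slopes j k hjk hk)
  have hi2 : l2.X (Y + τ) < C.X (i + 1) (Y + τ) := by
    rw [h2T, hXT, hx₀]
    nlinarith [hτ2]
  have heq : C.X i (Y + τ) = l1.X (Y + τ) := by
    rw [h1T, hXT, hx₀]
    ring
  have hsT : ∀ j k, j < k → k < C₁.n → ¬ (j = i ∧ k = i + 1) → C₁.X j (Y + τ) < C₁.X k (Y + τ) := by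
    intro j k hjk hk hne
    rcases hcases k hk with hk' | hk' | hk' | ⟨m, hm1, hm2, hk'⟩
    · rw [X0 k hk', X0 j (by omega)]
      exact hoo j k hjk (by omega)
    · subst hk'
      have hji : j < i := by omega
      rw [X1, X0 j hjk, ← heq]
      exact hoo j i hji (by omega)
    · subst hk'
      rcases Nat.lt_succ_iff_lt_or_eq.1 hjk with hj | rfl
      · rw [X2, X0 j hj, h2T, hXT]
        exact hadd _ _ _ _ (hxl j hj) (hlow2 j (by omega) (by omega))
      · rw [X1, X2, h1T, h2T]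
        have := mul_lt_mul_of_pos_right hb12 hτ
        linarith
    · subst hk'
      rw [X3 m hm1 hm2]
      rcases hcases j (by omega) with hj | hj | hj | ⟨m', h1, h2, hj⟩
      · rw [X0 j hj]
        exact hoo j m (by omega) hm2
      · rw [hj, X1, ← heq]
        exact hoo i m (by omega) hm2
      · rw [hj, X2]
        rcases Nat.eq_or_lt_of_le hm1 with rfl | hm
        · exact hi2
        · exact hi2.trans (hoo (i + 1) m hm hm2)
      · rw [hj, X3 m' h1 h2]
        exact hoo m' m (by omega) hm2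
  obtain ⟨Y₂, hY₂, inv2⟩ := Inv.step inv1 (p := i) (by rw [hCn]; omega) o hY₁T
    (by rw [X0 i (by omega), X1]; exact heq)
    (by
      have h3 := hd1 (Y + τ) heq.symm
      rw [Z0, Z1]
      cases o
      · simpa [Cfg.Z] using h3
      · simpa [Cfg.Z] using h3)
    (by rw [B0 i (by omega), B1]; exact hb1) hsT
  -- the second crossing
  set C₂ : Cfg := C₁.swp i with hC₂
  have sb0 : ∀ k, k < i → C₂.b k = C.b k := by
    intro k hk
    rw [hC₂, swp_b, Equiv.swap_apply_of_ne_of_ne (by omega) (by omega), B0 k (by omega)]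
  have sb1 : C₂.b i = b' := by
    rw [hC₂, swp_b, Equiv.swap_apply_left, B1]
  have sb2 : C₂.b (i + 1) = C.b i := by
    rw [hC₂, swp_b, Equiv.swap_apply_right, B0 i (by omega)]
  have sb3 : C₂.b (i + 2) = b'' := by
    rw [hC₂, swp_b, Equiv.swap_apply_of_ne_of_ne (by omega) (by omega), B2]
  have sb4 : ∀ k, i + 1 ≤ k → k < C.n → C₂.b (k + 2) = C.b k := by
    intro k hk hkn
    rw [hC₂, swp_b, Equiv.swap_apply_of_ne_of_ne (by omega) (by omega), B3 k hk hkn]
  have hcases2 : ∀ k, k < C.n + 2 → k < i ∨ k = i ∨ k = i + 1 ∨ k = i + 2 ∨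
      ∃ m, i + 1 ≤ m ∧ m < C.n ∧ k = m + 2 := by
    intro k hk
    rcases hcases k hk with h1 | h1 | h1 | h1
    · rcases Nat.lt_succ_iff_lt_or_eq.1 h1 with h1 | h1
      · exact Or.inl h1
      · exact Or.inr (Or.inl h1)
    · exact Or.inr (Or.inr (Or.inl h1))
    · exact Or.inr (Or.inr (Or.inr (Or.inl h1)))
    · exact Or.inr (Or.inr (Or.inr (Or.inr h1)))
  have hC2n : C₂.n = C.n + 2 := rfl
  obtain ⟨C', Y', inv', hY', -, hn', hA', hlo', hhi', hsl'⟩ := run_right 1 o' (C := C₂) (Y := Y₂) (i + 2) inv2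
    (by rw [hC2n]; omega)
    (by
      intro j k hjk hk hj hk2
      rw [hC2n] at hk
      rcases hcases2 k hk with hk' | hk' | hk' | hk' | ⟨m, hm1, hm2, hk'⟩
      · rw [sb0 k hk', sb0 j (by omega)]
        exact h.slopes j k hjk (by omega)
      · subst hk'
        rw [sb1, sb0 j hjk]
        exact hlow1 j hjk (by omega)
      · subst hk'
        rcases Nat.lt_succ_iff_lt_or_eq.1 hjk with hj' | rfl
        · rw [sb2, sb0 j hj']
          exact h.slopes j i hj' (by omega)
        · rw [sb1, sb2]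
          exact hb1
      · exact absurd hk' hk2
      · subst hk'
        rw [sb4 m hm1 hm2]
        rcases hcases2 j (by omega) with hj' | hj' | hj' | hj' | ⟨m', h1, h2, hj'⟩
        · rw [sb0 j hj']
          exact h.slopes j m (by omega) hm2
        · rw [hj', sb1]
          exact hup1 m (by omega) hm2
        · rw [hj', sb2]
          exact h.slopes i m (by omega) hm2
        · exact absurd hj' hj
        · rw [hj', sb4 m' h1 h2]
          exact h.slopes m' m (by omega) hm2)
    (by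
      intro j hj
      rw [sb3]
      rcases hcases2 j (by omega) with hj' | hj' | hj' | hj' | ⟨m', h1, h2, hj'⟩
      · rw [sb0 j hj']
        exact hlow2 j (by omega) (by omega)
      · rw [hj', sb1]
        exact hb12
      · rw [hj', sb2]
        exact hlow2 i (by omega) (by omega)
      · omega
      · omega)
    (by
      intro k hk1 hk2
      have hk : k = (i + 1) + 2 := by omega
      rw [hk, sb3, sb4 (i + 1) le_rfl hi]
      exact hb2)
    (by
      intro k hk1 hk2
      rw [hC2n] at hk2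
      obtain ⟨m, rfl⟩ : ∃ m, k = m + 2 := ⟨k - 2, by omega⟩
      rw [sb3, sb4 m (by omega) (by omega)]
      exact hup2 m (by omega) (by omega))
    (by
      intro k hk1 hk2 y hy
      have hk : k = i + 3 := by omega
      subst hk
      rw [hC₂, swp_X, swp_X, Equiv.swap_apply_of_ne_of_ne (by omega) (by omega),
        Equiv.swap_apply_of_ne_of_ne (by omega) (by omega), X2, X3 (i + 1) le_rfl hi] at hy
      rw [hC₂, swp_Z, swp_Z, Equiv.swap_apply_of_ne_of_ne (by omega) (by omega),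
        Equiv.swap_apply_of_ne_of_ne (by omega) (by omega), Z2, Z3]
      exact hd2 y hy)
  have hYY : Y < Y' := by linarith
  refine ⟨C', Y', ⟨?_, ?_, ?_, ?_⟩, by rw [hn']; rfl, by rw [hA']; rfl⟩
  · have hw : w ++ (Piece.cupLR i o o').word =
        ((w ++ [Ev.cup (i + 1)]) ++ [Ev.cross i o]) ++ (List.range 1).map fun j => Ev.cross (i + 2 + j) o' := by
      simp [Piece.word]
    rw [hw]
    exact inv'
  · intro a ha
    rw [hA'] at ha
    have ha' : a < C.A + 2 := ha
    rw [hlo']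
    change C₁.lo a < Y'
    rcases Nat.lt_or_ge a C.A with h1 | h1
    · rw [hC₁, cupc_lo C (i + 1) Y l1 l2 h1]
      exact (h.lo_lt a h1).trans hYY
    · have h2 : a = C.A ∨ a = C.A + 1 := by omega
      rcases h2 with rfl | rfl
      · rw [hC₁, cupc_lo_A]; exact hYY
      · rw [hC₁, cupc_lo_A1]; exact hYY
  · intro a ha t ht
    rw [hA'] at ha
    have ha' : a < C.A + 2 := ha
    rw [hhi'] at ht
    change C₁.hi a = some t at ht
    rcases Nat.lt_or_ge a C.A with h1 | h1
    · rw [hC₁, cupc_hi C (i + 1) Y l1 l2 h1] at ht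
      exact (h.hi_lt a h1 t ht).trans hYY
    · have h2 : a = C.A ∨ a = C.A + 1 := by omega
      rcases h2 with rfl | rfl
      · rw [hC₁, cupc_hi_A] at ht; simp at ht
      · rw [hC₁, cupc_hi_A1] at ht; simp at ht
  · intro j k hjk hk
    rw [hn'] at hk
    exact hsl' j k hjk hk

end Pool.Agent.SN22.Cfg
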