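import Pool.Agent.SN22.Cup
import Pool.Agent.SN22.RunR

/-! SN22 module BCUPR (MP_1888e6_gt): the piece `cupR i k o` from a standard state. -/

set_option autoImplicit false

namespace Pool.Agent.SN22.Cfg

/-- A local minimum is born between the strands `i - 1` and `i`, its right branch (strand `i + 1` of the new
configuration) goes directly to the right across `k + 1` strands (the old strands `i, ..., i + k`).

Proof. `gap` for the slopes with `q = i` gives `b'` (between the slopes of `i - 1` and `i`), with `q = i + k + 1` it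
gives `b''` (between those of `i + k` and `i + k + 1`); `b' < b''` since `b' < C.b i ≤ C.b (i+k) < b''`. `gap` for the
`x`-coordinates at level `Y` with `q = i` gives `x₀`. `exists_d` (with `F m = C.l (C.r m)`,
`s = Finset.Icc i (i+k)`, `x = x₀`, `z = 0`, `b = b''` and the Boolean `o`) gives `d''`. Take
`l1 = thr Y x₀ 0 b' 0`, `l2 = thr Y x₀ 0 b'' d''`, `C₁ = C.cupc i Y l1 l2`. `exists_sorted_after` for the lines of the
strands of `C₁` at the level `Y` gives a level `Y₁ > Y` where they are sorted, `Inv.cup` gives `C₁.Inv` at `Y₁`; then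
`run_right` with `p = i + 1`, `d = k + 1`. Facts on `cupc` in `Cfg.lean`. `lo` of the new arcs is `Y < Y₁ ≤ Y'`. -/
theorem block_cupR {C : Cfg} {w : List Ev} {Y : ℝ} (h : C.Std w Y) {i k : ℕ} (o : Bool) (hi : i + k + 1 ≤ C.n) :
    ∃ (C' : Cfg) (Y' : ℝ), C'.Std (w ++ (Piece.cupR i k o).word) Y' ∧ C'.n = C.n + 2 ∧ C'.A = C.A + 2 := by
  have hrlt := h.inv.pre.r_lt
  obtain ⟨b', v1, hv1, hb1, hb2⟩ := gap (n := C.n) (fun j => C.b j) h.slopes i
  obtain ⟨b'', v2, hv2, hb3, hb4⟩ := gap (n := C.n) (fun j => C.b j) h.slopes (i + k + 1)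
  obtain ⟨x₀, v3, hv3, hx1, hx2⟩ := gap (n := C.n) (fun j => C.X j Y) h.inv.sorted i
  have hb1' : ∀ j, j < i → C.b j < b' := fun j hj => hb1 j hj (by omega)
  have hb2' : ∀ j, i ≤ j → j < C.n → b' < C.b j := fun j hj hj' => lt_trans hv1 (hb2 j hj hj')
  have hb3' : ∀ j, j ≤ i + k → C.b j < b'' := fun j hj => hb3 j (by omega) (by omega)
  have hb4' : ∀ j, i + k + 1 ≤ j → j < C.n → b'' < C.b j := fun j hj hj' => lt_trans hv2 (hb4 j hj hj')
  have hx1' : ∀ j, j < i → C.X j Y < x₀ := fun j hj => hx1 j hj (by omega)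
  have hx2' : ∀ j, i ≤ j → j < C.n → x₀ < C.X j Y := fun j hj hj' => lt_trans hv3 (hx2 j hj hj')
  have hbb : b' < b'' := lt_trans (hb2' i le_rfl (by omega)) (hb3' i (by omega))
  obtain ⟨d'', hd⟩ := exists_d (fun m => C.l (C.r m)) (Finset.Icc i (i + k)) Y x₀ 0 b'' o (by
    intro m hm
    rw [Finset.mem_Icc] at hm
    have e1 : x₀ < C.X m Y := hx2' m hm.1 (by omega)
    have e2 : C.b m < b'' := hb3' m hm.2
    exact mul_pos (sub_pos.2 e1) (sub_pos.2 e2))
  set l1 : Ln := thr Y x₀ 0 b' 0 with hl1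
  set l2 : Ln := thr Y x₀ 0 b'' d'' with hl2
  have hl1X : l1.X Y = x₀ := by rw [hl1, thr_X]; ring
  have hl2X : l2.X Y = x₀ := by rw [hl2, thr_X]; ring
  have hl1Z : l1.Z Y = 0 := by rw [hl1, thr_Z]; ring
  have hl2Z : l2.Z Y = 0 := by rw [hl2, thr_Z]; ring
  have hl1b : l1.b = b' := by rw [hl1, thr_b]
  have hl2b : l2.b = b'' := by rw [hl2, thr_b]
  -- facts on the strands of the new configuration
  have cX1 : ∀ j, j < i → ∀ y, (C.cupc i Y l1 l2).X j y = C.X j y := fun j hj y =>
    cupc_X_lt C i Y l1 l2 hj (hrlt j (by omega)) y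
  have cX2 : ∀ y, (C.cupc i Y l1 l2).X i y = l1.X y := fun y => cupc_X_i C i Y l1 l2 y
  have cX3 : ∀ y, (C.cupc i Y l1 l2).X (i + 1) y = l2.X y := fun y => cupc_X_i1 C i Y l1 l2 y
  have cX4 : ∀ j, i + 1 < j → j < C.n + 2 → ∀ y, (C.cupc i Y l1 l2).X j y = C.X (j - 2) y := fun j hj hj' y =>
    cupc_X_gt C i Y l1 l2 hj (hrlt (j - 2) (by omega)) y
  have cb1 : ∀ j, j < i → (C.cupc i Y l1 l2).b j = C.b j := fun j hj =>
    cupc_b_lt C i Y l1 l2 hj (hrlt j (by omega))
  have cb2 : (C.cupc i Y l1 l2).b i = b' := (cupc_b_i C i Y l1 l2).trans hl1b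
  have cb3 : (C.cupc i Y l1 l2).b (i + 1) = b'' := (cupc_b_i1 C i Y l1 l2).trans hl2b
  have cb4 : ∀ j, i + 1 < j → j < C.n + 2 → (C.cupc i Y l1 l2).b j = C.b (j - 2) := fun j hj hj' =>
    cupc_b_gt C i Y l1 l2 hj (hrlt (j - 2) (by omega))
  -- the order just above the level `Y`
  obtain ⟨Y₁, hY1, -, hs1⟩ := exists_sorted_after (n := C.n + 2) (fun j => (C.cupc i Y l1 l2).l ((C.cupc i Y l1 l2).r j))
    Y (Y + 1) (by linarith) (by
    intro j m hjm hm
    change (C.cupc i Y l1 l2).X j Y < (C.cupc i Y l1 l2).X m Y ∨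
      ((C.cupc i Y l1 l2).X j Y = (C.cupc i Y l1 l2).X m Y ∧ (C.cupc i Y l1 l2).b j < (C.cupc i Y l1 l2).b m)
    rcases Nat.lt_trichotomy j i with hj | hj | hj
    · -- old strand on the left
      rw [cX1 j hj]
      rcases Nat.lt_trichotomy m i with hm1 | hm1 | hm1
      · left
        rw [cX1 m hm1]
        exact h.inv.sorted j m hjm (by omega)
      · left
        rw [hm1, cX2, hl1X]
        exact hx1' j hj
      · rcases Nat.eq_or_lt_of_le (Nat.succ_le_of_lt hm1) with hm2 | hm2
        · left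
          rw [← hm2, Nat.succ_eq_add_one, cX3, hl2X]
          exact hx1' j hj
        · left
          rw [cX4 m hm2 hm]
          exact h.inv.sorted j (m - 2) (by omega) (by omega)
    · rw [hj, cX2, hl1X]
      rcases Nat.eq_or_lt_of_le (Nat.succ_le_of_lt (show i < m by omega)) with hm2 | hm2
      · right
        rw [← hm2, Nat.succ_eq_add_one, cX3, hl2X, cb2, cb3]
        exact ⟨rfl, hbb⟩
      · left
        rw [cX4 m hm2 hm]
        exact hx2' (m - 2) (by omega) (by omega)
    · have hm2 : i + 1 < m := by omega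
      left
      rw [cX4 m hm2 hm]
      rcases Nat.eq_or_lt_of_le (Nat.succ_le_of_lt hj) with hj2 | hj2
      · rw [← hj2, Nat.succ_eq_add_one, cX3, hl2X]
        exact hx2' (m - 2) (by omega) (by omega)
      · rw [cX4 j hj2 (by omega)]
        exact h.inv.sorted (j - 2) (m - 2) (by omega) (by omega))
  have hinv1 : (C.cupc i Y l1 l2).Inv (w ++ [Ev.cup i]) Y₁ := by
    refine Inv.cup h.inv h.hi_lt (by omega) l1 l2 (hl1X.trans hl2X.symm) (hl1Z.trans hl2Z.symm) ?_ ?_ hY1 ?_
    · intro j hj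
      rw [hl1X]
      exact hx1' j hj
    · intro j hj hj'
      rw [hl1X]
      exact hx2' j hj hj'
    · intro j m hjm hm
      exact hs1 j m hjm (by simpa using hm)
  have hn1 : (C.cupc i Y l1 l2).n = C.n + 2 := rfl
  obtain ⟨C', Y', hI, hYY, -, hn, hA, hlo, hhi, hsl⟩ := run_right (k + 1) o (i + 1) hinv1 (by rw [hn1]; omega)
    (by
      intro j m hjm hm hj1 hm1
      rw [hn1] at hm
      rcases Nat.lt_trichotomy j i with hj | hj | hj
      · rw [cb1 j hj]
        rcases Nat.lt_trichotomy m i with hm2 | hm2 | hm2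
        · rw [cb1 m hm2]
          exact h.slopes j m hjm (by omega)
        · rw [hm2, cb2]
          exact hb1' j hj
        · rw [cb4 m (by omega) hm]
          exact h.slopes j (m - 2) (by omega) (by omega)
      · rw [hj, cb2, cb4 m (by omega) hm]
        exact hb2' (m - 2) (by omega) (by omega)
      · rw [cb4 j (by omega) (by omega), cb4 m (by omega) hm]
        exact h.slopes (j - 2) (m - 2) (by omega) (by omega))
    (by
      intro j hj
      rw [cb3]
      rcases Nat.lt_or_ge j i with hj1 | hj1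
      · rw [cb1 j hj1]
        exact lt_trans (hb1' j hj1) hbb
      · have hj2 : j = i := by omega
        rw [hj2, cb2]
        exact hbb)
    (by
      intro m hm hm'
      rw [cb3, cb4 m hm (by omega)]
      exact hb3' (m - 2) (by omega))
    (by
      intro m hm hm'
      rw [hn1] at hm'
      rw [cb3, cb4 m (by omega) hm']
      exact hb4' (m - 2) (by omega) (by omega))
    (by
      intro m hm hm' y hy
      have hr : C.r (m - 2) < C.A := hrlt (m - 2) (by omega)
      rw [cX3, cX4 m hm (by omega)] at hy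
      rw [cupc_Z_i1, cupc_Z_gt C i Y l1 l2 hm hr]
      exact hd (m - 2) (Finset.mem_Icc.2 ⟨by omega, by omega⟩) y hy)
  refine ⟨C', Y', ⟨?_, ?_, ?_, ?_⟩, hn, hA⟩
  · have hw : w ++ (Piece.cupR i k o).word
        = (w ++ [Ev.cup i]) ++ (List.range (k + 1)).map fun j => Ev.cross (i + 1 + j) o := by
      simp [Piece.word, goR]
    rw [hw]
    exact hI
  · intro j hj
    have hA' : C'.A = C.A + 2 := hA
    rw [hA'] at hj
    rw [hlo]
    rcases Nat.lt_or_ge j C.A with hj1 | hj1
    · rw [cupc_lo C i Y l1 l2 hj1]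
      have := h.lo_lt j hj1
      linarith
    · rcases Nat.eq_or_lt_of_le hj1 with hj2 | hj2
      · rw [← hj2, cupc_lo_A]
        linarith
      · have hj3 : j = C.A + 1 := by omega
        rw [hj3, cupc_lo_A1]
        linarith
  · intro j hj t ht
    have hA' : C'.A = C.A + 2 := hA
    rw [hA'] at hj
    rw [hhi] at ht
    rcases Nat.lt_or_ge j C.A with hj1 | hj1
    · rw [cupc_hi C i Y l1 l2 hj1] at ht
      have := h.hi_lt j hj1 t ht
      linarith
    · rcases Nat.eq_or_lt_of_le hj1 with hj2 | hj2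
      · rw [← hj2, cupc_hi_A] at ht
        cases ht
      · have hj3 : j = C.A + 1 := by omega
        rw [hj3, cupc_hi_A1] at ht
        cases ht
  · intro j m hjm hm
    have hn' : C'.n = C.n + 2 := hn
    rw [hn'] at hm
    exact hsl j m hjm (by rw [hn1]; exact hm)

end Pool.Agent.SN22.Cfg
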