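import Pool.Agent.SN22.Bend
import Pool.Agent.SN22.RunL

/-! SN22 module BLEFT (MP_1888e6_gt): the piece `left i k o` from a standard state. -/

set_option autoImplicit false

namespace Pool.Agent.SN22.Cfg

/-- Proof. `gap` for the slopes with `q = i` gives a slope `b' (= u)` bigger than those of the strands `< i` and
smaller than the other ones. `exists_d` (with `F m = C.l (C.r m)`, `s = Finset.Icc i (i+k)`,
`x = C.X (i+k+1) Y`, `z = C.Z (i+k+1) Y`, and the Boolean `!o`) gives `d'` (both factors in its hypothesis are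
negative). Bend the strand `i + k + 1` at level `Y` (`Inv.bend`) into
`l' = thr Y (C.X (i+k+1) Y) (C.Z (i+k+1) Y) b' d'`, then `run_left` with `d = k + 1`, `q = i` (the word is
`goL i k o`, as `k + 1 - 1 - j = k - j`). The level increases (`0 < d`), so `lo, hi ≤ Y < Y'`. -/
theorem block_left {C : Cfg} {w : List Ev} {Y : ℝ} (h : C.Std w Y) {i k : ℕ} (o : Bool) (hi : i + k + 1 < C.n) :
    ∃ (C' : Cfg) (Y' : ℝ), C'.Std (w ++ (Piece.left i k o).word) Y' ∧ C'.n = C.n ∧ C'.A = C.A + 1 := by
  obtain ⟨u, v, huv, hu, hv⟩ := gap C.b h.slopes i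
  obtain ⟨d', hd'⟩ := exists_d (fun m => C.l (C.r m)) (Finset.Icc i (i + k)) Y (C.X (i + k + 1) Y)
    (C.Z (i + k + 1) Y) u (!o) (by
      intro m hm
      rw [Finset.mem_Icc] at hm
      have h1 : C.X m Y < C.X (i + k + 1) Y := h.inv.sorted m (i + k + 1) (by omega) hi
      have h2 : v < C.b m := hv m hm.1 (by omega)
      have h3 : (C.l (C.r m)).X Y - C.X (i + k + 1) Y < 0 := by
        have : (C.l (C.r m)).X Y = C.X m Y := rfl
        rw [this]; linarith
      have h4 : u - (C.l (C.r m)).b < 0 := by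
        have : (C.l (C.r m)).b = C.b m := rfl
        rw [this]; linarith
      exact mul_pos_of_neg_of_neg h3 h4)
  set l' : Ln := thr Y (C.X (i + k + 1) Y) (C.Z (i + k + 1) Y) u d' with hl'
  have hr : ∀ j < C.n, C.r j < C.A := h.inv.pre.r_lt
  have hInv : (C.bend (i + k + 1) Y l').Inv w Y :=
    h.inv.bend hi (h.lo_lt _ (hr _ hi)) l' (by rw [hl', thr_X]; ring) (by rw [hl', thr_Z]; ring)
  have hbp : (C.bend (i + k + 1) Y l').b (i + k + 1) = u := by rw [bend_b_self, hl', thr_b]
  have hbj : ∀ j < C.n, j ≠ i + k + 1 → (C.bend (i + k + 1) Y l').b j = C.b j := fun j hj hne =>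
    bend_b C _ Y l' hne (hr j hj)
  obtain ⟨C', Y', h1, -, h3, h4, h5, h6, h7, h8⟩ := run_left (k + 1) o i hInv hi
    (by
      intro j m hjm hm hj hm'
      rw [hbj j (lt_trans hjm hm) hj, hbj m hm hm']
      exact h.slopes j m hjm hm)
    (by
      intro m hpm hm
      have e : i + (k + 1) = i + k + 1 := rfl
      rw [e] at hpm ⊢
      rw [hbp, hbj m hm (by omega)]
      have := hv m (by omega) hm
      linarith)
    (by
      intro j hij hjp
      have e : i + (k + 1) = i + k + 1 := rfl
      rw [e] at hjp ⊢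
      rw [hbp, hbj j (by omega) (by omega)]
      have := hv j hij (by omega)
      linarith)
    (by
      intro j hij
      have e : i + (k + 1) = i + k + 1 := rfl
      rw [e, hbp, hbj j (by omega) (by omega)]
      exact hu j hij (by omega))
    (by
      intro j hij hjp y hX
      have e : i + (k + 1) = i + k + 1 := rfl
      rw [e] at hjp hX ⊢
      rw [bend_X_self, bend_X C _ Y l' (by omega) (hr j (by omega))] at hX
      rw [bend_Z_self, bend_Z C _ Y l' (by omega) (hr j (by omega))]
      have := hd' j (by rw [Finset.mem_Icc]; omega) y hX.symm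
      cases o
      · simpa [Cfg.Z] using this
      · simpa [Cfg.Z] using this)
  have hYY : Y < Y' := h3 (by omega)
  refine ⟨C', Y', ⟨?_, ?_, ?_, ?_⟩, h4, h5⟩
  · exact h1
  · intro a ha
    rw [h6]
    rw [h5, bend_A] at ha
    rcases Nat.lt_succ_iff_lt_or_eq.mp ha with ha | rfl
    · rw [bend_lo C _ Y l' ha]
      exact lt_trans (h.lo_lt a ha) hYY
    · rw [bend_lo_A]; exact hYY
  · intro a ha t ht
    rw [h7] at ht
    rw [h5, bend_A] at ha
    rcases Nat.lt_succ_iff_lt_or_eq.mp ha with ha | rfl
    · by_cases hap : a = C.r (i + k + 1)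
      · subst hap
        rw [bend_hi_r C _ Y l' ha] at ht
        cases ht
        exact hYY
      · rw [bend_hi C _ Y l' ha hap] at ht
        exact lt_trans (h.hi_lt a ha t ht) hYY
    · rw [bend_hi_A] at ht
      cases ht
  · intro j m hjm hm
    rw [h4, bend_n] at hm
    exact h8 j m hjm hm

end Pool.Agent.SN22.Cfg
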