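import Pool.Agent.SN22.Bend
import Pool.Agent.SN22.RunR

/-! SN22 module BRIGHT (MP_1888e6_gt): the piece `right i k o` from a standard state. -/

set_option autoImplicit false

namespace Pool.Agent.SN22.Cfg

/-- Proof. `gap` for the slopes with `q = i + k + 2` gives a slope `b' (= u)` bigger than those of the strands
`≤ i + k + 1` and smaller than the other ones. `exists_d` (with `F m = C.l (C.r m)`, `s = Finset.Icc (i+1) (i+k+1)`,
`x = C.X i Y`, `z = C.Z i Y`) gives `d'`. Bend the strand `i` at level `Y` (`Inv.bend`) into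
`l' = thr Y (C.X i Y) (C.Z i Y) b' d'`, then `run_right` with `d = k + 1`, `p = i` (the word is `goR i k o`, by
definition). The level increases (`0 < d`), so `lo, hi ≤ Y < Y'`: the old arcs by `h.lo_lt`, `h.hi_lt`, the bent one
has `hi = some Y`, the new one `lo = Y`. -/
theorem block_right {C : Cfg} {w : List Ev} {Y : ℝ} (h : C.Std w Y) {i k : ℕ} (o : Bool) (hi : i + k + 1 < C.n) :
    ∃ (C' : Cfg) (Y' : ℝ), C'.Std (w ++ (Piece.right i k o).word) Y' ∧ C'.n = C.n ∧ C'.A = C.A + 1 := by
  obtain ⟨u, v, huv, hlow, hup'⟩ := gap C.b h.slopes (i + k + 2)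
  have hup : ∀ m, i + k + 2 ≤ m → m < C.n → u < C.b m := fun m h1 h2 => huv.trans (hup' m h1 h2)
  clear hup'
  have hin : i < C.n := by omega
  have hrl : ∀ m, m < C.n → C.r m < C.A := h.inv.pre.r_lt
  have hXs : ∀ j m, j < m → m < C.n → C.X j Y < C.X m Y := h.inv.sorted
  obtain ⟨d', hd'⟩ := exists_d (fun m => C.l (C.r m)) (Finset.Icc (i + 1) (i + k + 1)) Y (C.X i Y) (C.Z i Y) u o (by
    intro m hm
    rw [Finset.mem_Icc] at hm
    have h1 : C.X i Y < C.X m Y := hXs i m (by omega) (by omega)
    have h2 : C.b m < u := hlow m (by omega) (by omega)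
    exact mul_pos (sub_pos.2 h1) (sub_pos.2 h2))
  set l' : Ln := thr Y (C.X i Y) (C.Z i Y) u d' with hl'
  have hX : l'.X Y = C.X i Y := by
    rw [hl', thr_X]
    ring
  have hZ : l'.Z Y = C.Z i Y := by
    rw [hl', thr_Z]
    ring
  have hinv := h.inv.bend hin (h.lo_lt _ (hrl i hin)) l' hX hZ
  have B0 : ∀ m, m ≠ i → m < C.n → (C.bend i Y l').b m = C.b m := fun m hm hmn =>
    bend_b C i Y l' hm (hrl m hmn)
  have B1 : (C.bend i Y l').b i = u := by
    rw [bend_b_self]
    rfl
  obtain ⟨C', Y', h1, h2, h3, h4, h5, h6, h7, h8⟩ := run_right (k + 1) o (C := C.bend i Y l') (w := w) (Y := Y) i hinv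
    (by rw [bend_n]; omega)
    (by
      intro j m hjm hm hj hm'
      rw [bend_n] at hm
      rw [B0 j hj (by omega), B0 m hm' hm]
      exact h.slopes j m hjm hm)
    (by
      intro j hj
      rw [B1, B0 j (by omega) (by omega)]
      exact hlow j (by omega) (by omega))
    (by
      intro m hm1 hm2
      rw [B1, B0 m (by omega) (by omega)]
      exact hlow m (by omega) (by omega))
    (by
      intro m hm1 hm2
      rw [bend_n] at hm2
      rw [B1, B0 m (by omega) (by omega)]
      exact hup m (by omega) hm2)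
    (by
      intro m hm1 hm2 y hy
      rw [bend_X_self, bend_X C i Y l' (by omega) (hrl m (by omega))] at hy
      rw [bend_Z_self, bend_Z C i Y l' (by omega) (hrl m (by omega))]
      exact hd' m (Finset.mem_Icc.2 ⟨by omega, by omega⟩) y hy)
  have hYY : Y < Y' := h3 (Nat.succ_pos k)
  refine ⟨C', Y', ⟨h1, ?_, ?_, ?_⟩, ?_, ?_⟩
  · intro a ha
    rw [h5, bend_A] at ha
    rw [h6]
    rcases Nat.lt_succ_iff_lt_or_eq.1 ha with ha | rfl
    · rw [bend_lo C i Y l' ha]
      exact (h.lo_lt a ha).trans hYY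
    · rw [bend_lo_A]
      exact hYY
  · intro a ha t ht
    rw [h5, bend_A] at ha
    rw [h7] at ht
    rcases Nat.lt_succ_iff_lt_or_eq.1 ha with ha | rfl
    · by_cases hr : a = C.r i
      · subst hr
        rw [bend_hi_r C i Y l' (hrl i hin)] at ht
        have h9 : Y = t := Option.some.inj ht
        rw [← h9]
        exact hYY
      · rw [bend_hi C i Y l' ha hr] at ht
        exact (h.hi_lt a ha t ht).trans hYY
    · rw [bend_hi_A] at ht
      exact absurd ht (by simp)
  · intro j m hjm hm
    rw [h4, bend_n] at hm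
    exact h8 j m hjm (by rw [bend_n]; exact hm)
  · rw [h4, bend_n]
  · rw [h5, bend_A]

end Pool.Agent.SN22.Cfg
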