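import Pool.Agent.SN22.Adv

/-! SN22 module BEND (MP_1888e6_gt): a strand is bent. -/

set_option autoImplicit false

namespace Pool.Agent.SN22

theorem Sorted.congr {n : ℕ} {P Q : ℕ → ℝ × ℝ} (h : Sorted n P) (hPQ : ∀ j < n, P j = Q j) : Sorted n Q :=
  fun j k hjk hk => by
    rw [← hPQ j (hjk.trans hk), ← hPQ k hk]
    exact h j k hjk hk

private theorem swap_lt {i n k : ℕ} (hi : i + 1 < n) (hk : k < n) : Equiv.swap i (i + 1) k < n := by
  rcases eq_or_ne k i with rfl | h1
  · rw [Equiv.swap_apply_left]
    exact hi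
  · rcases eq_or_ne k (i + 1) with rfl | h2
    · rw [Equiv.swap_apply_right]
      omega
    · rw [Equiv.swap_apply_of_ne_of_ne h1 h2]
      exact hk

/-- only the first `n` points matter -/
theorem Morse.congr {w : List Ev} {t : ℝ} {S : Set P3} {n : ℕ} {P P' : ℕ → ℝ × ℝ} (h : Morse w t S n P)
    (hP : ∀ j < n, P j = P' j) : Morse w t S n P' := by
  cases h with
  | nil => exact Morse.nil t P'
  | @idle _ s S _ P0 h _ _ hst hQ =>
    have : (⋃ k ∈ Set.Iio n, seg s t (P0 k) (P k)) = ⋃ k ∈ Set.Iio n, seg s t (P0 k) (P' k) :=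
      Set.iUnion₂_congr fun k hk => by rw [hP k hk]
    rw [this]
    exact Morse.idle h t P' hst (hQ.congr hP)
  | @cross w s S _ P0 h i o _ _ hst hQ hi ho =>
    have : (⋃ k ∈ Set.Iio n, seg s t (P0 k) (P (Equiv.swap i (i + 1) k))) =
        ⋃ k ∈ Set.Iio n, seg s t (P0 k) (P' (Equiv.swap i (i + 1) k)) :=
      Set.iUnion₂_congr fun k hk => by rw [hP _ (swap_lt hi hk)]
    rw [this]
    rw [hP _ hi, hP i (by omega)] at ho
    exact Morse.cross h i o t P' hst (hQ.congr hP) hi ho
  | @cup w s S n0 P0 h i v _ _ hst hQ hi hl hr hv =>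
    have : (⋃ k ∈ Set.Iio n0, seg s t (P0 k) (P (sh i k))) = ⋃ k ∈ Set.Iio n0, seg s t (P0 k) (P' (sh i k)) :=
      Set.iUnion₂_congr fun k hk => by
        rw [hP]
        rw [Set.mem_Iio] at hk
        unfold sh
        split_ifs <;> omega
    rw [this, hP i (by omega), hP (i + 1) (by omega)]
    exact Morse.cup h i v t P' hst (hQ.congr hP) hi hl hr hv
  | @cap w s S _ P0 h i v _ _ hst hQ hi hl hr =>
    have : (⋃ k ∈ Set.Iio n, seg s t (P0 (sh i k)) (P k)) = ⋃ k ∈ Set.Iio n, seg s t (P0 (sh i k)) (P' k) :=
      Set.iUnion₂_congr fun k hk => by rw [hP k hk]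
    rw [this]
    refine Morse.cap h i v t P' hst (hQ.congr hP) hi (fun k hk => ?_) (fun k h1 h2 => ?_)
    · rw [← hP k (by omega)]
      exact hl k hk
    · rw [← hP k h2]
      exact hr k h1 h2

end Pool.Agent.SN22

namespace Pool.Agent.SN22.Cfg

private theorem pt_eq {l m : Ln} {y : ℝ} (hX : l.X y = m.X y) (hZ : l.Z y = m.Z y) : l.pt y = m.pt y := by
  simp only [Ln.pt, hX, hZ]

private theorem on_of_end {C : Cfg} {Y : ℝ} (h : C.Pre Y) {i : ℕ} (hi : i < C.A) {y : ℝ} (he : C.End i y) :
    C.On i y := by
  rcases he with rfl | he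
  · exact ⟨le_rfl, fun t ht => (h.hi_le i hi t ht).1.le⟩
  · refine ⟨(h.hi_le i hi y he).1.le, fun t ht => ?_⟩
    rw [he, Option.some.injEq] at ht
    exact ht.le

/-- A strand is bent at the level `Y`: the arc `C.r k` is closed at level `Y`, and the new arc number `C.A` begins
there, on a line through the same point.

Proof. `disj`: pairs of old arcs: as before (`On` for the arc `C.r k` is the same for `y ≤ Y`, `End` is weaker to
satisfy); a pair (old arc `i`, new arc `C.A`): a common point has level `y = Y` (since `On` for the new arc means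
`Y ≤ y`), and it is the point of the strand `k`; if `i = C.r k`, both ends are clear; if `i ≠ C.r k` then the old
`disj` for `i`, `C.r k` gives `End (C.r k) Y` in `C`, so `Y = lo (C.r k)` (contradiction with `hlo`) or
`hi (C.r k) = some Y` (contradiction with `r_open`).
`deg`: an end `(i, y)` of an old arc which is an end in `C`: its partner `j` in `C` is still its partner; it is unique
because the new arc `C.A` has an end at `y` only for `y = Y`, at the point of strand `k`: then (`disj` of `C` for `i`
and `C.r k`, or `i = C.r k`) we get a contradiction as before, and because the new end `(C.r k, Y)` of the arc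
`C.r k` can be excluded in the same way. The new end `(C.r k, Y)` has the partner `C.A`, unique by the same argument,
and vice versa.
`pts`: `(C.bend k Y l').pts Y = C.pts Y` (the new arc has only its first point at level `≤ Y`, which is a point of
`C.r k`). `morse`: the same set and the same points `xz` at level `Y` (by `hX`, `hZ`), `Morse` is unchanged. -/
theorem Inv.bend {C : Cfg} {w : List Ev} {Y : ℝ} (h : C.Inv w Y) {k : ℕ} (hk : k < C.n)
    (hlo : C.lo (C.r k) < Y) (l' : Ln) (hX : l'.X Y = C.X k Y) (hZ : l'.Z Y = C.Z k Y) :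
    (C.bend k Y l').Inv w Y := by
  have hp := h.pre
  have ha : C.r k < C.A := hp.r_lt k hk
  have hopen : C.hi (C.r k) = none := hp.r_open k hk
  have hv : l'.pt Y = (C.l (C.r k)).pt Y := pt_eq hX hZ
  have honA : C.On (C.r k) Y := ⟨hlo.le, fun t ht => by rw [hopen] at ht; exact absurd ht (by simp)⟩
  have hnendA : ¬ C.End (C.r k) Y := by
    rintro (h1 | h1)
    · exact hlo.ne' h1
    · rw [hopen] at h1
      exact absurd h1 (by simp)
  have K : ∀ i < C.A, i ≠ C.r k → C.On i Y → (C.l i).pt Y ≠ (C.l (C.r k)).pt Y := fun i hi hne hon heq =>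
    hnendA (hp.disj i hi _ ha hne Y le_rfl hon honA heq).2
  -- `On` and `End` in the new configuration
  have hon : ∀ i < C.A, ∀ y ≤ Y, ((C.bend k Y l').On i y ↔ C.On i y) := by
    intro i hi y hy
    unfold On
    rw [bend_lo C k Y l' hi]
    rcases eq_or_ne i (C.r k) with rfl | hne
    · rw [bend_hi_r C k Y l' ha, hopen]
      constructor
      · rintro ⟨h1, _⟩
        exact ⟨h1, fun t ht => absurd ht (by simp)⟩
      · rintro ⟨h1, _⟩
        refine ⟨h1, fun t ht => ?_⟩
        rw [Option.some.injEq] at ht
        rw [← ht]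
        exact hy
    · rw [bend_hi C k Y l' hi hne]
  have honN : ∀ y, (C.bend k Y l').On C.A y → Y ≤ y := by
    rintro y ⟨h1, _⟩
    rwa [bend_lo_A] at h1
  have hendne : ∀ i < C.A, i ≠ C.r k → ∀ y, ((C.bend k Y l').End i y ↔ C.End i y) := by
    intro i hi hne y
    unfold End
    rw [bend_lo C k Y l' hi, bend_hi C k Y l' hi hne]
  have hendr : ∀ y, (C.bend k Y l').End (C.r k) y ↔ (C.End (C.r k) y ∨ y = Y) := by
    intro y
    unfold End
    rw [bend_lo C k Y l' ha, bend_hi_r C k Y l' ha, hopen]
    simp only [Option.some.injEq, reduceCtorEq, or_false]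
    exact or_congr_right eq_comm
  have hendmono : ∀ i < C.A, ∀ y, C.End i y → (C.bend k Y l').End i y := by
    intro i hi y he
    rcases eq_or_ne i (C.r k) with rfl | hne
    · exact (hendr y).2 (Or.inl he)
    · exact (hendne i hi hne y).2 he
  have hendN : ∀ y, (C.bend k Y l').End C.A y ↔ y = Y := by
    intro y
    unfold End
    rw [bend_lo_A, bend_hi_A]
    simp
  have hpre : (C.bend k Y l').Pre Y := by
    refine ⟨?_, ?_, ?_, ?_, ?_, ?_, ?_, ?_⟩
    · intro i hi
      rw [bend_A] at hi
      rcases Nat.lt_succ_iff_lt_or_eq.1 hi with hi | rfl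
      · rw [bend_lo C k Y l' hi]
        exact hp.lo_le i hi
      · rw [bend_lo_A]
    · intro i hi t ht
      rw [bend_A] at hi
      rcases Nat.lt_succ_iff_lt_or_eq.1 hi with hi | rfl
      · rw [bend_lo C k Y l' hi]
        rcases eq_or_ne i (C.r k) with rfl | hne
        · rw [bend_hi_r C k Y l' ha, Option.some.injEq] at ht
          rw [← ht]
          exact ⟨hlo, le_rfl⟩
        · rw [bend_hi C k Y l' hi hne] at ht
          exact hp.hi_le i hi t ht
      · rw [bend_hi_A] at ht
        exact absurd ht (by simp)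
    · intro j hj
      rw [bend_n] at hj
      rw [bend_A]
      rcases eq_or_ne j k with rfl | hne
      · rw [bend_r_self]
        omega
      · rw [bend_r C k Y l' hne]
        have := hp.r_lt j hj
        omega
    · intro j hj
      rw [bend_n] at hj
      rcases eq_or_ne j k with rfl | hne
      · rw [bend_r_self, bend_hi_A]
      · rw [bend_r C k Y l' hne, bend_hi C k Y l' (hp.r_lt j hj) fun e => hne (hp.r_inj j hj k hk e)]
        exact hp.r_open j hj
    · intro i hi j hj e
      rw [bend_n] at hi hj
      rcases eq_or_ne i k with rfl | h1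
      · rcases eq_or_ne j i with rfl | h2
        · rfl
        · rw [bend_r_self, bend_r C i Y l' h2] at e
          exact absurd e (hp.r_lt j hj).ne'
      · rcases eq_or_ne j k with rfl | h2
        · rw [bend_r_self, bend_r C j Y l' h1] at e
          exact absurd e (hp.r_lt i hi).ne
        · rw [bend_r C k Y l' h1, bend_r C k Y l' h2] at e
          exact hp.r_inj i hi j hj e
    · intro i hi hnone
      rw [bend_A] at hi
      rcases Nat.lt_succ_iff_lt_or_eq.1 hi with hi | rfl
      · rcases eq_or_ne i (C.r k) with rfl | hne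
        · rw [bend_hi_r C k Y l' ha] at hnone
          exact absurd hnone (by simp)
        · rw [bend_hi C k Y l' hi hne] at hnone
          obtain ⟨j, hj, rfl⟩ := hp.r_surj i hi hnone
          have : j ≠ k := by
            rintro rfl
            exact hne rfl
          exact ⟨j, hj, bend_r C k Y l' this⟩
      · exact ⟨k, hk, bend_r_self C k Y l'⟩
    · intro i hi j hj hij y hy oi oj e
      rw [bend_A] at hi hj
      rcases Nat.lt_succ_iff_lt_or_eq.1 hi with hi | rfl
      · rcases Nat.lt_succ_iff_lt_or_eq.1 hj with hj | rfl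
        · rw [bend_l C k Y l' hi, bend_l C k Y l' hj] at e
          have := hp.disj i hi j hj hij y hy ((hon i hi y hy).1 oi) ((hon j hj y hy).1 oj) e
          exact ⟨hendmono i hi y this.1, hendmono j hj y this.2⟩
        · obtain rfl : y = Y := le_antisymm hy (honN y oj)
          rw [bend_l C k y l' hi, bend_l_A, hv] at e
          have hia : i = C.r k := by
            by_contra hne
            exact K i hi hne ((hon i hi y le_rfl).1 oi) e
          exact ⟨by rw [hia]; exact (hendr y).2 (Or.inr rfl), (hendN y).2 rfl⟩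
      · rcases Nat.lt_succ_iff_lt_or_eq.1 hj with hj | rfl
        · obtain rfl : y = Y := le_antisymm hy (honN y oi)
          rw [bend_l C k y l' hj, bend_l_A, hv] at e
          have hja : j = C.r k := by
            by_contra hne
            exact K j hj hne ((hon j hj y le_rfl).1 oj) e.symm
          exact ⟨(hendN y).2 rfl, by rw [hja]; exact (hendr y).2 (Or.inr rfl)⟩
        · exact absurd rfl hij
    · intro i hi y he
      rw [bend_A] at hi
      rcases Nat.lt_succ_iff_lt_or_eq.1 hi with hi | rfl
      · by_cases hold : C.End i y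
        · obtain ⟨j, ⟨⟨hj, hji⟩, hje, hjp⟩, huniq⟩ := hp.deg i hi y hold
          refine ⟨j, ⟨⟨by rw [bend_A]; omega, hji⟩, hendmono j hj y hje, ?_⟩, ?_⟩
          · rw [bend_l C k Y l' hi, bend_l C k Y l' hj, hjp]
          · rintro j' ⟨⟨hj', hj'i⟩, hj'e, hj'p⟩
            rw [bend_A] at hj'
            rcases Nat.lt_succ_iff_lt_or_eq.1 hj' with hj' | rfl
            · rw [bend_l C k Y l' hi, bend_l C k Y l' hj'] at hj'p
              rcases eq_or_ne j' (C.r k) with rfl | hne
              · rcases (hendr y).1 hj'e with h1 | rfl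
                · exact huniq _ ⟨⟨hj', hj'i⟩, h1, hj'p⟩
                · exact absurd hj'p.symm (K i hi hj'i.symm (on_of_end hp hi hold))
              · exact huniq _ ⟨⟨hj', hj'i⟩, (hendne j' hj' hne y).1 hj'e, hj'p⟩
            · obtain rfl := (hendN y).1 hj'e
              rw [bend_l C k y l' hi, bend_l_A, hv] at hj'p
              rcases eq_or_ne i (C.r k) with rfl | hne
              · exact absurd hold hnendA
              · exact absurd hj'p.symm (K i hi hne (on_of_end hp hi hold))
        · have hia : i = C.r k := by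
            by_contra hne
            exact hold ((hendne i hi hne y).1 he)
          subst hia
          rcases (hendr y).1 he with h1 | rfl
          · exact absurd h1 hold
          · refine ⟨C.A, ⟨⟨by rw [bend_A]; omega, ha.ne'⟩, (hendN y).2 rfl, ?_⟩, ?_⟩
            · rw [bend_l_A, bend_l C k y l' ha, hv]
            · rintro j' ⟨⟨hj', hj'i⟩, hj'e, hj'p⟩
              rw [bend_A] at hj'
              rcases Nat.lt_succ_iff_lt_or_eq.1 hj' with hj' | rfl
              · rw [bend_l C k y l' ha, bend_l C k y l' hj'] at hj'p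
                exact absurd hj'p (K j' hj' hj'i (on_of_end hp hj' ((hendne j' hj' hj'i y).1 hj'e)))
              · rfl
      · obtain rfl := (hendN y).1 he
        refine ⟨C.r k, ⟨⟨by rw [bend_A]; omega, ha.ne⟩, (hendr y).2 (Or.inr rfl), ?_⟩, ?_⟩
        · rw [bend_l_A, bend_l C k y l' ha, hv]
        · rintro j' ⟨⟨hj', hj'i⟩, hj'e, hj'p⟩
          rw [bend_A] at hj'
          have hj'' : j' < C.A := by omega
          by_contra hne
          rw [bend_l_A, hv, bend_l C k y l' hj''] at hj'p
          exact absurd hj'p (K j' hj'' hne (on_of_end hp hj'' ((hendne j' hj'' hne y).1 hj'e)))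
  have hpts : (C.bend k Y l').pts Y = C.pts Y := by
    ext p
    constructor
    · rintro ⟨i, hi, y, hy, oi, rfl⟩
      rw [bend_A] at hi
      rcases Nat.lt_succ_iff_lt_or_eq.1 hi with hi | rfl
      · exact ⟨i, hi, y, hy, (hon i hi y hy).1 oi, by rw [bend_l C k Y l' hi]⟩
      · obtain rfl : y = Y := le_antisymm hy (honN y oi)
        exact ⟨C.r k, ha, y, le_rfl, honA, by rw [bend_l_A, hv]⟩
    · rintro ⟨i, hi, y, hy, oi, rfl⟩
      exact ⟨i, by rw [bend_A]; omega, y, hy, (hon i hi y hy).2 oi, by rw [bend_l C k Y l' hi]⟩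
  have hxz : ∀ j < C.n, C.xz j Y = (C.bend k Y l').xz j Y := by
    intro j hj
    rcases eq_or_ne j k with rfl | hne
    · simp only [xz, bend_r_self, bend_l_A, Ln.xz]
      exact Prod.ext hX.symm hZ.symm
    · simp only [xz, bend_r C k Y l' hne, bend_l C k Y l' (hp.r_lt j hj)]
  refine ⟨hpre, ?_, ?_⟩
  · rw [sortedAt_iff]
    exact Sorted.congr ((sortedAt_iff C Y).1 h.sorted) hxz
  · rw [hpts]
    exact Morse.congr h.morse hxz

end Pool.Agent.SN22.Cfg
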