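import Pool.Agent.SN22.Defs

/-!
# Configurations of arcs (MP_1888e6_gt, helper22)

The polygonal link is built from bottom to top. At the level `Y` the part below is a finite union of *arcs*; arc
number `i` lies on the line `l i` and goes from the level `lo i` to the level `hi i` (`hi i = none` for an open arc,
which goes on above `Y`). The open arcs at level `Y` are the strands; strand number `k` (from left to right) is the
arc `r k`.
-/

set_option autoImplicit false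

namespace Pool.Agent.SN22

/-- the line `x = a + b y`, `z = c + d y` -/
structure Ln where
  a : ℝ
  b : ℝ
  c : ℝ
  d : ℝ

/-- `x`-coordinate at level `y` -/
def Ln.X (l : Ln) (y : ℝ) : ℝ := l.a + l.b * y

/-- `z`-coordinate at level `y` -/
def Ln.Z (l : Ln) (y : ℝ) : ℝ := l.c + l.d * y

/-- point of the line at level `y` -/
def Ln.pt (l : Ln) (y : ℝ) : P3 := (l.X y, y, l.Z y)

/-- `(x, z)` at level `y` -/
def Ln.xz (l : Ln) (y : ℝ) : ℝ × ℝ := (l.X y, l.Z y)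

/-- the line with slopes `b`, `d` through the point `(x, Y, z)` -/
def thr (Y x z b d : ℝ) : Ln := ⟨x - b * Y, b, z - d * Y, d⟩

@[simp] theorem thr_b (Y x z b d : ℝ) : (thr Y x z b d).b = b := rfl
theorem thr_X (Y x z b d y : ℝ) : (thr Y x z b d).X y = x + b * (y - Y) := by simp [thr, Ln.X]; ring
theorem thr_Z (Y x z b d y : ℝ) : (thr Y x z b d).Z y = z + d * (y - Y) := by simp [thr, Ln.Z]; ring

/-- a configuration of arcs -/
structure Cfg where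
  A : ℕ
  l : ℕ → Ln
  lo : ℕ → ℝ
  hi : ℕ → Option ℝ
  n : ℕ
  r : ℕ → ℕ

namespace Cfg

/-- `x`-coordinate of strand `k` -/
def X (C : Cfg) (k : ℕ) (y : ℝ) : ℝ := (C.l (C.r k)).X y
/-- `z`-coordinate of strand `k` -/
def Z (C : Cfg) (k : ℕ) (y : ℝ) : ℝ := (C.l (C.r k)).Z y
/-- slope `dx/dy` of strand `k` -/
def b (C : Cfg) (k : ℕ) : ℝ := (C.l (C.r k)).b
/-- strand `k` at level `y` -/
def xz (C : Cfg) (k : ℕ) (y : ℝ) : ℝ × ℝ := (C.l (C.r k)).xz y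

/-- the arc `i` has a point of level `y` -/
def On (C : Cfg) (i : ℕ) (y : ℝ) : Prop := C.lo i ≤ y ∧ ∀ h, C.hi i = some h → y ≤ h

/-- the point of level `y` of the arc `i` is an end point of this arc -/
def End (C : Cfg) (i : ℕ) (y : ℝ) : Prop := y = C.lo i ∨ C.hi i = some y

/-- the part of the link up to the level `Y` -/
def pts (C : Cfg) (Y : ℝ) : Set P3 := {p | ∃ i < C.A, ∃ y ≤ Y, C.On i y ∧ p = (C.l i).pt y}

/-- the strands are sorted at level `Y` -/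
def SortedAt (C : Cfg) (Y : ℝ) : Prop := ∀ j k, j < k → k < C.n → C.X j Y < C.X k Y

/-- `C` describes a polygonal link up to the level `Y` -/
structure Pre (C : Cfg) (Y : ℝ) : Prop where
  lo_le : ∀ i < C.A, C.lo i ≤ Y
  hi_le : ∀ i < C.A, ∀ h, C.hi i = some h → C.lo i < h ∧ h ≤ Y
  r_lt : ∀ k < C.n, C.r k < C.A
  r_open : ∀ k < C.n, C.hi (C.r k) = none
  r_inj : ∀ j < C.n, ∀ k < C.n, C.r j = C.r k → j = k
  r_surj : ∀ i < C.A, C.hi i = none → ∃ k < C.n, C.r k = i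
  disj : ∀ i < C.A, ∀ j < C.A, i ≠ j → ∀ y ≤ Y, C.On i y → C.On j y → (C.l i).pt y = (C.l j).pt y →
    C.End i y ∧ C.End j y
  deg : ∀ i < C.A, ∀ y, C.End i y → ∃! j, (j < C.A ∧ j ≠ i) ∧ C.End j y ∧ (C.l j).pt y = (C.l i).pt y

/-- `C` describes a polygonal link up to the level `Y`, with Morse word `w` -/
structure Inv (C : Cfg) (w : List Ev) (Y : ℝ) : Prop where
  pre : C.Pre Y
  sorted : C.SortedAt Y
  morse : Morse w Y (C.pts Y) C.n (fun k => C.xz k Y)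

/-- the strand `k` is bent at level `Y`; from there on it follows the line `l'` -/
def bend (C : Cfg) (k : ℕ) (Y : ℝ) (l' : Ln) : Cfg where
  A := C.A + 1
  l := Function.update C.l C.A l'
  lo := Function.update C.lo C.A Y
  hi := Function.update (Function.update C.hi (C.r k) (some Y)) C.A none
  n := C.n
  r := Function.update C.r k C.A

/-- the strands `p` and `p + 1` change places -/
def swp (C : Cfg) (p : ℕ) : Cfg where
  A := C.A
  l := C.l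
  lo := C.lo
  hi := C.hi
  n := C.n
  r := fun k => C.r (Equiv.swap p (p + 1) k)

/-- two new arcs on the lines `l1`, `l2` are born at level `Y`, they are the strands `i` and `i + 1` -/
def cupc (C : Cfg) (i : ℕ) (Y : ℝ) (l1 l2 : Ln) : Cfg where
  A := C.A + 2
  l := Function.update (Function.update C.l C.A l1) (C.A + 1) l2
  lo := Function.update (Function.update C.lo C.A Y) (C.A + 1) Y
  hi := Function.update (Function.update C.hi C.A none) (C.A + 1) none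
  n := C.n + 2
  r := fun k => if k < i then C.r k else if k = i then C.A else if k = i + 1 then C.A + 1 else C.r (k - 2)

/-- the strands `i` and `i + 1` end at level `Y` -/
def capc (C : Cfg) (i : ℕ) (Y : ℝ) : Cfg where
  A := C.A
  l := C.l
  lo := C.lo
  hi := Function.update (Function.update C.hi (C.r i) (some Y)) (C.r (i + 1)) (some Y)
  n := C.n - 2
  r := fun k => C.r (sh i k)

/-- standard states: nothing begins or ends at the level `Y`, and the slopes of the strands increase from left to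
right (so that the strands never meet above `Y` if nothing is done) -/
structure Std (C : Cfg) (w : List Ev) (Y : ℝ) : Prop where
  inv : C.Inv w Y
  lo_lt : ∀ i < C.A, C.lo i < Y
  hi_lt : ∀ i < C.A, ∀ t, C.hi i = some t → t < Y
  slopes : ∀ j k, j < k → k < C.n → C.b j < C.b k

section simp_lemmas
variable (C : Cfg)

theorem sortedAt_iff (Y : ℝ) : C.SortedAt Y ↔ Sorted C.n (fun k => C.xz k Y) := Iff.rfl

theorem X_eq (k : ℕ) (y : ℝ) : C.X k y = (C.l (C.r k)).a + C.b k * y := rfl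
theorem Z_eq (k : ℕ) (y : ℝ) : C.Z k y = (C.l (C.r k)).c + (C.l (C.r k)).d * y := rfl

@[simp] theorem bend_A (k : ℕ) (Y : ℝ) (l' : Ln) : (C.bend k Y l').A = C.A + 1 := rfl
@[simp] theorem bend_n (k : ℕ) (Y : ℝ) (l' : Ln) : (C.bend k Y l').n = C.n := rfl
@[simp] theorem bend_l_A (k : ℕ) (Y : ℝ) (l' : Ln) : (C.bend k Y l').l C.A = l' := by simp [bend]
theorem bend_l (k : ℕ) (Y : ℝ) (l' : Ln) {i : ℕ} (hi : i < C.A) : (C.bend k Y l').l i = C.l i := by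
  simp [bend, Function.update_of_ne hi.ne]
@[simp] theorem bend_lo_A (k : ℕ) (Y : ℝ) (l' : Ln) : (C.bend k Y l').lo C.A = Y := by simp [bend]
theorem bend_lo (k : ℕ) (Y : ℝ) (l' : Ln) {i : ℕ} (hi : i < C.A) : (C.bend k Y l').lo i = C.lo i := by
  simp [bend, Function.update_of_ne hi.ne]
@[simp] theorem bend_hi_A (k : ℕ) (Y : ℝ) (l' : Ln) : (C.bend k Y l').hi C.A = none := by simp [bend]
theorem bend_hi (k : ℕ) (Y : ℝ) (l' : Ln) {i : ℕ} (hi : i < C.A) (hk : i ≠ C.r k) :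
    (C.bend k Y l').hi i = C.hi i := by
  simp [bend, Function.update_of_ne hi.ne, Function.update_of_ne hk]
theorem bend_hi_r (k : ℕ) (Y : ℝ) (l' : Ln) (hk : C.r k < C.A) : (C.bend k Y l').hi (C.r k) = some Y := by
  simp [bend, Function.update_of_ne hk.ne]
@[simp] theorem bend_r_self (k : ℕ) (Y : ℝ) (l' : Ln) : (C.bend k Y l').r k = C.A := by simp [bend]
theorem bend_r (k : ℕ) (Y : ℝ) (l' : Ln) {j : ℕ} (hj : j ≠ k) : (C.bend k Y l').r j = C.r j := by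
  simp [bend, Function.update_of_ne hj]
theorem bend_X_self (k : ℕ) (Y : ℝ) (l' : Ln) (y : ℝ) : (C.bend k Y l').X k y = l'.X y := by simp [X]
theorem bend_Z_self (k : ℕ) (Y : ℝ) (l' : Ln) (y : ℝ) : (C.bend k Y l').Z k y = l'.Z y := by simp [Z]
theorem bend_b_self (k : ℕ) (Y : ℝ) (l' : Ln) : (C.bend k Y l').b k = l'.b := by simp [b]
theorem bend_X (k : ℕ) (Y : ℝ) (l' : Ln) {j : ℕ} (hj : j ≠ k) (hr : C.r j < C.A) (y : ℝ) :
    (C.bend k Y l').X j y = C.X j y := by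
  simp [X, bend_r C k Y l' hj, bend_l C k Y l' hr]
theorem bend_Z (k : ℕ) (Y : ℝ) (l' : Ln) {j : ℕ} (hj : j ≠ k) (hr : C.r j < C.A) (y : ℝ) :
    (C.bend k Y l').Z j y = C.Z j y := by
  simp [Z, bend_r C k Y l' hj, bend_l C k Y l' hr]
theorem bend_b (k : ℕ) (Y : ℝ) (l' : Ln) {j : ℕ} (hj : j ≠ k) (hr : C.r j < C.A) :
    (C.bend k Y l').b j = C.b j := by
  simp [b, bend_r C k Y l' hj, bend_l C k Y l' hr]

@[simp] theorem swp_A (p : ℕ) : (C.swp p).A = C.A := rfl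
@[simp] theorem swp_l (p : ℕ) : (C.swp p).l = C.l := rfl
@[simp] theorem swp_lo (p : ℕ) : (C.swp p).lo = C.lo := rfl
@[simp] theorem swp_hi (p : ℕ) : (C.swp p).hi = C.hi := rfl
@[simp] theorem swp_n (p : ℕ) : (C.swp p).n = C.n := rfl
@[simp] theorem swp_pts (p : ℕ) (Y : ℝ) : (C.swp p).pts Y = C.pts Y := rfl
theorem swp_X (p k : ℕ) (y : ℝ) : (C.swp p).X k y = C.X (Equiv.swap p (p + 1) k) y := rfl
theorem swp_Z (p k : ℕ) (y : ℝ) : (C.swp p).Z k y = C.Z (Equiv.swap p (p + 1) k) y := rfl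
theorem swp_b (p k : ℕ) : (C.swp p).b k = C.b (Equiv.swap p (p + 1) k) := rfl
theorem swp_xz (p k : ℕ) (y : ℝ) : (C.swp p).xz k y = C.xz (Equiv.swap p (p + 1) k) y := rfl

@[simp] theorem cupc_A (i : ℕ) (Y : ℝ) (l1 l2 : Ln) : (C.cupc i Y l1 l2).A = C.A + 2 := rfl
@[simp] theorem cupc_n (i : ℕ) (Y : ℝ) (l1 l2 : Ln) : (C.cupc i Y l1 l2).n = C.n + 2 := rfl
@[simp] theorem cupc_l_A (i : ℕ) (Y : ℝ) (l1 l2 : Ln) : (C.cupc i Y l1 l2).l C.A = l1 := by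
  simp [cupc]
@[simp] theorem cupc_l_A1 (i : ℕ) (Y : ℝ) (l1 l2 : Ln) : (C.cupc i Y l1 l2).l (C.A + 1) = l2 := by simp [cupc]
theorem cupc_l (i : ℕ) (Y : ℝ) (l1 l2 : Ln) {j : ℕ} (hj : j < C.A) : (C.cupc i Y l1 l2).l j = C.l j := by
  simp [cupc, Function.update_of_ne hj.ne, Function.update_of_ne (show j ≠ C.A + 1 by omega)]
@[simp] theorem cupc_lo_A (i : ℕ) (Y : ℝ) (l1 l2 : Ln) : (C.cupc i Y l1 l2).lo C.A = Y := by
  simp [cupc]
@[simp] theorem cupc_lo_A1 (i : ℕ) (Y : ℝ) (l1 l2 : Ln) : (C.cupc i Y l1 l2).lo (C.A + 1) = Y := by simp [cupc]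
theorem cupc_lo (i : ℕ) (Y : ℝ) (l1 l2 : Ln) {j : ℕ} (hj : j < C.A) : (C.cupc i Y l1 l2).lo j = C.lo j := by
  simp [cupc, Function.update_of_ne hj.ne, Function.update_of_ne (show j ≠ C.A + 1 by omega)]
@[simp] theorem cupc_hi_A (i : ℕ) (Y : ℝ) (l1 l2 : Ln) : (C.cupc i Y l1 l2).hi C.A = none := by
  simp [cupc]
@[simp] theorem cupc_hi_A1 (i : ℕ) (Y : ℝ) (l1 l2 : Ln) : (C.cupc i Y l1 l2).hi (C.A + 1) = none := by simp [cupc]
theorem cupc_hi (i : ℕ) (Y : ℝ) (l1 l2 : Ln) {j : ℕ} (hj : j < C.A) : (C.cupc i Y l1 l2).hi j = C.hi j := by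
  simp [cupc, Function.update_of_ne hj.ne, Function.update_of_ne (show j ≠ C.A + 1 by omega)]
theorem cupc_r_lt (i : ℕ) (Y : ℝ) (l1 l2 : Ln) {k : ℕ} (hk : k < i) : (C.cupc i Y l1 l2).r k = C.r k := by
  simp [cupc, hk]
@[simp] theorem cupc_r_i (i : ℕ) (Y : ℝ) (l1 l2 : Ln) : (C.cupc i Y l1 l2).r i = C.A := by simp [cupc]
@[simp] theorem cupc_r_i1 (i : ℕ) (Y : ℝ) (l1 l2 : Ln) : (C.cupc i Y l1 l2).r (i + 1) = C.A + 1 := by simp [cupc]
theorem cupc_r_gt (i : ℕ) (Y : ℝ) (l1 l2 : Ln) {k : ℕ} (hk : i + 1 < k) :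
    (C.cupc i Y l1 l2).r k = C.r (k - 2) := by
  simp [cupc, show ¬ k < i by omega, show k ≠ i by omega, show k ≠ i + 1 by omega]
theorem cupc_r_sh (i : ℕ) (Y : ℝ) (l1 l2 : Ln) (k : ℕ) : (C.cupc i Y l1 l2).r (sh i k) = C.r k := by
  unfold sh
  split_ifs with h
  · exact cupc_r_lt C i Y l1 l2 h
  · rw [cupc_r_gt C i Y l1 l2 (by omega)]
    congr 1
theorem cupc_X_lt (i : ℕ) (Y : ℝ) (l1 l2 : Ln) {k : ℕ} (hk : k < i) (hr : C.r k < C.A) (y : ℝ) :
    (C.cupc i Y l1 l2).X k y = C.X k y := by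
  simp [X, cupc_r_lt C i Y l1 l2 hk, cupc_l C i Y l1 l2 hr]
theorem cupc_b_lt (i : ℕ) (Y : ℝ) (l1 l2 : Ln) {k : ℕ} (hk : k < i) (hr : C.r k < C.A) :
    (C.cupc i Y l1 l2).b k = C.b k := by
  simp [b, cupc_r_lt C i Y l1 l2 hk, cupc_l C i Y l1 l2 hr]
theorem cupc_X_gt (i : ℕ) (Y : ℝ) (l1 l2 : Ln) {k : ℕ} (hk : i + 1 < k) (hr : C.r (k - 2) < C.A) (y : ℝ) :
    (C.cupc i Y l1 l2).X k y = C.X (k - 2) y := by
  simp [X, cupc_r_gt C i Y l1 l2 hk, cupc_l C i Y l1 l2 hr]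
theorem cupc_b_gt (i : ℕ) (Y : ℝ) (l1 l2 : Ln) {k : ℕ} (hk : i + 1 < k) (hr : C.r (k - 2) < C.A) :
    (C.cupc i Y l1 l2).b k = C.b (k - 2) := by
  simp [b, cupc_r_gt C i Y l1 l2 hk, cupc_l C i Y l1 l2 hr]
theorem cupc_Z_lt (i : ℕ) (Y : ℝ) (l1 l2 : Ln) {k : ℕ} (hk : k < i) (hr : C.r k < C.A) (y : ℝ) :
    (C.cupc i Y l1 l2).Z k y = C.Z k y := by
  simp [Z, cupc_r_lt C i Y l1 l2 hk, cupc_l C i Y l1 l2 hr]
theorem cupc_Z_gt (i : ℕ) (Y : ℝ) (l1 l2 : Ln) {k : ℕ} (hk : i + 1 < k) (hr : C.r (k - 2) < C.A) (y : ℝ) :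
    (C.cupc i Y l1 l2).Z k y = C.Z (k - 2) y := by
  simp [Z, cupc_r_gt C i Y l1 l2 hk, cupc_l C i Y l1 l2 hr]
theorem cupc_X_i (i : ℕ) (Y : ℝ) (l1 l2 : Ln) (y : ℝ) : (C.cupc i Y l1 l2).X i y = l1.X y := by simp [X]
theorem cupc_X_i1 (i : ℕ) (Y : ℝ) (l1 l2 : Ln) (y : ℝ) : (C.cupc i Y l1 l2).X (i + 1) y = l2.X y := by simp [X]
theorem cupc_Z_i (i : ℕ) (Y : ℝ) (l1 l2 : Ln) (y : ℝ) : (C.cupc i Y l1 l2).Z i y = l1.Z y := by simp [Z]
theorem cupc_Z_i1 (i : ℕ) (Y : ℝ) (l1 l2 : Ln) (y : ℝ) : (C.cupc i Y l1 l2).Z (i + 1) y = l2.Z y := by simp [Z]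
theorem cupc_b_i (i : ℕ) (Y : ℝ) (l1 l2 : Ln) : (C.cupc i Y l1 l2).b i = l1.b := by simp [b]
theorem cupc_b_i1 (i : ℕ) (Y : ℝ) (l1 l2 : Ln) : (C.cupc i Y l1 l2).b (i + 1) = l2.b := by simp [b]

@[simp] theorem capc_A (i : ℕ) (Y : ℝ) : (C.capc i Y).A = C.A := rfl
@[simp] theorem capc_l (i : ℕ) (Y : ℝ) : (C.capc i Y).l = C.l := rfl
@[simp] theorem capc_lo (i : ℕ) (Y : ℝ) : (C.capc i Y).lo = C.lo := rfl
@[simp] theorem capc_n (i : ℕ) (Y : ℝ) : (C.capc i Y).n = C.n - 2 := rfl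
theorem capc_hi_i (i : ℕ) (Y : ℝ) : (C.capc i Y).hi (C.r i) = some Y := by
  by_cases h : C.r i = C.r (i + 1)
  · simp [capc, h]
  · simp [capc, Function.update_of_ne h]
@[simp] theorem capc_hi_i1 (i : ℕ) (Y : ℝ) : (C.capc i Y).hi (C.r (i + 1)) = some Y := by simp [capc]
theorem capc_hi (i : ℕ) (Y : ℝ) {j : ℕ} (h1 : j ≠ C.r i) (h2 : j ≠ C.r (i + 1)) :
    (C.capc i Y).hi j = C.hi j := by
  simp [capc, Function.update_of_ne h1, Function.update_of_ne h2]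
theorem capc_X (i : ℕ) (Y : ℝ) (k : ℕ) (y : ℝ) : (C.capc i Y).X k y = C.X (sh i k) y := rfl
theorem capc_b (i : ℕ) (Y : ℝ) (k : ℕ) : (C.capc i Y).b k = C.b (sh i k) := rfl
theorem capc_xz (i : ℕ) (Y : ℝ) (k : ℕ) (y : ℝ) : (C.capc i Y).xz k y = C.xz (sh i k) y := rfl

end simp_lemmas

end Cfg

end Pool.Agent.SN22
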