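import Pool.Agent.SN22.Adv

/-! SN22 module CROSS (MP_1888e6_gt): a crossing of two neighbouring strands. -/

set_option autoImplicit false

namespace Pool.Agent.SN22.Cfg

private theorem cross_swap {p n j k : ℕ} (hp : p + 1 < n) (hjk : j < k) (hk : k < n) (hne : ¬ (j = p ∧ k = p + 1)) :
    Equiv.swap p (p + 1) j < Equiv.swap p (p + 1) k ∧ Equiv.swap p (p + 1) k < n ∧
      ¬ (Equiv.swap p (p + 1) j = p ∧ Equiv.swap p (p + 1) k = p + 1) := by
  rw [Equiv.swap_apply_def, Equiv.swap_apply_def]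
  split_ifs <;> omega

private theorem cross_interp (a b Y T Y₂ : ℝ) (h : Y < Y₂) :
    (1 - (T - Y) / (Y₂ - Y)) * (a + b * Y) + (T - Y) / (Y₂ - Y) * (a + b * Y₂) = a + b * T := by
  have : Y₂ - Y ≠ 0 := by linarith
  field_simp
  ring

/-- The strands `p` and `p + 1` cross at the level `T` between `Y` and `Y₂`.

Proof. All strands are sorted at level `Y`; at level `Y₂` they are sorted in the order in which `p` and `p + 1` are
exchanged (`hs`, `swp_X`). So any pair of strands other than `{p, p + 1}` keeps its order at all levels in between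
(`lt_mid`), and the strands `p`, `p + 1` have the same `x` only at level `T` (the difference is linear, nonzero at
`Y`), where their `z` differ (`hZ`). So `Pre.adv` applies, then `Pre.swp`. The set of points: `Pre.pts_adv`, with
`(C.swp p).xz (Equiv.swap p (p + 1) k) Y₂ = C.xz k Y₂`. `Morse.cross` with `r = (T - Y) / (Y₂ - Y)` in `Over`. -/
theorem Inv.cross {C : Cfg} {w : List Ev} {Y T Y₂ : ℝ} (h : C.Inv w Y) {p : ℕ} (hp : p + 1 < C.n) (o : Bool)
    (hT : Y < T) (hTY : T < Y₂) (hX : C.X p T = C.X (p + 1) T)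
    (hZ : if o = true then C.Z (p + 1) T < C.Z p T else C.Z p T < C.Z (p + 1) T)
    (hs : (C.swp p).SortedAt Y₂) :
    (C.swp p).Inv (w ++ [Ev.cross p o]) Y₂ := by
  have hYY : Y < Y₂ := hT.trans hTY
  have hord : ∀ j k, j < k → k < C.n → ¬ (j = p ∧ k = p + 1) → ∀ y, Y ≤ y → y ≤ Y₂ → C.X j y < C.X k y := by
    intro j k hjk hk hne y hy1 hy2
    obtain ⟨h1, h2, -⟩ := cross_swap hp hjk hk hne
    have h3 := hs _ _ h1 h2
    rw [swp_X, swp_X, Equiv.swap_apply_self, Equiv.swap_apply_self] at h3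
    exact lt_mid (h.sorted j k hjk hk) h3 hy1 hy2
  have hZ' : C.Z p T ≠ C.Z (p + 1) T := by
    intro he
    cases o <;> simp [he] at hZ
  have hpre : C.Pre Y₂ := by
    refine h.pre.adv hYY.le (fun j k hjk hk y hy1 hy2 he => ?_)
    have heX : C.X j y = C.X k y := congrArg (fun q : P3 => q.1) he
    have heZ : C.Z j y = C.Z k y := congrArg (fun q : P3 => q.2.2) he
    by_cases hne : j = p ∧ k = p + 1
    · obtain ⟨rfl, rfl⟩ := hne
      have h0 := h.sorted j (j + 1) hjk hk
      rw [X_eq, X_eq] at h0 heX hX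
      have hyT : y = T := by
        by_contra hyT
        have h1 : (C.b j - C.b (j + 1)) * (y - T) = 0 := by linear_combination heX - hX
        rcases mul_eq_zero.mp h1 with h2 | h2
        · have h3 : C.b j = C.b (j + 1) := by linarith
          rw [h3] at h0 hX
          linarith
        · exact hyT (by linarith)
      rw [hyT] at heZ
      exact hZ' heZ
    · exact absurd heX (hord j k hjk hk hne y hy1.le hy2).ne
  refine ⟨hpre.swp hp, hs, ?_⟩
  have hm := Morse.cross h.morse p o Y₂ (fun k => (C.swp p).xz k Y₂) hYY hs hp ?_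
  · rw [swp_pts, h.pre.pts_adv hYY]
    have hset : (⋃ k ∈ Set.Iio C.n, seg Y Y₂ (C.xz k Y) ((C.swp p).xz (Equiv.swap p (p + 1) k) Y₂)) =
        ⋃ k ∈ Set.Iio C.n, seg Y Y₂ (C.xz k Y) (C.xz k Y₂) := by
      simp only [swp_xz, Equiv.swap_apply_self]
    rw [← hset]
    exact hm
  · refine ⟨(T - Y) / (Y₂ - Y), ⟨div_pos (by linarith) (by linarith), ?_⟩, ?_, ?_⟩
    · rw [div_lt_one (by linarith)]; linarith
    · simp only [swp_xz, Equiv.swap_apply_left, Equiv.swap_apply_right]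
      change (1 - (T - Y) / (Y₂ - Y)) * (C.X p Y) + (T - Y) / (Y₂ - Y) * (C.X p Y₂) =
        (1 - (T - Y) / (Y₂ - Y)) * (C.X (p + 1) Y) + (T - Y) / (Y₂ - Y) * (C.X (p + 1) Y₂)
      simp only [X_eq] at hX ⊢
      rw [cross_interp _ _ _ _ _ hYY, cross_interp _ _ _ _ _ hYY, hX]
    · simp only [swp_xz, Equiv.swap_apply_left, Equiv.swap_apply_right]
      change if o = true then (1 - (T - Y) / (Y₂ - Y)) * (C.Z (p + 1) Y) + (T - Y) / (Y₂ - Y) * (C.Z (p + 1) Y₂) <
          (1 - (T - Y) / (Y₂ - Y)) * (C.Z p Y) + (T - Y) / (Y₂ - Y) * (C.Z p Y₂)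
        else (1 - (T - Y) / (Y₂ - Y)) * (C.Z p Y) + (T - Y) / (Y₂ - Y) * (C.Z p Y₂) <
          (1 - (T - Y) / (Y₂ - Y)) * (C.Z (p + 1) Y) + (T - Y) / (Y₂ - Y) * (C.Z (p + 1) Y₂)
      simp only [Z_eq] at hZ ⊢
      rw [cross_interp _ _ _ _ _ hYY, cross_interp _ _ _ _ _ hYY]
      exact hZ

/-- A crossing step with a short second half: it is enough to know the order at the level `T` of the crossing.
Proof: `exists_sorted_after` for the lines `F k = C.l ((C.swp p).r k)` at level `T`, then `Inv.cross`. -/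
theorem Inv.step {C : Cfg} {w : List Ev} {Y T : ℝ} (h : C.Inv w Y) {p : ℕ} (hp : p + 1 < C.n) (o : Bool)
    (hT : Y < T) (hX : C.X p T = C.X (p + 1) T)
    (hZ : if o = true then C.Z (p + 1) T < C.Z p T else C.Z p T < C.Z (p + 1) T)
    (hb : C.b (p + 1) < C.b p)
    (hs : ∀ j k, j < k → k < C.n → ¬ (j = p ∧ k = p + 1) → C.X j T < C.X k T) :
    ∃ Y₂, T < Y₂ ∧ (C.swp p).Inv (w ++ [Ev.cross p o]) Y₂ := by
  obtain ⟨Y₂, h1, -, h2⟩ := exists_sorted_after (n := C.n) (fun k => C.l ((C.swp p).r k)) T (T + 1) (by linarith) (by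
    intro j k hjk hk
    by_cases hne : j = p ∧ k = p + 1
    · obtain ⟨rfl, rfl⟩ := hne
      right
      change C.X (Equiv.swap j (j + 1) j) T = C.X (Equiv.swap j (j + 1) (j + 1)) T ∧
        C.b (Equiv.swap j (j + 1) j) < C.b (Equiv.swap j (j + 1) (j + 1))
      rw [Equiv.swap_apply_left, Equiv.swap_apply_right]
      exact ⟨hX.symm, hb⟩
    · left
      obtain ⟨h3, h4, h5⟩ := cross_swap hp hjk hk hne
      exact hs _ _ h3 h4 h5)
  exact ⟨Y₂, h1, h.cross hp o hT h1 hX hZ h2⟩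

end Pool.Agent.SN22.Cfg
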