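import Pool.Agent.SN22.Adv

/-! SN22 module CUP (MP_1888e6_gt): a local minimum. -/

set_option autoImplicit false

namespace Pool.Agent.SN22.Cfg

private theorem on_of_end' {C : Cfg} {Y : ℝ} (h : C.Pre Y) {i : ℕ} (hi : i < C.A) {y : ℝ} (he : C.End i y) :
    C.On i y := by
  rcases he with rfl | he
  · exact ⟨le_rfl, fun t ht => (h.hi_le i hi t ht).1.le⟩
  · refine ⟨(h.hi_le i hi y he).1.le, fun t ht => ?_⟩
    rw [he, Option.some.injEq] at ht
    exact ht.le

private theorem tri {i n k : ℕ} (hk : k < n + 2) (hi : i ≤ n) :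
    k = i ∨ k = i + 1 ∨ ∃ m < n, k = sh i m := by
  by_cases h1 : k < i
  · exact Or.inr (Or.inr ⟨k, by omega, by simp [sh, h1]⟩)
  · by_cases h2 : k = i
    · exact Or.inl h2
    · by_cases h3 : k = i + 1
      · exact Or.inr (Or.inl h3)
      · refine Or.inr (Or.inr ⟨k - 2, by omega, ?_⟩)
        rw [sh, if_neg (by omega)]
        omega

private theorem sh_lt {i n m : ℕ} (hm : m < n) : sh i m < n + 2 := by
  unfold sh
  split_ifs <;> omega

/-- A local minimum at the level `Y`: two new arcs on the lines `l1`, `l2` through a common point (the apex) of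
level `Y`, whose `x`-coordinate lies strictly between those of the strands `i - 1` and `i`; no closed arc ends at the
level `Y` (`hf`).

Proof. Let `C' = C.cupc i Y l1 l2`. First `C'.Pre Y`: `disj` for an old arc `j` and a new one: a common point has
level `Y` (`On` for a new arc means `Y ≤ y`), the old arc is then open (closed arcs have `hi < Y` by `hf`), i.e. a
strand, and its `x` is different from that of the apex (`hl`, `hr`): impossible; for the two new arcs both ends are
clear. `deg`: old ends as before (a new arc has an end only at level `Y`, at the apex, which is on no old arc);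
the end `Y` of the arc `C.A` has the unique partner `C.A + 1` and vice versa.
Then `Pre.adv` from `Y` to `Y₂`: all strands of `C'` are weakly sorted at level `Y` (`C.sorted`, `hl`, `hr`; the two
new ones are equal there) and strictly sorted at level `Y₂` (`hs`), so strictly sorted for `Y < y ≤ Y₂` by
`lt_mid_left`. The set: `Pre.pts_adv` for `C'`, and `C'.pts Y = C.pts Y ∪ {apex}`, the apex is in the two new
segments. `Morse.cup` with `v = l1.xz Y`, `Q k = C'.xz k Y₂`; `C'.xz (sh i k) Y₂ = C.xz k Y₂` for `k < C.n`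
(`cupc_r_sh`); the apex is not in `C.pts Y` as shown above. -/
theorem Inv.cup {C : Cfg} {w : List Ev} {Y Y₂ : ℝ} (h : C.Inv w Y)
    (hf : ∀ i < C.A, ∀ t, C.hi i = some t → t < Y) {i : ℕ} (hi : i ≤ C.n) (l1 l2 : Ln)
    (hX : l1.X Y = l2.X Y) (hZ : l1.Z Y = l2.Z Y) (hl : ∀ k, k < i → C.X k Y < l1.X Y)
    (hr : ∀ k, i ≤ k → k < C.n → l1.X Y < C.X k Y) (hY : Y < Y₂)
    (hs : (C.cupc i Y l1 l2).SortedAt Y₂) :
    (C.cupc i Y l1 l2).Inv (w ++ [Ev.cup i]) Y₂ := by
  have hp := h.pre
  have hv : l2.pt Y = l1.pt Y := by simp only [Ln.pt, hX, hZ]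
  have K : ∀ j < C.A, C.On j Y → (C.l j).pt Y ≠ l1.pt Y := by
    intro j hj hon heq
    have hx : (C.l j).X Y = l1.X Y := congrArg Prod.fst heq
    rcases hh : C.hi j with _ | t
    · obtain ⟨m, hm, rfl⟩ := hp.r_surj j hj hh
      rcases Nat.lt_or_ge m i with h1 | h1
      · exact (hl m h1).ne hx
      · exact (hr m h1 hm).ne' hx
    · exact absurd (hon.2 t hh) (not_le.2 (hf j hj t hh))
  -- `On` and `End` in the new configuration
  have hon : ∀ j < C.A, ∀ y, ((C.cupc i Y l1 l2).On j y ↔ C.On j y) := by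
    intro j hj y
    unfold On
    rw [cupc_lo C i Y l1 l2 hj, cupc_hi C i Y l1 l2 hj]
  have hend : ∀ j < C.A, ∀ y, ((C.cupc i Y l1 l2).End j y ↔ C.End j y) := by
    intro j hj y
    unfold End
    rw [cupc_lo C i Y l1 l2 hj, cupc_hi C i Y l1 l2 hj]
  have hon0 : ∀ y, (C.cupc i Y l1 l2).On C.A y → Y ≤ y := by
    rintro y ⟨h1, _⟩
    rwa [cupc_lo_A] at h1
  have hon1 : ∀ y, (C.cupc i Y l1 l2).On (C.A + 1) y → Y ≤ y := by
    rintro y ⟨h1, _⟩
    rwa [cupc_lo_A1] at h1
  have hend0 : ∀ y, (C.cupc i Y l1 l2).End C.A y ↔ y = Y := by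
    intro y
    unfold End
    rw [cupc_lo_A, cupc_hi_A]
    simp
  have hend1 : ∀ y, (C.cupc i Y l1 l2).End (C.A + 1) y ↔ y = Y := by
    intro y
    unfold End
    rw [cupc_lo_A1, cupc_hi_A1]
    simp
  have hcase : ∀ j, j < C.A + 2 → j < C.A ∨ j = C.A ∨ j = C.A + 1 := fun j hj => by omega
  have hpre : (C.cupc i Y l1 l2).Pre Y := by
    refine ⟨?_, ?_, ?_, ?_, ?_, ?_, ?_, ?_⟩
    · intro j hj
      rcases hcase j hj with hj | rfl | rfl
      · rw [cupc_lo C i Y l1 l2 hj]
        exact hp.lo_le j hj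
      · rw [cupc_lo_A]
      · rw [cupc_lo_A1]
    · intro j hj t ht
      rcases hcase j hj with hj | rfl | rfl
      · rw [cupc_lo C i Y l1 l2 hj]
        rw [cupc_hi C i Y l1 l2 hj] at ht
        exact hp.hi_le j hj t ht
      · rw [cupc_hi_A] at ht
        exact absurd ht (by simp)
      · rw [cupc_hi_A1] at ht
        exact absurd ht (by simp)
    · intro k hk
      rw [cupc_A]
      rcases tri hk hi with rfl | rfl | ⟨m, hm, rfl⟩
      · rw [cupc_r_i]
        omega
      · rw [cupc_r_i1]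
        omega
      · rw [cupc_r_sh]
        have := hp.r_lt m hm
        omega
    · intro k hk
      rcases tri hk hi with rfl | rfl | ⟨m, hm, rfl⟩
      · rw [cupc_r_i, cupc_hi_A]
      · rw [cupc_r_i1, cupc_hi_A1]
      · rw [cupc_r_sh, cupc_hi C i Y l1 l2 (hp.r_lt m hm)]
        exact hp.r_open m hm
    · intro j hj k hk e
      rcases tri hj hi with rfl | rfl | ⟨m, hm, rfl⟩
      · rcases tri hk hi with rfl | rfl | ⟨m', hm', rfl⟩
        · rfl
        · rw [cupc_r_i, cupc_r_i1] at e
          omega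
        · rw [cupc_r_i, cupc_r_sh] at e
          exact absurd e (hp.r_lt m' hm').ne'
      · rcases tri hk hi with rfl | rfl | ⟨m', hm', rfl⟩
        · rw [cupc_r_i, cupc_r_i1] at e
          omega
        · rfl
        · rw [cupc_r_i1, cupc_r_sh] at e
          have := hp.r_lt m' hm'
          omega
      · rcases tri hk hi with rfl | rfl | ⟨m', hm', rfl⟩
        · rw [cupc_r_i, cupc_r_sh] at e
          exact absurd e (hp.r_lt m hm).ne
        · rw [cupc_r_i1, cupc_r_sh] at e
          have := hp.r_lt m hm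
          omega
        · rw [cupc_r_sh, cupc_r_sh] at e
          rw [hp.r_inj m hm m' hm' e]
    · intro j hj hnone
      rcases hcase j hj with hj | rfl | rfl
      · rw [cupc_hi C i Y l1 l2 hj] at hnone
        obtain ⟨m, hm, rfl⟩ := hp.r_surj j hj hnone
        exact ⟨sh i m, sh_lt hm, cupc_r_sh C i Y l1 l2 m⟩
      · exact ⟨i, by rw [cupc_n]; omega, cupc_r_i C i Y l1 l2⟩
      · exact ⟨i + 1, by rw [cupc_n]; omega, cupc_r_i1 C i Y l1 l2⟩
    · intro j hj0 k hk0 hjk y hy oj ok e
      rcases hcase j hj0 with hj | rfl | rfl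
      · rcases hcase k hk0 with hk | rfl | rfl
        · rw [cupc_l C i Y l1 l2 hj, cupc_l C i Y l1 l2 hk] at e
          have := hp.disj j hj k hk hjk y hy ((hon j hj y).1 oj) ((hon k hk y).1 ok) e
          exact ⟨(hend j hj y).2 this.1, (hend k hk y).2 this.2⟩
        · obtain rfl : y = Y := le_antisymm hy (hon0 y ok)
          rw [cupc_l C i y l1 l2 hj, cupc_l_A] at e
          exact absurd e (K j hj ((hon j hj y).1 oj))
        · obtain rfl : y = Y := le_antisymm hy (hon1 y ok)
          rw [cupc_l C i y l1 l2 hj, cupc_l_A1, hv] at e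
          exact absurd e (K j hj ((hon j hj y).1 oj))
      · obtain rfl : y = Y := le_antisymm hy (hon0 y oj)
        rcases hcase k hk0 with hk | rfl | rfl
        · rw [cupc_l C i y l1 l2 hk, cupc_l_A] at e
          exact absurd e.symm (K k hk ((hon k hk y).1 ok))
        · exact absurd rfl hjk
        · exact ⟨(hend0 y).2 rfl, (hend1 y).2 rfl⟩
      · obtain rfl : y = Y := le_antisymm hy (hon1 y oj)
        rcases hcase k hk0 with hk | rfl | rfl
        · rw [cupc_l C i y l1 l2 hk, cupc_l_A1, hv] at e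
          exact absurd e.symm (K k hk ((hon k hk y).1 ok))
        · exact ⟨(hend1 y).2 rfl, (hend0 y).2 rfl⟩
        · exact absurd rfl hjk
    · intro j hj0 y he
      rcases hcase j hj0 with hj | rfl | rfl
      · have he' := (hend j hj y).1 he
        obtain ⟨k, ⟨⟨hk, hkj⟩, hke, hkp⟩, huniq⟩ := hp.deg j hj y he'
        refine ⟨k, ⟨⟨by rw [cupc_A]; omega, hkj⟩, (hend k hk y).2 hke, ?_⟩, ?_⟩
        · rw [cupc_l C i Y l1 l2 hj, cupc_l C i Y l1 l2 hk, hkp]
        · rintro k' ⟨⟨hk0', hk'j⟩, hk'e, hk'p⟩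
          rcases hcase k' hk0' with hk' | rfl | rfl
          · rw [cupc_l C i Y l1 l2 hj, cupc_l C i Y l1 l2 hk'] at hk'p
            exact huniq _ ⟨⟨hk', hk'j⟩, (hend k' hk' y).1 hk'e, hk'p⟩
          · obtain rfl := (hend0 y).1 hk'e
            rw [cupc_l C i y l1 l2 hj, cupc_l_A] at hk'p
            exact absurd hk'p.symm (K j hj (on_of_end' hp hj he'))
          · obtain rfl := (hend1 y).1 hk'e
            rw [cupc_l C i y l1 l2 hj, cupc_l_A1, hv] at hk'p
            exact absurd hk'p.symm (K j hj (on_of_end' hp hj he'))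
      · obtain rfl := (hend0 y).1 he
        refine ⟨C.A + 1, ⟨⟨by rw [cupc_A]; omega, by omega⟩, (hend1 y).2 rfl, ?_⟩, ?_⟩
        · rw [cupc_l_A, cupc_l_A1, hv]
        · rintro k' ⟨⟨hk0', hk'j⟩, hk'e, hk'p⟩
          rcases hcase k' hk0' with hk' | rfl | rfl
          · rw [cupc_l C i y l1 l2 hk', cupc_l_A] at hk'p
            exact absurd hk'p (K k' hk' (on_of_end' hp hk' ((hend k' hk' y).1 hk'e)))
          · exact absurd rfl hk'j
          · rfl
      · obtain rfl := (hend1 y).1 he
        refine ⟨C.A, ⟨⟨by rw [cupc_A]; omega, by omega⟩, (hend0 y).2 rfl, ?_⟩, ?_⟩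
        · rw [cupc_l_A, cupc_l_A1, hv]
        · rintro k' ⟨⟨hk0', hk'j⟩, hk'e, hk'p⟩
          rcases hcase k' hk0' with hk' | rfl | rfl
          · rw [cupc_l C i y l1 l2 hk', cupc_l_A1, hv] at hk'p
            exact absurd hk'p (K k' hk' (on_of_end' hp hk' ((hend k' hk' y).1 hk'e)))
          · rfl
          · exact absurd rfl hk'j
  -- the coordinates of the strands
  have xz0 : ∀ y, (C.cupc i Y l1 l2).xz i y = l1.xz y := by
    intro y
    simp only [xz, cupc_r_i, cupc_l_A]
  have xz1 : ∀ y, (C.cupc i Y l1 l2).xz (i + 1) y = l2.xz y := by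
    intro y
    simp only [xz, cupc_r_i1, cupc_l_A1]
  have xzs : ∀ m < C.n, ∀ y, (C.cupc i Y l1 l2).xz (sh i m) y = C.xz m y := by
    intro m hm y
    simp only [xz, cupc_r_sh, cupc_l C i Y l1 l2 (hp.r_lt m hm)]
  have X0 : ∀ y, (C.cupc i Y l1 l2).X i y = l1.X y := fun y => congrArg Prod.fst (xz0 y)
  have X1 : ∀ y, (C.cupc i Y l1 l2).X (i + 1) y = l2.X y := fun y => congrArg Prod.fst (xz1 y)
  have Xs : ∀ m < C.n, ∀ y, (C.cupc i Y l1 l2).X (sh i m) y = C.X m y := fun m hm y =>
    congrArg Prod.fst (xzs m hm y)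
  have hweak : ∀ j k, j < k → k < C.n + 2 → (C.cupc i Y l1 l2).X j Y ≤ (C.cupc i Y l1 l2).X k Y := by
    intro j k hjk hk
    rcases tri (hjk.trans hk) hi with rfl | rfl | ⟨m, hm, rfl⟩
    · rcases tri hk hi with rfl | rfl | ⟨m', hm', rfl⟩
      · omega
      · rw [X0, X1]
        exact hX.le
      · rw [X0, Xs m' hm']
        refine (hr m' ?_ hm').le
        unfold sh at hjk
        split_ifs at hjk <;> omega
    · rcases tri hk hi with rfl | rfl | ⟨m', hm', rfl⟩
      · omega
      · omega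
      · rw [X1, Xs m' hm', ← hX]
        refine (hr m' ?_ hm').le
        unfold sh at hjk
        split_ifs at hjk <;> omega
    · rcases tri hk hi with rfl | rfl | ⟨m', hm', rfl⟩
      · rw [X0, Xs m hm]
        refine (hl m ?_).le
        unfold sh at hjk
        split_ifs at hjk <;> omega
      · rw [X1, Xs m hm, ← hX]
        refine (hl m ?_).le
        unfold sh at hjk
        split_ifs at hjk <;> omega
      · rw [Xs m hm, Xs m' hm']
        refine (h.sorted m m' ?_ hm').le
        unfold sh at hjk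
        split_ifs at hjk <;> omega
  have hadv : (C.cupc i Y l1 l2).Pre Y₂ := by
    refine hpre.adv hY.le fun j k hjk hk y h1 h2 e => ?_
    have := lt_mid_left (hweak j k hjk hk) (hs j k hjk hk) h1 h2
    exact this.ne (congrArg Prod.fst e)
  refine ⟨hadv, hs, ?_⟩
  have hmem : l1.pt Y ∈ seg Y Y₂ (l1.xz Y) (l1.xz Y₂) := left_mem_segment ℝ _ _
  have hset : (C.cupc i Y l1 l2).pts Y₂ = C.pts Y ∪
      ((⋃ k ∈ Set.Iio C.n, seg Y Y₂ (C.xz k Y) ((C.cupc i Y l1 l2).xz (sh i k) Y₂)) ∪
        (seg Y Y₂ (l1.xz Y) ((C.cupc i Y l1 l2).xz i Y₂) ∪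
          seg Y Y₂ (l1.xz Y) ((C.cupc i Y l1 l2).xz (i + 1) Y₂))) := by
    have hxz12 : l2.xz Y = l1.xz Y := Prod.ext hX.symm hZ.symm
    rw [hpre.pts_adv hY]
    ext p
    constructor
    · rintro (⟨j, hj, y, hy, oj, rfl⟩ | hp2)
      · rcases hcase j hj with hj | rfl | rfl
        · left
          exact ⟨j, hj, y, hy, (hon j hj y).1 oj, by rw [cupc_l C i Y l1 l2 hj]⟩
        · obtain rfl : y = Y := le_antisymm hy (hon0 y oj)
          right; right; left
          rw [cupc_l_A, xz0]
          exact hmem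
        · obtain rfl : y = Y := le_antisymm hy (hon1 y oj)
          right; right; left
          rw [cupc_l_A1, hv, xz0]
          exact hmem
      · simp only [Set.mem_iUnion, Set.mem_Iio, exists_prop] at hp2
        obtain ⟨k, hk, hk2⟩ := hp2
        rcases tri hk hi with rfl | rfl | ⟨m, hm, rfl⟩
        · right; right; left
          rw [xz0] at hk2
          exact hk2
        · right; right; right
          rw [xz1, hxz12] at hk2
          exact hk2
        · right; left
          rw [xzs m hm] at hk2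
          simp only [Set.mem_iUnion, Set.mem_Iio, exists_prop]
          exact ⟨m, hm, hk2⟩
    · rintro (⟨j, hj, y, hy, oj, rfl⟩ | hp2 | hp2 | hp2)
      · left
        exact ⟨j, by rw [cupc_A]; omega, y, hy, (hon j hj y).2 oj, by rw [cupc_l C i Y l1 l2 hj]⟩
      · right
        simp only [Set.mem_iUnion, Set.mem_Iio, exists_prop] at hp2 ⊢
        obtain ⟨m, hm, hm2⟩ := hp2
        exact ⟨sh i m, sh_lt hm, by rw [xzs m hm Y]; exact hm2⟩
      · right
        simp only [Set.mem_iUnion, Set.mem_Iio, exists_prop]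
        exact ⟨i, by rw [cupc_n]; omega, by rw [xz0 Y]; exact hp2⟩
      · right
        simp only [Set.mem_iUnion, Set.mem_Iio, exists_prop]
        exact ⟨i + 1, by rw [cupc_n]; omega, by rw [xz1 Y, hxz12]; exact hp2⟩
  rw [hset]
  refine Morse.cup h.morse i (l1.xz Y) Y₂ (fun k => (C.cupc i Y l1 l2).xz k Y₂) hY
    ((sortedAt_iff _ _).1 hs) hi (fun k hk => hl k hk) (fun k h1 h2 => hr k h1 h2) ?_
  rintro ⟨j, hj, y, hy, oj, e⟩
  have hy' : y = Y := (congrArg (fun q : P3 => q.2.1) e).symm
  subst hy'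
  exact K j hj oj e.symm

end Pool.Agent.SN22.Cfg
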