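import Mathlib

/-!
# Polygonal links and Morse presentations (MP_1888e6_gt, helper22)

Goal (Main): a link diagram given by a Morse word (a sequence of local minima `cup`, local maxima `cap` and crossings,
from bottom to top) with `b` local minima, whose crossings are grouped into `r` passes (one strand passes over, or
under, several consecutive strands), is realised by a polygonal link in `ℝ³` with at most `r + 3 b` edges.

Points of space are triples `(x, y, z)`; the diagram is the projection to the `(x, y)`-plane, `y` is the height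
function of the Morse presentation, `z` decides which strand is over.
-/

set_option autoImplicit false

namespace Pool.Agent.SN22

/-- points of space -/
abbrev P3 := ℝ × ℝ × ℝ

/-- `L` is a closed polygonal link with `N` edges: it is the union of `N` segments, two different segments meet only
in common end points, and each end point of a segment is an end point of exactly one other segment. -/
def IsPolyLink (L : Set P3) (N : ℕ) : Prop :=
  ∃ a b : Fin N → P3, (∀ i, a i ≠ b i) ∧ (L = ⋃ i, segment ℝ (a i) (b i)) ∧
    (∀ i j, i ≠ j → ∀ p ∈ segment ℝ (a i) (b i), p ∈ segment ℝ (a j) (b j) →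
      (p = a i ∨ p = b i) ∧ (p = a j ∨ p = b j)) ∧
    ∀ i, ∀ p, (p = a i ∨ p = b i) → ∃! j, j ≠ i ∧ (p = a j ∨ p = b j)

/-- Events of a Morse presentation, read from bottom to top; the strands are numbered `0, 1, 2, ...` from left to
right.
* `cup i`: a local minimum is born, its two branches become the strands `i` and `i + 1`;
* `cap i`: the strands `i` and `i + 1` are joined by a local maximum;
* `cross i o`: the strands `i` and `i + 1` cross; `o = true` means that the strand going up from left to right is the
  upper one. -/
inductive Ev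
  | cup (i : ℕ)
  | cap (i : ℕ)
  | cross (i : ℕ) (o : Bool)

/-- the number of strands above the word `w` if there are `n` strands below it (`none` if `w` does not make sense) -/
def run : ℕ → List Ev → Option ℕ
  | n, [] => some n
  | n, Ev.cup i :: w => if i ≤ n then run (n + 2) w else none
  | n, Ev.cap i :: w => if i + 1 < n then run (n - 2) w else none
  | n, Ev.cross i _ :: w => if i + 1 < n then run n w else none

/-- the segment from the point `p` of level `s` to the point `q` of level `t` -/
def seg (s t : ℝ) (p q : ℝ × ℝ) : Set P3 := segment ℝ ((p.1, s, p.2) : P3) (q.1, t, q.2)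

/-- the points `P 0, ..., P (n - 1)` are sorted from left to right -/
def Sorted (n : ℕ) (P : ℕ → ℝ × ℝ) : Prop := ∀ j k, j < k → k < n → (P j).1 < (P k).1

/-- renumbering of the strands when two strands `i`, `i + 1` appear or disappear -/
def sh (i k : ℕ) : ℕ := if k < i then k else k + 2

/-- at the crossing of the segments from `p` to `q` and from `p'` to `q'` the first one is over (`o = true`) or under
(`o = false`) -/
def Over (p q p' q' : ℝ × ℝ) (o : Bool) : Prop :=
  ∃ r ∈ Set.Ioo (0 : ℝ) 1, (1 - r) * p.1 + r * q.1 = (1 - r) * p'.1 + r * q'.1 ∧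
    if o = true then (1 - r) * p'.2 + r * q'.2 < (1 - r) * p.2 + r * q.2
    else (1 - r) * p.2 + r * q.2 < (1 - r) * p'.2 + r * q'.2

/-- `Morse w t S n P`: the set `S` is the part below the level `y = t` of a polygonal link, this part has the Morse
word `w`, and it meets the level `t` (apart from local maxima at this level) in the `n` points `(x, z) = P 0, ...,
P (n - 1)`, sorted from left to right. The set is built from slabs between consecutive levels `s < t` in which the
link consists of straight segments from level `s` to level `t`; there is at most one event in each slab. -/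
inductive Morse : List Ev → ℝ → Set P3 → ℕ → (ℕ → ℝ × ℝ) → Prop
  | nil (t : ℝ) (P : ℕ → ℝ × ℝ) : Morse [] t ∅ 0 P
  | idle {w : List Ev} {s : ℝ} {S : Set P3} {n : ℕ} {P : ℕ → ℝ × ℝ} (h : Morse w s S n P) (t : ℝ) (Q : ℕ → ℝ × ℝ)
      (hst : s < t) (hQ : Sorted n Q) :
      Morse w t (S ∪ ⋃ k ∈ Set.Iio n, seg s t (P k) (Q k)) n Q
  | cross {w : List Ev} {s : ℝ} {S : Set P3} {n : ℕ} {P : ℕ → ℝ × ℝ} (h : Morse w s S n P) (i : ℕ) (o : Bool)
      (t : ℝ) (Q : ℕ → ℝ × ℝ) (hst : s < t) (hQ : Sorted n Q) (hi : i + 1 < n)
      (ho : Over (P i) (Q (i + 1)) (P (i + 1)) (Q i) o) :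
      Morse (w ++ [Ev.cross i o]) t (S ∪ ⋃ k ∈ Set.Iio n, seg s t (P k) (Q (Equiv.swap i (i + 1) k))) n Q
  | cup {w : List Ev} {s : ℝ} {S : Set P3} {n : ℕ} {P : ℕ → ℝ × ℝ} (h : Morse w s S n P) (i : ℕ) (v : ℝ × ℝ)
      (t : ℝ) (Q : ℕ → ℝ × ℝ) (hst : s < t) (hQ : Sorted (n + 2) Q) (hi : i ≤ n)
      (hl : ∀ k < i, (P k).1 < v.1) (hr : ∀ k, i ≤ k → k < n → v.1 < (P k).1)
      (hv : ((v.1, s, v.2) : P3) ∉ S) :
      Morse (w ++ [Ev.cup i]) t
        (S ∪ ((⋃ k ∈ Set.Iio n, seg s t (P k) (Q (sh i k))) ∪ (seg s t v (Q i) ∪ seg s t v (Q (i + 1))))) (n + 2) Q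
  | cap {w : List Ev} {s : ℝ} {S : Set P3} {n : ℕ} {P : ℕ → ℝ × ℝ} (h : Morse w s S (n + 2) P) (i : ℕ) (v : ℝ × ℝ)
      (t : ℝ) (Q : ℕ → ℝ × ℝ) (hst : s < t) (hQ : Sorted n Q) (hi : i ≤ n)
      (hl : ∀ k < i, (Q k).1 < v.1) (hr : ∀ k, i ≤ k → k < n → v.1 < (Q k).1) :
      Morse (w ++ [Ev.cap i]) t
        (S ∪ ((⋃ k ∈ Set.Iio n, seg s t (P (sh i k)) (Q k)) ∪ (seg s t (P i) v ∪ seg s t (P (i + 1)) v))) n Q

/-- `L` is a polygonal link whose projection has the Morse word `w` -/
def HasWord (L : Set P3) (w : List Ev) : Prop := ∃ t P, Morse w t L 0 P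

/-- Pieces of Morse words.
* `right i k o`: the strand `i` goes to the right, over (`o = true`) or under (`o = false`) the next `k + 1` strands;
* `left i k o`: the strand `i + k + 1` goes to the left to the position `i`, under (`o = true`) or over (`o = false`)
  `k + 1` strands;
* `cupL i k o`: a local minimum is born and its left branch goes directly to the left to the position `i`, under
  (`o = true`) or over (`o = false`) `k + 1` strands;
* `cupR i k o`: a local minimum is born and its right branch goes directly to the right, from the position `i + 1`,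
  over (`o = true`) or under (`o = false`) `k + 1` strands;
* `cupLR i o o'`: a local minimum is born, its left branch directly crosses one strand, its right branch one strand. -/
inductive Piece
  | cup (i : ℕ)
  | cap (i : ℕ)
  | right (i k : ℕ) (o : Bool)
  | left (i k : ℕ) (o : Bool)
  | cupL (i k : ℕ) (o : Bool)
  | cupR (i k : ℕ) (o : Bool)
  | cupLR (i : ℕ) (o o' : Bool)

/-- the crossings of the piece `right i k o` -/
def goR (i k : ℕ) (o : Bool) : List Ev := (List.range (k + 1)).map fun j => Ev.cross (i + j) o

/-- the crossings of the piece `left i k o` -/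
def goL (i k : ℕ) (o : Bool) : List Ev := (List.range (k + 1)).map fun j => Ev.cross (i + (k - j)) o

/-- the word of a piece -/
def Piece.word : Piece → List Ev
  | .cup i => [Ev.cup i]
  | .cap i => [Ev.cap i]
  | .right i k o => goR i k o
  | .left i k o => goL i k o
  | .cupL i k o => Ev.cup (i + k + 1) :: goL i k o
  | .cupR i k o => Ev.cup i :: goR (i + 1) k o
  | .cupLR i o o' => [Ev.cup (i + 1), Ev.cross i o, Ev.cross (i + 2) o']

/-- the number of passes of a piece (those of the branches of a local minimum are not counted) -/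
def Piece.passes : Piece → ℕ
  | .right _ _ _ => 1
  | .left _ _ _ => 1
  | _ => 0

/-- the number of local minima of a piece -/
def Piece.minima : Piece → ℕ
  | .cup _ => 1
  | .cupL _ _ _ => 1
  | .cupR _ _ _ => 1
  | .cupLR _ _ _ => 1
  | _ => 0

end Pool.Agent.SN22
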