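import Pool.Agent.SN22.Adv

/-! SN22 module FIN (MP_1888e6_gt): a configuration without strands is a polygonal link. -/

set_option autoImplicit false

namespace Pool.Agent.SN22.Cfg

/-- Proof. With `C.n = 0` every arc `i < C.A` is closed (`r_surj`), so `hi i = some (t i)` with
`lo i < t i ≤ Y`. Take `a i = (C.l i).pt (C.lo i)`, `b i = (C.l i).pt (t i)` (`i : Fin C.A`). They differ in the second
coordinate; the segment from `a i` to `b i` is the set of the points `(C.l i).pt y`, `lo i ≤ y ≤ t i`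
(`seg_line`, unfold `seg`, `Ln.xz`, `Ln.pt`); the remaining conditions of `IsPolyLink` are `Pre.disj` and `Pre.deg`
(a point on two arcs has the same level, its second coordinate, on both of them). `HasWord`: `⟨Y, _, h.morse⟩`. -/
theorem Inv.fin {C : Cfg} {w : List Ev} {Y : ℝ} (h : C.Inv w Y) (hn : C.n = 0) :
    IsPolyLink (C.pts Y) C.A ∧ HasWord (C.pts Y) w := by
  have hm := h.morse
  rw [hn] at hm
  refine ⟨?_, ⟨Y, _, hm⟩⟩
  have hp := h.pre
  obtain ⟨t, ht⟩ : ∃ t : ℕ → ℝ, ∀ i < C.A, C.hi i = some (t i) := by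
    refine ⟨fun i => (C.hi i).getD 0, fun i hi => ?_⟩
    rcases hc : C.hi i with _ | y
    · obtain ⟨k, hk, _⟩ := hp.r_surj i hi hc
      omega
    · change some y = some ((C.hi i).getD 0)
      rw [hc]
      rfl
  have hlt : ∀ i < C.A, C.lo i < t i ∧ t i ≤ Y := fun i hi => hp.hi_le i hi _ (ht i hi)
  have hseg : ∀ i < C.A, segment ℝ ((C.l i).pt (C.lo i)) ((C.l i).pt (t i)) =
      {p | ∃ y, C.lo i ≤ y ∧ y ≤ t i ∧ p = (C.l i).pt y} := by
    intro i hi
    exact seg_line (C.l i) (hlt i hi).1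
  have hon : ∀ i < C.A, ∀ y, C.On i y ↔ C.lo i ≤ y ∧ y ≤ t i := by
    intro i hi y
    unfold On
    rw [ht i hi]
    constructor
    · rintro ⟨h1, h2⟩
      exact ⟨h1, h2 _ rfl⟩
    · rintro ⟨h1, h2⟩
      refine ⟨h1, fun h h3 => ?_⟩
      rw [← Option.some.inj h3]
      exact h2
  have hend : ∀ i < C.A, ∀ y, C.End i y ↔ y = C.lo i ∨ y = t i := by
    intro i hi y
    unfold End
    rw [ht i hi]
    constructor
    · rintro (h1 | h1)
      · exact Or.inl h1
      · exact Or.inr (Option.some.inj h1).symm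
    · rintro (h1 | h1)
      · exact Or.inl h1
      · exact Or.inr (by rw [h1])
  have hpt : ∀ (l m : Ln) (y z : ℝ), l.pt y = m.pt z → y = z := by
    intro l m y z hyz
    exact congrArg (fun q : P3 => q.2.1) hyz
  refine ⟨fun i => (C.l i).pt (C.lo i), fun i => (C.l i).pt (t i), ?_, ?_, ?_, ?_⟩
  · intro i hi
    exact (hlt i i.2).1.ne (hpt _ _ _ _ hi)
  · ext p
    rw [Set.mem_iUnion]
    constructor
    · rintro ⟨i, hi, y, hy, h1, h2⟩
      refine ⟨⟨i, hi⟩, ?_⟩
      simp only [hseg i hi]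
      rw [hon i hi] at h1
      exact ⟨y, h1.1, h1.2, h2⟩
    · rintro ⟨i, hi⟩
      simp only [hseg i i.2] at hi
      obtain ⟨y, h1, h2, h3⟩ := hi
      exact ⟨i, i.2, y, h2.trans (hlt i i.2).2, (hon i i.2 y).2 ⟨h1, h2⟩, h3⟩
  · intro i j hij p hpi hpj
    simp only [hseg i i.2] at hpi
    simp only [hseg j j.2] at hpj
    obtain ⟨y, h1, h2, h3⟩ := hpi
    obtain ⟨z, k1, k2, k3⟩ := hpj
    have hyz : y = z := hpt _ _ _ _ (h3.symm.trans k3)
    subst hyz
    have hne : (i : ℕ) ≠ (j : ℕ) := fun e => hij (Fin.ext e)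
    obtain ⟨e1, e2⟩ := hp.disj i i.2 j j.2 hne y (h2.trans (hlt i i.2).2)
      ((hon i i.2 y).2 ⟨h1, h2⟩) ((hon j j.2 y).2 ⟨k1, k2⟩) (h3.symm.trans k3)
    rw [hend i i.2] at e1
    rw [hend j j.2] at e2
    constructor
    · rcases e1 with e1 | e1
      · left
        rw [h3, e1]
      · right
        rw [h3, e1]
    · rcases e2 with e2 | e2
      · left
        rw [k3, e2]
      · right
        rw [k3, e2]
  · intro i p hpi
    obtain ⟨y, hy, hpy⟩ : ∃ y, C.End i y ∧ p = (C.l i).pt y := by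
      rcases hpi with e | e
      · exact ⟨C.lo i, Or.inl rfl, e⟩
      · exact ⟨t i, (hend i i.2 _).2 (Or.inr rfl), e⟩
    obtain ⟨j, ⟨⟨h1, h2⟩, h3, h4⟩, h5⟩ := hp.deg i i.2 y hy
    refine ⟨⟨j, h1⟩, ⟨fun e => h2 (congrArg Fin.val e), ?_⟩, ?_⟩
    · rw [hend j h1] at h3
      rcases h3 with h3 | h3
      · left
        change p = (C.l j).pt (C.lo j)
        rw [hpy, ← h4, h3]
      · right
        change p = (C.l j).pt (t j)
        rw [hpy, ← h4, h3]
    · rintro k ⟨k1, k2⟩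
      refine Fin.ext (h5 k ⟨⟨k.2, fun e => k1 (Fin.ext e)⟩, ?_⟩)
      rcases k2 with k2 | k2
      · have e : y = C.lo k := hpt _ _ _ _ (hpy.symm.trans k2)
        refine ⟨Or.inl e, ?_⟩
        rw [← hpy, k2, e]
      · have e : y = t k := hpt _ _ _ _ (hpy.symm.trans k2)
        refine ⟨(hend k k.2 y).2 (Or.inr e), ?_⟩
        rw [← hpy, k2, e]

end Pool.Agent.SN22.Cfg
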