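import Pool.Agent.SN22.Cfg

/-! SN22 module GEO (MP_1888e6_gt): segments of lines, interpolation of linear inequalities, choice of slopes.
All statements are elementary; proofs in the comments. -/

set_option autoImplicit false

namespace Pool.Agent.SN22

/-- the segment of a line between two levels. Proof: `segment ℝ p q = {(1 - r) p + r q | r ∈ [0,1]}`
(`segment_eq_image`); the parameter is `r = (y - s) / (t - s)`. -/
theorem seg_line (l : Ln) {s t : ℝ} (h : s < t) :
    seg s t (l.xz s) (l.xz t) = {p | ∃ y, s ≤ y ∧ y ≤ t ∧ p = l.pt y} := by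
  have hst : 0 < t - s := sub_pos.2 h
  ext p
  simp only [seg, segment_eq_image, Set.mem_image, Set.mem_ofPred_eq, Set.mem_Icc]
  constructor
  · rintro ⟨r, ⟨h0, h1⟩, rfl⟩
    refine ⟨(1 - r) * s + r * t, by nlinarith, by nlinarith, ?_⟩
    simp only [Ln.pt, Ln.xz, Ln.X, Ln.Z, Prod.smul_mk, Prod.mk_add_mk, smul_eq_mul, Prod.mk.injEq]
    refine ⟨by ring, trivial, by ring⟩
  · rintro ⟨y, h0, h1, rfl⟩
    refine ⟨(y - s) / (t - s), ⟨div_nonneg (by linarith) hst.le, (div_le_one hst).2 (by linarith)⟩, ?_⟩
    simp only [Ln.pt, Ln.xz, Ln.X, Ln.Z, Prod.smul_mk, Prod.mk_add_mk, smul_eq_mul, Prod.mk.injEq]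
    have hne : t - s ≠ 0 := hst.ne'
    refine ⟨?_, ?_, ?_⟩ <;> (field_simp; ring)

/-- interpolation. Proof: the difference of the two sides is linear in `y`. -/
theorem lt_mid {l m : Ln} {s t y : ℝ} (hs : l.X s < m.X s) (ht : l.X t < m.X t) (h1 : s ≤ y) (h2 : y ≤ t) :
    l.X y < m.X y := by
  simp only [Ln.X] at *
  rcases le_total l.b m.b with hb | hb <;> nlinarith

theorem lt_mid_left {l m : Ln} {s t y : ℝ} (hs : l.X s ≤ m.X s) (ht : l.X t < m.X t) (h1 : s < y) (h2 : y ≤ t) :
    l.X y < m.X y := by
  simp only [Ln.X] at *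
  rcases le_or_gt l.b m.b with hb | hb
  · rcases hb.lt_or_eq with hb | hb
    · nlinarith
    · rw [hb] at hs ht ⊢
      linarith
  · nlinarith

theorem lt_mid_right {l m : Ln} {s t y : ℝ} (hs : l.X s < m.X s) (ht : l.X t ≤ m.X t) (h1 : s ≤ y) (h2 : y < t) :
    l.X y < m.X y := by
  simp only [Ln.X] at *
  rcases le_or_gt m.b l.b with hb | hb
  · rcases hb.lt_or_eq with hb | hb
    · nlinarith
    · rw [hb] at hs ht ⊢
      linarith
  · nlinarith

/-- lines sorted (weakly) at level `T` such that lines meeting at this level have increasing slopes are strictly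
sorted at all levels slightly above `T`. Proof: for each pair `j < k < n` the inequality holds for all `y > T` close to
`T` (continuity, or linearity), and there are finitely many pairs; e.g. induct on `n`, or use `Filter.Eventually` in
`nhdsWithin T (Set.Ioi T)` and `Finset.eventually_all` over `Finset.range n ×ˢ Finset.range n`. -/
theorem exists_sorted_after {n : ℕ} (F : ℕ → Ln) (T ub : ℝ) (hub : T < ub)
    (hs : ∀ j k, j < k → k < n → (F j).X T < (F k).X T ∨ ((F j).X T = (F k).X T ∧ (F j).b < (F k).b)) :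
    ∃ y, T < y ∧ y < ub ∧ ∀ j k, j < k → k < n → (F j).X y < (F k).X y := by
  have h1 : ∀ j ∈ Finset.range n, ∀ k ∈ Finset.range n, ∀ᶠ y in nhdsWithin T (Set.Ioi T),
      (j < k → (F j).X y < (F k).X y) := by
    intro j _ k hk
    rw [Finset.mem_range] at hk
    by_cases hjk : j < k
    · rcases hs j k hjk hk with h | ⟨h, hb⟩
      · have hc : Filter.Tendsto (fun y => (F k).X y - (F j).X y) (nhdsWithin T (Set.Ioi T))
            (nhds ((F k).X T - (F j).X T)) := by
          have : Continuous (fun y => (F k).X y - (F j).X y) := by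
            unfold Ln.X
            fun_prop
          exact (this.tendsto T).mono_left nhdsWithin_le_nhds
        have := hc.eventually (lt_mem_nhds (sub_pos.2 h))
        filter_upwards [this] with y hy _
        exact sub_pos.1 hy
      · filter_upwards [self_mem_nhdsWithin] with y hy _
        rw [Set.mem_Ioi] at hy
        simp only [Ln.X] at *
        nlinarith
    · exact Filter.Eventually.of_forall fun y h => absurd h hjk
  have h2 : ∀ᶠ y in nhdsWithin T (Set.Ioi T), ∀ j ∈ Finset.range n, ∀ k ∈ Finset.range n,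
      (j < k → (F j).X y < (F k).X y) := by
    rw [Filter.eventually_all_finset]
    intro j hj
    rw [Filter.eventually_all_finset]
    exact fun k hk => h1 j hj k hk
  have h3 : ∀ᶠ y in nhdsWithin T (Set.Ioi T), y ∈ Set.Ioo T ub := Ioo_mem_nhdsGT hub
  obtain ⟨y, h4, h5⟩ := (h2.and h3).exists
  refine ⟨y, h5.1, h5.2, fun j k hjk hk => h4 j ?_ k ?_ hjk⟩
  · exact Finset.mem_range.2 (by omega)
  · exact Finset.mem_range.2 hk

/-- a gap between the values number `q - 1` and `q` of an increasing finite sequence. Proof: three cases: `q = 0`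
(take `v` below `f 0` if `n > 0`), `q ≥ n` (take `u` above `f (n - 1)`), `0 < q < n` (take `u`, `v` with
`f (q - 1) < u < v < f q`). -/
theorem gap {n : ℕ} (f : ℕ → ℝ) (hf : ∀ j k, j < k → k < n → f j < f k) (q : ℕ) :
    ∃ u v : ℝ, u < v ∧ (∀ j, j < q → j < n → f j < u) ∧ (∀ k, q ≤ k → k < n → v < f k) := by
  have hm : ∀ j k, j ≤ k → k < n → f j ≤ f k := fun j k h1 h2 => by
    rcases h1.lt_or_eq with h | h
    · exact (hf j k h h2).le
    · rw [h]
  rcases Nat.eq_zero_or_pos q with rfl | hq
  · refine ⟨f 0 - 2, f 0 - 1, by linarith, fun j hj => absurd hj (Nat.not_lt_zero _), fun k _ hk => ?_⟩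
    have := hm 0 k (Nat.zero_le _) hk
    linarith
  · rcases le_or_gt n q with hn | hn
    · refine ⟨f (n - 1) + 1, f (n - 1) + 2, by linarith, fun j _ hj => ?_, fun k h1 h2 => by omega⟩
      have := hm j (n - 1) (by omega) (by omega)
      linarith
    · have h1 := hf (q - 1) q (by omega) hn
      refine ⟨f (q - 1) + (f q - f (q - 1)) / 3, f (q - 1) + 2 * (f q - f (q - 1)) / 3, by linarith,
        fun j hj hjn => ?_, fun k hk hkn => ?_⟩
      · have := hm j (q - 1) (by omega) (by omega)
        linarith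
      · have := hm q k hk hkn
        linarith

/-- choice of the slope `d = dz/dy` of a line that has to pass over (`o = true`) or under (`o = false`) finitely
many other lines. Proof: let `τ = (X_m(Y) - x) / (b - b_m) > 0`; the two lines have the same `x` exactly at the level
`y = Y + τ`, where the new line has `z`-coordinate `z + d τ`. So (for `o = true`) it suffices that
`d > (Z_m(Y + τ) - z) / τ` for the finitely many `m` (`Finset.exists_le` or induction on the finset). -/
theorem exists_d (F : ℕ → Ln) (s : Finset ℕ) (Y x z b : ℝ) (o : Bool)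
    (hs : ∀ m ∈ s, 0 < ((F m).X Y - x) * (b - (F m).b)) :
    ∃ d : ℝ, ∀ m ∈ s, ∀ y, (thr Y x z b d).X y = (F m).X y →
      if o = true then (F m).Z y < (thr Y x z b d).Z y else (thr Y x z b d).Z y < (F m).Z y := by
  let τ : ℕ → ℝ := fun m => ((F m).X Y - x) / (b - (F m).b)
  let D : ℕ → ℝ := fun m => ((F m).Z (Y + τ m) - z) / τ m
  have hτ : ∀ m ∈ s, 0 < τ m := by
    intro m hm
    have h := hs m hm
    rcases pos_and_pos_or_neg_and_neg_of_mul_pos h with ⟨h1, h2⟩ | ⟨h1, h2⟩
    · exact div_pos h1 h2
    · exact div_pos_of_neg_of_neg h1 h2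
  have hy : ∀ m ∈ s, ∀ d y, (thr Y x z b d).X y = (F m).X y → y = Y + τ m := by
    intro m hm d y h
    have h1 := hs m hm
    have hne : b - (F m).b ≠ 0 := by
      intro h0
      rw [h0, mul_zero] at h1
      exact lt_irrefl _ h1
    rw [thr_X] at h
    simp only [τ]
    simp only [Ln.X] at h ⊢
    field_simp
    linarith
  have hz : ∀ m ∈ s, (F m).Z (Y + τ m) = z + D m * τ m := by
    intro m hm
    have h1 := (hτ m hm).ne'
    simp only [D]
    field_simp
    ring
  cases o
  · obtain ⟨d, hd⟩ : ∃ d : ℝ, ∀ m ∈ s, d < D m := by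
      obtain ⟨M, hM⟩ := (s.image fun m => - D m).exists_le
      refine ⟨-M - 1, fun m hm => ?_⟩
      have := hM (- D m) (Finset.mem_image_of_mem _ hm)
      linarith
    refine ⟨d, fun m hm y h => ?_⟩
    rw [if_neg (by simp)]
    rw [hy m hm d y h, thr_Z, hz m hm]
    have := mul_lt_mul_of_pos_right (hd m hm) (hτ m hm)
    simpa using this
  · obtain ⟨d, hd⟩ : ∃ d : ℝ, ∀ m ∈ s, D m < d := by
      obtain ⟨M, hM⟩ := (s.image D).exists_le
      refine ⟨M + 1, fun m hm => ?_⟩
      have := hM (D m) (Finset.mem_image_of_mem _ hm)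
      linarith
    refine ⟨d, fun m hm y h => ?_⟩
    rw [if_pos rfl]
    rw [hy m hm d y h, thr_Z, hz m hm]
    have := mul_lt_mul_of_pos_right (hd m hm) (hτ m hm)
    simpa using this

end Pool.Agent.SN22
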