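import Pool.Agent.SN22.BCup
import Pool.Agent.SN22.BCap
import Pool.Agent.SN22.BRight
import Pool.Agent.SN22.BLeft
import Pool.Agent.SN22.BCupL
import Pool.Agent.SN22.BCupR
import Pool.Agent.SN22.BCupLR
import Pool.Agent.SN22.Fin

/-! SN22 Main (MP_1888e6_gt, helper22): assembly. -/

set_option autoImplicit false

namespace Pool.Agent.SN22

open Cfg

theorem run_append (n : ℕ) (w w' : List Ev) : run n (w ++ w') = (run n w).bind fun m => run m w' := by
  induction w generalizing n with
  | nil => rfl
  | cons e w ih => cases e <;> simp only [List.cons_append, run] <;> split_ifs <;> simp [ih]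

/-- number of maxima of a piece -/
def Piece.maxima : Piece → ℕ
  | .cap _ => 1
  | _ => 0

theorem run_crosses {n : ℕ} {o : Bool} {m : ℕ} (L : List ℕ) (h : run n (L.map fun j => Ev.cross j o) = some m) :
    (∀ j ∈ L, j + 1 < n) ∧ m = n := by
  induction L with
  | nil => simp [run] at h; simp [h]
  | cons a L ih =>
    simp only [List.map_cons, run] at h
    split_ifs at h with h1
    obtain ⟨h2, h3⟩ := ih h
    refine ⟨?_, h3⟩
    intro j hj
    rcases List.mem_cons.mp hj with rfl | hj
    · exact h1
    · exact h2 j hj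

theorem run_goR {n i k : ℕ} {o : Bool} {m : ℕ} (h : run n (goR i k o) = some m) : i + k + 1 < n ∧ m = n := by
  have h' : run n (((List.range (k + 1)).map fun j => i + j).map fun j => Ev.cross j o) = some m := by
    rw [List.map_map]; exact h
  obtain ⟨h1, h2⟩ := run_crosses _ h'
  refine ⟨h1 (i + k) ?_, h2⟩
  simp only [List.mem_map, List.mem_range]
  exact ⟨k, by omega, rfl⟩

theorem run_goL {n i k : ℕ} {o : Bool} {m : ℕ} (h : run n (goL i k o) = some m) : i + k + 1 < n ∧ m = n := by
  have h' : run n (((List.range (k + 1)).map fun j => i + (k - j)).map fun j => Ev.cross j o) = some m := by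
    rw [List.map_map]; exact h
  obtain ⟨h1, h2⟩ := run_crosses _ h'
  refine ⟨h1 (i + k) ?_, h2⟩
  simp only [List.mem_map, List.mem_range]
  exact ⟨0, by omega, by simp⟩

/-- the number of sticks used for a piece -/
def Piece.cost (p : Piece) : ℕ := p.passes + 2 * p.minima + p.maxima

/-- one piece from a standard state -/
theorem block {C : Cfg} {w : List Ev} {Y : ℝ} (h : C.Std w Y) (p : Piece) {m : ℕ}
    (hr : run C.n p.word = some m) :
    ∃ (C' : Cfg) (Y' : ℝ), C'.Std (w ++ p.word) Y' ∧ C'.n = m ∧ C'.A = C.A + p.cost ∧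
      m + 2 * p.maxima = C.n + 2 * p.minima := by
  cases p with
  | cup i =>
    simp only [Piece.word, run] at hr
    split_ifs at hr with h1
    obtain ⟨C', Y', h2, h3, h4⟩ := block_cup h h1
    simp only [Option.some.injEq] at hr
    refine ⟨C', Y', h2, by omega, ?_, ?_⟩ <;>
      simp only [Piece.cost, Piece.passes, Piece.minima, Piece.maxima] <;> omega
  | cap i =>
    simp only [Piece.word, run] at hr
    split_ifs at hr with h1
    obtain ⟨C', Y', h2, h3, h4⟩ := block_cap h h1
    simp only [Option.some.injEq] at hr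
    refine ⟨C', Y', h2, by omega, ?_, ?_⟩ <;>
      simp only [Piece.cost, Piece.passes, Piece.minima, Piece.maxima] <;> omega
  | right i k o =>
    obtain ⟨h1, h1'⟩ := run_goR (show run C.n (goR i k o) = some m from hr)
    obtain ⟨C', Y', h2, h3, h4⟩ := block_right h o h1
    refine ⟨C', Y', h2, by omega, ?_, ?_⟩ <;>
      simp only [Piece.cost, Piece.passes, Piece.minima, Piece.maxima] <;> omega
  | left i k o =>
    obtain ⟨h1, h1'⟩ := run_goL (show run C.n (goL i k o) = some m from hr)
    obtain ⟨C', Y', h2, h3, h4⟩ := block_left h o h1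
    refine ⟨C', Y', h2, by omega, ?_, ?_⟩ <;>
      simp only [Piece.cost, Piece.passes, Piece.minima, Piece.maxima] <;> omega
  | cupL i k o =>
    simp only [Piece.word, run] at hr
    split_ifs at hr with h1
    obtain ⟨h5, h6⟩ := run_goL hr
    obtain ⟨C', Y', h2, h3, h4⟩ := block_cupL h o h1
    refine ⟨C', Y', h2, by omega, ?_, ?_⟩ <;>
      simp only [Piece.cost, Piece.passes, Piece.minima, Piece.maxima] <;> omega
  | cupR i k o =>
    simp only [Piece.word, run] at hr
    split_ifs at hr with h1
    obtain ⟨h5, h6⟩ := run_goR hr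
    obtain ⟨C', Y', h2, h3, h4⟩ := block_cupR h o (show i + k + 1 ≤ C.n by omega)
    refine ⟨C', Y', h2, by omega, ?_, ?_⟩ <;>
      simp only [Piece.cost, Piece.passes, Piece.minima, Piece.maxima] <;> omega
  | cupLR i o o' =>
    simp only [Piece.word, run] at hr
    split_ifs at hr with h1 h5 h6
    simp only [Option.some.injEq] at hr
    obtain ⟨C', Y', h2, h3, h4⟩ := block_cupLR h o o' (show i + 1 < C.n by omega)
    refine ⟨C', Y', h2, by omega, ?_, ?_⟩ <;>
      simp only [Piece.cost, Piece.passes, Piece.minima, Piece.maxima] <;> omega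

/-- several pieces from a standard state -/
theorem blocks (ps : List Piece) : ∀ {C : Cfg} {w : List Ev} {Y : ℝ}, C.Std w Y → ∀ {m : ℕ},
    run C.n (ps.flatMap Piece.word) = some m →
    ∃ (C' : Cfg) (Y' : ℝ), C'.Std (w ++ ps.flatMap Piece.word) Y' ∧ C'.n = m ∧
      C'.A = C.A + (ps.map Piece.passes).sum + 2 * (ps.map Piece.minima).sum + (ps.map Piece.maxima).sum ∧
      m + 2 * (ps.map Piece.maxima).sum = C.n + 2 * (ps.map Piece.minima).sum := by
  induction ps with
  | nil =>
    intro C w Y h m hr
    simp only [List.flatMap_nil, run, Option.some.injEq] at hr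
    exact ⟨C, Y, by simpa using h, hr, by simp, by simp [hr]⟩
  | cons p ps ih =>
    intro C w Y h m hr
    rw [List.flatMap_cons, run_append] at hr
    obtain ⟨m', hm', hr'⟩ := Option.bind_eq_some_iff.mp hr
    obtain ⟨C₁, Y₁, h1, h2, h3, h4⟩ := block h p hm'
    rw [← h2] at hr'
    obtain ⟨C₂, Y₂, g1, g2, g3, g4⟩ := ih h1 hr'
    refine ⟨C₂, Y₂, by simpa [List.flatMap_cons, List.append_assoc] using g1, g2, ?_, ?_⟩
    · simp only [List.map_cons, List.sum_cons]
      rw [g3, h3, Piece.cost]
      ring
    · simp only [List.map_cons, List.sum_cons]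
      omega

/-- the empty configuration -/
def empty : Cfg := ⟨0, fun _ => ⟨0, 0, 0, 0⟩, fun _ => 0, fun _ => none, 0, fun _ => 0⟩

theorem empty_std : empty.Std [] 0 := by
  have h0 : empty.pts 0 = ∅ := by
    ext p
    simp [Cfg.pts, empty]
  refine ⟨⟨⟨?_, ?_, ?_, ?_, ?_, ?_, ?_, ?_⟩, ?_, ?_⟩, ?_, ?_, ?_⟩
  · intro i hi; simp [empty] at hi
  · intro i hi; simp [empty] at hi
  · intro i hi; simp [empty] at hi
  · intro i hi; simp [empty] at hi
  · intro i hi; simp [empty] at hi
  · intro i hi; simp [empty] at hi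
  · intro i hi; simp [empty] at hi
  · intro i hi; simp [empty] at hi
  · intro j k _ hk; simp [empty] at hk
  · rw [h0]; exact Morse.nil 0 _
  · intro i hi; simp [empty] at hi
  · intro i hi; simp [empty] at hi
  · intro j k _ hk; simp [empty] at hk

/-- the main theorem -/
theorem main (ps : List Piece) (h : run 0 (ps.flatMap Piece.word) = some 0) :
    ∃ L : Set P3, HasWord L (ps.flatMap Piece.word) ∧
      IsPolyLink L ((ps.map Piece.passes).sum + 3 * (ps.map Piece.minima).sum) := by
  obtain ⟨C, Y, h1, h2, h3, h4⟩ := blocks ps empty_std h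
  obtain ⟨h5, h6⟩ := h1.inv.fin h2
  refine ⟨C.pts Y, by simpa using h6, ?_⟩
  have : C.A = (ps.map Piece.passes).sum + 3 * (ps.map Piece.minima).sum := by
    rw [h3]
    have : empty.A = 0 := rfl
    have : empty.n = 0 := rfl
    omega
  rw [← this]
  exact h5

end Pool.Agent.SN22
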